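import Pool.Agent.Lib.MP_68391b_lc.Sq.SRes
import Pool.Agent.Lib.MP_68391b_lc.Gen.GMul

/-! Polynomial approximation of the resolvent. -/

set_option linter.unusedSectionVars false

namespace Pool.Agent.KWG

open MeasureTheory ProbabilityTheory MvPolynomial Pool.Agent.KWI

variable {ι : Type} [Fintype ι] [DecidableEq ι]

/-- Hermite coefficients of `1/B`. -/
noncomputable def app_b (B : MvPolynomial ι ℝ) (α : ι → ℕ) : ℝ :=
  ∫ x, (1 / eval x B) * eval x (hp α) ∂(gam ι)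

/-- The part of `∫ G/B` on level `k`. -/
noncomputable def app_S (B G : MvPolynomial ι ℝ) (k : ℕ) : ℝ :=
  ∑ α ∈ lev ι k, hc G α * app_b B α

/-- The approximation. -/
noncomputable def app_T (B : MvPolynomial ι ℝ) (N₀ : ℕ) (Φ : ℕ → ℝ) : MvPolynomial ι ℝ :=
  ∑ k ∈ Finset.range (N₀ + 1), ∑ α ∈ lev ι k, C ((1 - Φ k) * app_b B α) * hp α

theorem app_T_degree (B : MvPolynomial ι ℝ) (N₀ : ℕ) (Φ : ℕ → ℝ) :
    (app_T B N₀ Φ).totalDegree ≤ N₀ := by
  unfold app_T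
  refine MvPolynomial.totalDegree_finsetSum_le fun k hk => ?_
  refine MvPolynomial.totalDegree_finsetSum_le fun α hα => ?_
  refine (MvPolynomial.totalDegree_mul _ _).trans ?_
  rw [totalDegree_C, zero_add]
  refine (hp_degree _).trans ?_
  rw [mem_lev.1 hα]
  have := Finset.mem_range.1 hk
  omega

theorem app_integrable {B : MvPolynomial ι ℝ} {w₂ : ℝ} (hw : 0 < w₂)
    (hB : ∀ x, w₂ ≤ eval x B) (q : MvPolynomial ι ℝ) :
    Integrable (fun x : ι → ℝ => (1 / eval x B) * eval x q) (gam ι) := by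
  have h := div_integrable hw hB q 1
  refine h.congr (Filter.Eventually.of_forall fun x => ?_)
  simp only [pow_one]
  ring

theorem app_T_int (B G : MvPolynomial ι ℝ) (N₀ : ℕ) (Φ : ℕ → ℝ) :
    ∫ x, eval x (app_T B N₀ Φ) * eval x G ∂(gam ι) =
      ∑ k ∈ Finset.range (N₀ + 1), (1 - Φ k) * app_S B G k := by
  have e1 : (fun x : ι → ℝ => eval x (app_T B N₀ Φ) * eval x G) = fun x =>
      ∑ k ∈ Finset.range (N₀ + 1), ∑ α ∈ lev ι k,
        ((1 - Φ k) * app_b B α) * (eval x G * eval x (hp α)) := by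
    funext x
    unfold app_T
    rw [map_sum, Finset.sum_mul]
    refine Finset.sum_congr rfl fun k _ => ?_
    rw [map_sum, Finset.sum_mul]
    refine Finset.sum_congr rfl fun α _ => ?_
    rw [map_mul, eval_C]
    ring
  rw [e1, integral_finsetSum _ fun k _ => integrable_finsetSum _ fun α _ =>
    (poly_integrable_mul _ _).const_mul _]
  refine Finset.sum_congr rfl fun k _ => ?_
  rw [integral_finsetSum _ fun α _ => (poly_integrable_mul _ _).const_mul _]
  unfold app_S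
  rw [Finset.mul_sum]
  refine Finset.sum_congr rfl fun α _ => ?_
  rw [integral_const_mul]
  unfold hc
  ring

theorem app_mu_int {B : MvPolynomial ι ℝ} {w₂ : ℝ} (hw : 0 < w₂)
    (hB : ∀ x, w₂ ≤ eval x B) (M : ℕ) (ψ : ℕ → ℝ) (G : MvPolynomial ι ℝ) :
    ∫ x, eval x (Mu M ψ G) / eval x B ∂(gam ι) =
      ∑ k ∈ Finset.range (M + 1), ψ k * app_S B G k := by
  have h := mu_integral M ψ G (fun x => 1 / eval x B) fun α => app_integrable hw hB (hp α)
  have e1 : (fun x : ι → ℝ => eval x (Mu M ψ G) / eval x B) =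
      fun x => (1 / eval x B) * eval x (Mu M ψ G) := by
    funext x
    ring
  rw [e1, h]
  refine Finset.sum_congr rfl fun k _ => ?_
  unfold app_S
  rw [Finset.mul_sum]
  refine Finset.sum_congr rfl fun α _ => ?_
  unfold app_b
  ring

theorem app_int {B : MvPolynomial ι ℝ} {w₂ : ℝ} (hw : 0 < w₂)
    (hB : ∀ x, w₂ ≤ eval x B) (M : ℕ) (G : MvPolynomial ι ℝ) (hG : G.totalDegree ≤ M) :
    ∫ x, eval x G / eval x B ∂(gam ι) = ∑ k ∈ Finset.range (M + 1), app_S B G k := by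
  have h := app_mu_int hw hB M (fun _ => 1) G
  rw [mu_one hG] at h
  rw [h]
  refine Finset.sum_congr rfl fun k _ => ?_
  rw [one_mul]

theorem app_split {B : MvPolynomial ι ℝ} {w₂ : ℝ} (hw : 0 < w₂)
    (hB : ∀ x, w₂ ≤ eval x B) (N₀ M : ℕ) (hM : N₀ ≤ M) (Φ : ℕ → ℝ) (G : MvPolynomial ι ℝ)
    (hG : G.totalDegree ≤ M) :
    ∫ x, eval x G / eval x B ∂(gam ι) - ∫ x, eval x (app_T B N₀ Φ) * eval x G ∂(gam ι) =
      ∫ x, eval x (Mu M Φ G) / eval x B ∂(gam ι) +
        ∑ k ∈ Finset.Ico (N₀ + 1) (M + 1), (1 - Φ k) * app_S B G k := by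
  rw [app_int hw hB M G hG, app_T_int, app_mu_int hw hB,
    Finset.sum_Ico_eq_sub _ (show N₀ + 1 ≤ M + 1 by omega)]
  have : ∑ k ∈ Finset.range (M + 1), (1 - Φ k) * app_S B G k =
      ∑ k ∈ Finset.range (M + 1), app_S B G k -
        ∑ k ∈ Finset.range (M + 1), Φ k * app_S B G k := by
    rw [← Finset.sum_sub_distrib]
    exact Finset.sum_congr rfl fun k _ => by ring
  rw [this]
  ring

theorem app_b_sq {B : MvPolynomial ι ℝ} {w₂ : ℝ} (hw : 0 < w₂)
    (hB : ∀ x, w₂ ≤ eval x B) (k : ℕ) :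
    ∑ α ∈ lev ι k, app_b B α ^ 2 ≤ (1 / w₂) ^ 2 := by
  have hm : AEStronglyMeasurable (fun x : ι → ℝ => 1 / eval x B) (gam ι) := by
    have h3 := eval_measurable B
    exact (by fun_prop : Measurable fun x : ι → ℝ => 1 / eval x B).aestronglyMeasurable
  have hb : ∀ x : ι → ℝ, (1 / eval x B) ^ 2 ≤ (1 / w₂) ^ 2 := by
    intro x
    have hBx : 0 < eval x B := lt_of_lt_of_le hw (hB x)
    have h1 : 1 / eval x B ≤ 1 / w₂ := one_div_le_one_div_of_le hw (hB x)
    have h2 : 0 ≤ 1 / eval x B := by positivity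
    exact pow_le_pow_left₀ h2 h1 2
  have hi : Integrable (fun x : ι → ℝ => (1 / eval x B) ^ 2) (gam ι) := by
    have h := div_integrable hw hB (1 : MvPolynomial ι ℝ) 2
    refine h.congr (Filter.Eventually.of_forall fun x => ?_)
    simp only [map_one, one_div, inv_pow]
  refine (bessel k (fun x => 1 / eval x B) hm hi).trans ?_
  have h2 : ∫ x : ι → ℝ, (1 / eval x B) ^ 2 ∂(gam ι) ≤ ∫ _x : ι → ℝ, (1 / w₂) ^ 2 ∂(gam ι) :=
    integral_mono hi (integrable_const _) hb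
  simpa using h2

theorem app_hc_sq (M : ℕ) (G : MvPolynomial ι ℝ) (hG : G.totalDegree ≤ M) (k : ℕ)
    (hk : k ≤ M) : ∑ α ∈ lev ι k, hc G α ^ 2 ≤ n2 G ^ 2 := by
  rw [parseval M G hG]
  exact Finset.single_le_sum (f := fun k => ∑ α ∈ lev ι k,
    (∫ x, eval x G * eval x (hp α) ∂(gam ι)) ^ 2)
    (fun i _ => Finset.sum_nonneg fun α _ => sq_nonneg _)
    (Finset.mem_range.2 (by omega))

theorem app_S_abs {B : MvPolynomial ι ℝ} {w₂ : ℝ} (hw : 0 < w₂)
    (hB : ∀ x, w₂ ≤ eval x B) (M : ℕ) (G : MvPolynomial ι ℝ) (hG : G.totalDegree ≤ M) (k : ℕ)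
    (hk : k ≤ M) : |app_S B G k| ≤ n2 G * (1 / w₂) := by
  have hwp : 0 < 1 / w₂ := by positivity
  apply abs_le_of_sq_le_sq _ (mul_nonneg (n2_nonneg G) hwp.le)
  unfold app_S
  refine (Finset.sum_mul_sq_le_sq_mul_sq _ _ _).trans ?_
  rw [mul_pow]
  exact mul_le_mul (app_hc_sq M G hG k hk) (app_b_sq hw hB k)
    (Finset.sum_nonneg fun α _ => sq_nonneg _) (sq_nonneg _)

theorem app_exists {B : MvPolynomial ι ℝ} {w₂ : ℝ} (hw : 0 < w₂) (hB : ∀ x, w₂ ≤ eval x B)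
    {D : ℕ} (hD : B.totalDegree ≤ D) (N₀ : ℕ) (f : ℕ → ℝ) (h0 : ∀ k, 0 ≤ f k)
    (h1 : ∀ k, f k ≤ 1) {η : ℝ} (hη : 0 ≤ η) (a : ℕ) {φ : ℝ} (hφ : 0 ≤ φ)
    (hshell : ∀ k, N₀ < k → k ≤ N₀ + 2 * D → 1 - Phi f a k ≤ φ)
    (hΦ : ∀ k, 0 ≤ 1 - Phi f a k)
    (hres : ∀ g : MvPolynomial ι ℝ, g.totalDegree ≤ N₀ + 2 * D →
      |∫ x, eval x (Mu (N₀ + 2 * D) (Phi f a) g) / eval x B ∂(gam ι)| ≤ η * √(wn B g)) :
    ∃ T : MvPolynomial ι ℝ, T.totalDegree ≤ N₀ ∧
      n2 (1 - B * T) ≤ η + (2 * D + 1) * φ * (1 / w₂) *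
        (1 + 2 * √((N₀ : ℝ) + 2 * D)) ^ D * n2 B := by
  refine ⟨app_T B N₀ (Phi f a), app_T_degree _ _ _, ?_⟩
  set T := app_T B N₀ (Phi f a) with hT
  set R : MvPolynomial ι ℝ := 1 - B * T with hR
  have hTd : T.totalDegree ≤ N₀ := app_T_degree _ _ _
  have hRd : R.totalDegree ≤ D + N₀ := by
    rw [hR]
    refine (totalDegree_sub _ _).trans ?_
    rw [totalDegree_one]
    refine max_le (Nat.zero_le _) ((totalDegree_mul _ _).trans (add_le_add hD hTd))
  have hGd : (B * R).totalDegree ≤ N₀ + 2 * D := by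
    refine (totalDegree_mul _ _).trans ((add_le_add hD hRd).trans ?_)
    omega
  have hwp : 0 < 1 / w₂ := by positivity
  have hpos : ∀ x : ι → ℝ, eval x B ≠ 0 := fun x => (lt_of_lt_of_le hw (hB x)).ne'
  have hnR := n2_nonneg R
  have hnB := n2_nonneg B
  have hnG := n2_nonneg (B * R)
  -- the weighted norm
  have hwn : √(wn B (B * R)) = n2 R := by
    unfold wn n2
    congr 2
    funext x
    rw [map_mul, mul_pow]
    field_simp [hpos x]
  -- the identity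
  have hid : n2 R ^ 2 = ∫ x, eval x (B * R) / eval x B ∂(gam ι) -
      ∫ x, eval x T * eval x (B * R) ∂(gam ι) := by
    rw [n2_sq]
    have i1 : Integrable (fun x : ι → ℝ => eval x (B * R) / eval x B) (gam ι) := by
      have := div_integrable hw hB (B * R) 1
      simpa using this
    rw [← integral_sub i1 (poly_integrable_mul _ _)]
    congr 1
    funext x
    have e1 : eval x (B * R) / eval x B = eval x R := by
      rw [map_mul]
      field_simp [hpos x]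
    rw [e1]
    have e2 : eval x R = 1 - eval x B * eval x T := by
      rw [hR]
      simp only [map_sub, map_one, map_mul]
    rw [map_mul]
    nth_rewrite 1 [sq]
    nth_rewrite 2 [e2]
    ring
  rw [app_split hw hB N₀ (N₀ + 2 * D) (by omega) (Phi f a) (B * R) hGd] at hid
  have hA := hres (B * R) hGd
  rw [hwn] at hA
  have hmul : n2 (B * R) ≤ (1 + 2 * √((N₀ : ℝ) + 2 * D)) ^ D * n2 B * n2 R := by
    have h := mul_bound D (D + N₀) B R hD hRd
    have e : (D : ℝ) + ((D + N₀ : ℕ) : ℝ) = (N₀ : ℝ) + 2 * D := by push_cast; ring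
    rwa [e] at h
  have hS : |∑ k ∈ Finset.Ico (N₀ + 1) (N₀ + 2 * D + 1), (1 - Phi f a k) *
      app_S B (B * R) k| ≤ (2 * D) * (φ * (n2 (B * R) * (1 / w₂))) := by
    refine (Finset.abs_sum_le_sum_abs _ _).trans ?_
    have hterm : ∀ k ∈ Finset.Ico (N₀ + 1) (N₀ + 2 * D + 1),
        |(1 - Phi f a k) * app_S B (B * R) k| ≤ φ * (n2 (B * R) * (1 / w₂)) := by
      intro k hk
      rw [Finset.mem_Ico] at hk
      rw [abs_mul, abs_of_nonneg (hΦ k)]
      exact mul_le_mul (hshell k (by omega) (by omega))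
        (app_S_abs hw hB (N₀ + 2 * D) (B * R) hGd k (by omega)) (abs_nonneg _) hφ
    refine (Finset.sum_le_sum hterm).trans ?_
    rw [Finset.sum_const, Nat.card_Ico, nsmul_eq_mul]
    have e : N₀ + 2 * D + 1 - (N₀ + 1) = 2 * D := by omega
    rw [e]
    push_cast
    exact le_rfl
  set K : ℝ := (1 + 2 * √((N₀ : ℝ) + 2 * D)) ^ D with hK
  have hK0 : 0 ≤ K := by rw [hK]; positivity
  have hD0 : (0 : ℝ) ≤ D := Nat.cast_nonneg D
  have hfin : n2 R ^ 2 ≤ (η + (2 * D + 1) * φ * (1 / w₂) * K * n2 B) * n2 R := by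
    have h3 := le_abs_self (∫ x, eval x (Mu (N₀ + 2 * D) (Phi f a) (B * R)) / eval x B ∂(gam ι))
    have h4 := le_abs_self (∑ k ∈ Finset.Ico (N₀ + 1) (N₀ + 2 * D + 1), (1 - Phi f a k) *
      app_S B (B * R) k)
    have h5 : (2 * D) * (φ * (n2 (B * R) * (1 / w₂))) ≤
        (2 * D) * (φ * ((K * n2 B * n2 R) * (1 / w₂))) := by gcongr
    have h6 : (2 * (D : ℝ)) * (φ * ((K * n2 B * n2 R) * (1 / w₂))) ≤
        (2 * D + 1) * (φ * ((K * n2 B * n2 R) * (1 / w₂))) := by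
      have : 0 ≤ φ * ((K * n2 B * n2 R) * (1 / w₂)) := by positivity
      nlinarith
    calc n2 R ^ 2 ≤ η * n2 R + (2 * D + 1) * (φ * ((K * n2 B * n2 R) * (1 / w₂))) := by
          linarith
      _ = _ := by ring
  rcases hnR.eq_or_lt with h0' | h0'
  · rw [← h0']
    positivity
  · have h7 : n2 R * n2 R ≤ (η + (2 * D + 1) * φ * (1 / w₂) * K * n2 B) * n2 R := by
      rw [← sq]; exact hfin
    exact le_of_mul_le_mul_right h7 h0'

end Pool.Agent.KWG
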