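import Pool.Agent.Lib.MP_68391b_lc.Sq.SDefs

/-! The cosine coefficients of the cut-off function. -/

set_option linter.unusedSectionVars false

namespace Pool.Agent.KWG

section CoefAux

open Polynomial

theorem coef_bound (P : ℂ[X]) (R M : ℝ) (hR : 0 < R)
    (hM : ∀ z : ℂ, ‖z‖ = R → ‖P.eval z‖ ≤ M) (j : ℕ) : ‖P.coeff j‖ * R ^ j ≤ M := by
  have hM0 : 0 ≤ M := (norm_nonneg _).trans (hM (R : ℂ) (by simp [abs_of_pos hR]))
  set Q : ℂ[X] := P.comp (C (R : ℂ) * X) with hQ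
  have hc : Q.coeff j = P.coeff j * (R : ℂ) ^ j := by rw [hQ, comp_C_mul_X_coeff]
  have hn : ‖Q.coeff j‖ = ‖P.coeff j‖ * R ^ j := by
    rw [hc, norm_mul, norm_pow, Complex.norm_real, Real.norm_of_nonneg hR.le]
  rw [← hn]
  have h1 : ∑ i ∈ Q.support, ‖Q.coeff i‖ ^ 2 ≤ M ^ 2 := by
    rw [Q.sum_sq_norm_coeff_eq_circleAverage]
    apply Real.circleAverage_mono_on_of_le_circle
    · apply ContinuousOn.circleIntegrable'
      have := Q.continuous
      fun_prop
    · intro z hz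
      rw [mem_sphere_zero_iff_norm, abs_one] at hz
      have h2 : ‖Q.eval z‖ ≤ M := by
        rw [hQ, eval_comp]
        apply hM
        rw [eval_mul, eval_C, eval_X, norm_mul, hz, mul_one, Complex.norm_real,
          Real.norm_of_nonneg hR.le]
      gcongr
  by_cases hj : j ∈ Q.support
  · have h3 : ‖Q.coeff j‖ ^ 2 ≤ M ^ 2 :=
      (Finset.single_le_sum (f := fun i => ‖Q.coeff i‖ ^ 2) (fun i _ => by positivity) hj).trans h1
    exact (pow_le_pow_iff_left₀ (norm_nonneg _) hM0 two_ne_zero).1 h3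
  · rw [notMem_support_iff.1 hj, norm_zero]
    exact hM0

/-- geometry of `sin^2` on a horizontal line -/
theorem coef_sin_sq_norm (φ κ : ℝ) :
    ‖Complex.sin (φ + κ * Complex.I) ^ 2‖ = Real.sin φ ^ 2 + Real.sinh κ ^ 2 := by
  rw [norm_pow, ← Complex.normSq_eq_norm_sq, Complex.sin_add, Complex.sin_mul_I, Complex.cos_mul_I,
    ← Complex.ofReal_sin, ← Complex.ofReal_cos, ← Complex.ofReal_sinh, ← Complex.ofReal_cosh,
    Complex.normSq_apply]
  have h1 := Real.cosh_sq κ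
  have h2 := Real.sin_sq_add_cos_sq φ
  generalize Real.sin φ = a at *
  generalize Real.cos φ = b at *
  generalize Real.sinh κ = c at *
  generalize Real.cosh κ = d at *
  simp
  have h3 : a * d * (a * d) + b * c * (b * c) = a ^ 2 * d ^ 2 + b ^ 2 * c ^ 2 := by ring
  have : b ^ 2 = 1 - a ^ 2 := by linarith
  rw [h3, h1, this]
  ring

theorem coef_sin_sq_re (φ κ : ℝ) :
    (Complex.sin (φ + κ * Complex.I) ^ 2).re =
      Real.sin φ ^ 2 + 2 * Real.sin φ ^ 2 * Real.sinh κ ^ 2 - Real.sinh κ ^ 2 := by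
  rw [Complex.sin_add, Complex.sin_mul_I, Complex.cos_mul_I,
    ← Complex.ofReal_sin, ← Complex.ofReal_cos, ← Complex.ofReal_sinh, ← Complex.ofReal_cosh,
    sq, Complex.mul_re]
  have h1 := Real.cosh_sq κ
  have h2 := Real.sin_sq_add_cos_sq φ
  generalize Real.sin φ = a at *
  generalize Real.cos φ = b at *
  generalize Real.sinh κ = c at *
  generalize Real.cosh κ = d at *
  simp
  have h3 : a * d * (a * d) - b * c * (b * c) = a ^ 2 * d ^ 2 - b ^ 2 * c ^ 2 := by ring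
  have : b ^ 2 = 1 - a ^ 2 := by linarith
  rw [h3, h1, this]
  ring

theorem coef_norm_pow_sub_pow (a b : ℂ) (M : ℝ) (ha : ‖a‖ ≤ M) (hb : ‖b‖ ≤ M) (q : ℕ) :
    ‖a ^ (q + 1) - b ^ (q + 1)‖ ≤ (q + 1) * M ^ q * ‖a - b‖ := by
  have hM : 0 ≤ M := (norm_nonneg _).trans ha
  induction q with
  | zero => simp
  | succ q ih =>
    have e : a ^ (q + 1 + 1) - b ^ (q + 1 + 1) = a * (a ^ (q + 1) - b ^ (q + 1)) +
      (a - b) * b ^ (q + 1) := by ring
    rw [e]
    calc ‖a * (a ^ (q + 1) - b ^ (q + 1)) + (a - b) * b ^ (q + 1)‖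
        ≤ ‖a‖ * ‖a ^ (q + 1) - b ^ (q + 1)‖ + ‖a - b‖ * ‖b‖ ^ (q + 1) := by
          refine (norm_add_le _ _).trans ?_
          rw [norm_mul, norm_mul, norm_pow]
      _ ≤ M * ((q + 1) * M ^ q * ‖a - b‖) + ‖a - b‖ * M ^ (q + 1) := by gcongr
      _ = _ := by push_cast; ring

theorem coef_sinh_sq_le (κ : ℝ) (q : ℕ) (hq : 1 ≤ q) (hκ : |κ| = 1 / (4 * q)) :
    Real.sinh κ ^ 2 ≤ 1 / (14 * q ^ 2) := by
  have hq' : (1 : ℝ) ≤ q := by exact_mod_cast hq
  have h1 : Real.cosh (2 * κ) ≤ Real.exp ((2 * κ) ^ 2 / 2) := Real.cosh_le_exp_half_sq _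
  have h2 : Real.cosh (2 * κ) = 1 + 2 * Real.sinh κ ^ 2 := by
    rw [Real.cosh_two_mul, Real.cosh_sq]; ring
  have h3 : κ ^ 2 = 1 / (16 * q ^ 2) := by
    rw [← sq_abs, hκ]; field_simp; norm_num
  set x : ℝ := (2 * κ) ^ 2 / 2 with hx
  have hx1 : x = 1 / (8 * q ^ 2) := by
    rw [hx]; rw [mul_pow, h3]; field_simp; norm_num
  have hx0 : 0 < x := by rw [hx1]; positivity
  have hx2 : x ≤ 1 / 8 := by
    rw [hx1]; apply one_div_le_one_div_of_le (by norm_num); nlinarith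
  have h4 : Real.exp x ≤ 1 / (1 - x) := by
    have := Real.one_sub_le_exp_neg x
    rw [Real.exp_neg] at this
    rw [le_div_iff₀ (by linarith)]
    have h5 := Real.exp_pos x
    calc Real.exp x * (1 - x) ≤ Real.exp x * (Real.exp x)⁻¹ := by gcongr
      _ = 1 := mul_inv_cancel₀ h5.ne'
  have h6 : 1 / (1 - x) ≤ 1 + 8 / 7 * x := by
    rw [div_le_iff₀ (by linarith)]
    nlinarith
  have h7 : Real.sinh κ ^ 2 ≤ 4 / 7 * x := by linarith
  calc _ ≤ 4 / 7 * x := h7
    _ = 1 / (14 * q ^ 2) := by rw [hx1]; field_simp; norm_num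

theorem coef_exp_le_inv {x : ℝ} (hx : x < 1) : Real.exp x ≤ 1 / (1 - x) := by
  have := Real.one_sub_le_exp_neg x
  rw [Real.exp_neg] at this
  rw [le_div_iff₀ (by linarith)]
  have h5 := Real.exp_pos x
  calc Real.exp x * (1 - x) ≤ Real.exp x * (Real.exp x)⁻¹ := by gcongr
    _ = 1 := mul_inv_cancel₀ h5.ne'

theorem coef_one_sub_bound {J q : ℕ} (hJ : 1 ≤ J) (hq : 1 ≤ q) (hJq : J ^ 4 ≤ 2 ^ q) (φ κ : ℝ)
    (hκ : |κ| = 1 / (4 * q)) :
    ‖1 - Complex.sin (φ + κ * Complex.I) ^ (2 * q)‖ ≤ 1 + 1 / J := by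
  have hJ' : (1 : ℝ) ≤ J := by exact_mod_cast hJ
  have hq' : (1 : ℝ) ≤ q := by exact_mod_cast hq
  have hb := coef_sinh_sq_le κ q hq hκ
  have hn := coef_sin_sq_norm φ κ
  have hr := coef_sin_sq_re φ κ
  have ha1 : Real.sin φ ^ 2 ≤ 1 := Real.sin_sq_le_one φ
  have ha0 : 0 ≤ Real.sin φ ^ 2 := sq_nonneg _
  have hb0 : 0 ≤ Real.sinh κ ^ 2 := sq_nonneg _
  rw [pow_mul]
  generalize Complex.sin (φ + κ * Complex.I) ^ 2 = s at *
  generalize Real.sin φ ^ 2 = a at *
  generalize Real.sinh κ ^ 2 = b at *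
  set r : ℝ := ‖s‖ with hrdef
  have hr0 : 0 ≤ r := norm_nonneg _
  have hsq : ‖s ^ q‖ = r ^ q := norm_pow _ _
  by_cases h : r ^ q ≤ 1 / J
  · refine (norm_sub_le _ _).trans ?_
    rw [norm_one, hsq]
    linarith
  rw [not_le] at h
  have h1 : (1 / 2 : ℝ) ^ q < (r ^ 4) ^ q := by
    have e1 : ((J : ℝ) ^ 4) ≤ 2 ^ q := by exact_mod_cast hJq
    calc (1 / 2 : ℝ) ^ q = 1 / 2 ^ q := by rw [div_pow, one_pow]
      _ ≤ 1 / (J : ℝ) ^ 4 := one_div_le_one_div_of_le (by positivity) e1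
      _ = (1 / J : ℝ) ^ 4 := by rw [div_pow, one_pow]
      _ < (r ^ q) ^ 4 := by gcongr
      _ = (r ^ 4) ^ q := by rw [← pow_mul, ← pow_mul, mul_comm]
  have h2 : 1 / 2 < r ^ 4 := lt_of_pow_lt_pow_left₀ q (by positivity) h1
  have h3 : 0.84 < r := by
    by_contra hc
    rw [not_lt] at hc
    have : r ^ 4 ≤ 0.84 ^ 4 := by gcongr
    norm_num at this h2
    linarith
  have hbq : (q : ℝ) ^ 2 * b ≤ 1 / 14 := by
    calc (q : ℝ) ^ 2 * b ≤ q ^ 2 * (1 / (14 * q ^ 2)) := by gcongr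
      _ = 1 / 14 := by field_simp
  have hbq1 : (q : ℝ) * b ≤ 1 / 14 := by nlinarith
  have hb1 : b ≤ 1 / 14 := by nlinarith
  have h4 : ‖s - r‖ ^ 2 = 4 * r * b * (1 - a) := by
    rw [← Complex.normSq_eq_norm_sq, Complex.normSq_apply]
    have h5 : s.re * s.re + s.im * s.im = r ^ 2 := by
      rw [← Complex.normSq_apply, Complex.normSq_eq_norm_sq]
    simp only [Complex.sub_re, Complex.sub_im, Complex.ofReal_re, Complex.ofReal_im, sub_zero]
    have h6 : (s.re - r) * (s.re - r) + s.im * s.im = 2 * r ^ 2 - 2 * r * s.re := by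
      linear_combination h5
    rw [h6, hr, hn]
    ring
  have h5 : (q : ℝ) * ‖s - r‖ ≤ 0.29 * r := by
    apply le_of_sq_le_sq _ (by positivity)
    rw [mul_pow, h4]
    have h6 : 1 - a ≤ 0.2315 := by norm_num; linarith
    calc (q : ℝ) ^ 2 * (4 * r * b * (1 - a)) = 4 * r * (q ^ 2 * b) * (1 - a) := by ring
      _ ≤ 4 * r * (1 / 14) * 0.2315 := by
          have : 0 ≤ 1 - a := by linarith
          gcongr
      _ ≤ (0.29 * r) ^ 2 := by nlinarith
  obtain ⟨p, rfl⟩ : ∃ p, q = p + 1 := ⟨q - 1, by omega⟩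
  have h6 : ‖s ^ (p + 1) - (r : ℂ) ^ (p + 1)‖ ≤ 0.29 * r ^ (p + 1) := by
    refine (coef_norm_pow_sub_pow s r r le_rfl (by simp [abs_of_nonneg hr0]) p).trans ?_
    have h7 : ((p : ℝ) + 1) * ‖s - r‖ ≤ 0.29 * r := by exact_mod_cast h5
    calc ((p : ℝ) + 1) * r ^ p * ‖s - r‖ = r ^ p * (((p : ℝ) + 1) * ‖s - r‖) := by ring
      _ ≤ r ^ p * (0.29 * r) := by gcongr
      _ = _ := by ring
  have h7 : ‖1 - s ^ (p + 1)‖ ≤ |1 - r ^ (p + 1)| + 0.29 * r ^ (p + 1) := by
    have e : 1 - s ^ (p + 1) = ((1 - r ^ (p + 1) : ℝ) : ℂ) - (s ^ (p + 1) - (r : ℂ) ^ (p + 1)) := by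
      push_cast; ring
    rw [e]
    refine (norm_sub_le _ _).trans ?_
    rw [Complex.norm_real, Real.norm_eq_abs]
    gcongr
  refine h7.trans ?_
  have h8 : (0 : ℝ) ≤ 1 / J := by positivity
  have hrq0 : 0 ≤ r ^ (p + 1) := by positivity
  rcases le_total (r ^ (p + 1)) 1 with h9 | h9
  · rw [abs_of_nonneg (by linarith)]
    linarith
  · rw [abs_of_nonpos (by linarith)]
    have h10 : r ^ (p + 1) ≤ 14 / 13 := by
      calc r ^ (p + 1) ≤ (Real.exp b) ^ (p + 1) := by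
            gcongr
            linarith [Real.add_one_le_exp b]
        _ = Real.exp (((p + 1 : ℕ) : ℝ) * b) := by rw [← Real.exp_nat_mul]
        _ ≤ Real.exp (1 / 14) := Real.exp_le_exp.2 hbq1
        _ ≤ 1 / (1 - 1 / 14) := coef_exp_le_inv (by norm_num)
        _ = 14 / 13 := by norm_num
    have h11 : -(1 - r ^ (p + 1)) + 0.29 * r ^ (p + 1) ≤ 1 := by
      norm_num
      linarith
    linarith

theorem coef_pow_J_bound {J q : ℕ} (hJ : 1 ≤ J) (hq : 1 ≤ q) (hJq : J ^ 4 ≤ 2 ^ q) (φ κ : ℝ)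
    (hκ : |κ| = 1 / (4 * q)) :
    ‖(1 - Complex.sin (φ + κ * Complex.I) ^ (2 * q)) ^ J‖ ≤ 2.72 := by
  have hJ' : (1 : ℝ) ≤ J := by exact_mod_cast hJ
  rw [norm_pow]
  calc ‖1 - Complex.sin (φ + κ * Complex.I) ^ (2 * q)‖ ^ J ≤ (1 + 1 / (J : ℝ)) ^ J := by
        gcongr
        exact coef_one_sub_bound hJ hq hJq φ κ hκ
    _ ≤ (Real.exp (1 / J)) ^ J := by
        gcongr
        linarith [Real.add_one_le_exp (1 / (J : ℝ))]
    _ = Real.exp 1 := by
        rw [← Real.exp_nat_mul]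
        congr 1
        field_simp
    _ ≤ 2.72 := by
        have := Real.exp_one_lt_d9
        norm_num at this ⊢
        linarith

/-- the polynomial -/
noncomputable def coef_sPoly (q J : ℕ) : ℝ[X] :=
  (X ^ q - (C (-1 / 4) * (X - 1) ^ 2) ^ q) ^ J

theorem coef_sPoly_natDegree (q J : ℕ) : (coef_sPoly q J).natDegree ≤ 2 * q * J := by
  unfold coef_sPoly
  have h1 : (X - 1 : ℝ[X]).natDegree ≤ 1 := by
    rw [← C_1, natDegree_X_sub_C]
  have h2 : (C (-1 / 4 : ℝ) * (X - 1) ^ 2).natDegree ≤ 2 := by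
    refine (natDegree_C_mul_le _ _).trans ?_
    refine natDegree_pow_le.trans ?_
    omega
  have h3 : ((C (-1 / 4 : ℝ) * (X - 1) ^ 2) ^ q).natDegree ≤ 2 * q := by
    refine natDegree_pow_le.trans ?_
    nlinarith
  have h4 : (X ^ q - (C (-1 / 4 : ℝ) * (X - 1) ^ 2) ^ q).natDegree ≤ 2 * q := by
    refine (natDegree_sub_le _ _).trans ?_
    rw [natDegree_X_pow]
    omega
  refine natDegree_pow_le.trans ?_
  nlinarith

theorem coef_sin_sq_exp (w : ℂ) :
    Complex.exp (2 * w * Complex.I) * Complex.sin w ^ 2 =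
      -1 / 4 * (Complex.exp (2 * w * Complex.I) - 1) ^ 2 := by
  have h1 : Complex.exp (2 * w * Complex.I) = Complex.exp (w * Complex.I) ^ 2 := by
    rw [← Complex.exp_nat_mul]
    congr 1
    push_cast
    ring
  have h2 : Complex.exp (-w * Complex.I) * Complex.exp (w * Complex.I) = 1 := by
    rw [← Complex.exp_add]
    simp
  rw [h1, Complex.sin]
  generalize Complex.exp (w * Complex.I) = a at *
  generalize Complex.exp (-w * Complex.I) = b at *
  have hI : Complex.I ^ 2 = -1 := Complex.I_sq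
  have e : a ^ 2 * ((b - a) * Complex.I / 2) ^ 2 = (b * a - a * a) ^ 2 * Complex.I ^ 2 / 4 := by ring
  rw [e, h2, hI]
  ring

theorem coef_sPoly_eval (q J : ℕ) (w : ℂ) :
    ((coef_sPoly q J).map (algebraMap ℝ ℂ)).eval (Complex.exp (2 * w * Complex.I)) =
      Complex.exp (2 * w * Complex.I) ^ (q * J) * (1 - Complex.sin w ^ (2 * q)) ^ J := by
  unfold coef_sPoly
  have h1 := coef_sin_sq_exp w
  simp only [Polynomial.map_pow, Polynomial.map_sub, Polynomial.map_mul, map_X, map_C,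
    Polynomial.map_one, eval_pow, eval_sub, eval_mul, eval_X, eval_C, eval_one]
  have h2 : (algebraMap ℝ ℂ (-1 / 4)) = -1 / 4 := by simp
  rw [h2, ← h1, pow_mul, pow_mul (Complex.sin w), ← mul_pow, mul_pow, mul_sub, mul_one]

theorem coef_sPoly_coeff_bound {J q : ℕ} (hJ : 1 ≤ J) (hq : 1 ≤ q) (hJq : J ^ 4 ≤ 2 ^ q) (κ : ℝ)
    (hκ : |κ| = 1 / (4 * q)) (j : ℕ) :
    |(coef_sPoly q J).coeff j| * Real.exp (-2 * κ * ((j : ℝ) - q * J)) ≤ 2.72 := by
  have h := coef_bound ((coef_sPoly q J).map (algebraMap ℝ ℂ)) (Real.exp (-2 * κ))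
    (2.72 * Real.exp (-2 * κ) ^ (q * J)) (Real.exp_pos _) ?_ j
  · rw [coeff_map, Complex.coe_algebraMap, Complex.norm_real, Real.norm_eq_abs] at h
    have e : Real.exp (-2 * κ * ((j : ℝ) - q * J)) =
        Real.exp (-2 * κ) ^ j / Real.exp (-2 * κ) ^ (q * J) := by
      rw [← Real.exp_nat_mul, ← Real.exp_nat_mul, ← Real.exp_sub]
      congr 1
      push_cast
      ring
    rw [e, ← mul_div_assoc, div_le_iff₀ (by positivity)]
    exact h
  · intro z hz
    have h1 : z = Complex.exp (2 * ((Complex.arg z / 2 : ℝ) + κ * Complex.I) * Complex.I) := by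
      have e : (2 * ((Complex.arg z / 2 : ℝ) + κ * Complex.I) * Complex.I : ℂ) =
          ((-2 * κ : ℝ) : ℂ) + Complex.arg z * Complex.I := by
        have hI : Complex.I * Complex.I = -1 := Complex.I_mul_I
        push_cast
        linear_combination (2 * κ) * hI
      rw [e, Complex.exp_add, ← Complex.ofReal_exp, ← hz]
      exact (Complex.norm_mul_exp_arg_mul_I z).symm
    rw [h1, coef_sPoly_eval, ← h1, norm_mul, norm_pow, hz, mul_comm]
    have := coef_pow_J_bound hJ hq hJq (Complex.arg z / 2) κ hκ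
    gcongr

theorem coef_cos_expand (q J : ℕ) (h y : ℝ) :
    (1 - Real.sin (h * y) ^ (2 * q)) ^ J =
      ∑ j ∈ Finset.range (q * J + (q * J + 1)), (coef_sPoly q J).coeff j *
        Real.cos (2 * h * |(j : ℝ) - q * J| * y) := by
  have h1 := coef_sPoly_eval q J ((h * y : ℝ) : ℂ)
  set z : ℂ := Complex.exp (2 * ((h * y : ℝ) : ℂ) * Complex.I) with hz
  have hdeg : ((coef_sPoly q J).map (algebraMap ℝ ℂ)).natDegree < q * J + (q * J + 1) := by
    have := coef_sPoly_natDegree q J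
    have h2 := natDegree_map_le (f := algebraMap ℝ ℂ) (p := coef_sPoly q J)
    have : 2 * q * J = q * J + q * J := by ring
    omega
  rw [eval_eq_sum_range' hdeg] at h1
  have hz0 : z ≠ 0 := Complex.exp_ne_zero _
  have h2 : (((1 - Real.sin (h * y) ^ (2 * q)) ^ J : ℝ) : ℂ) =
      ∑ j ∈ Finset.range (q * J + (q * J + 1)), ((coef_sPoly q J).coeff j : ℂ) *
        Complex.exp (((2 * h * ((j : ℝ) - q * J) * y : ℝ) : ℂ) * Complex.I) := by
    have e1 : (((1 - Real.sin (h * y) ^ (2 * q)) ^ J : ℝ) : ℂ) =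
        (1 - Complex.sin ((h * y : ℝ) : ℂ) ^ (2 * q)) ^ J := by
      push_cast
      rfl
    rw [e1, ← mul_right_inj' (pow_ne_zero (q * J) hz0), ← h1, Finset.mul_sum]
    refine Finset.sum_congr rfl fun j _ => ?_
    have e2 : Complex.exp (((2 * h * ((j : ℝ) - q * J) * y : ℝ) : ℂ) * Complex.I) * z ^ (q * J) =
        z ^ j := by
      rw [hz, ← Complex.exp_nat_mul, ← Complex.exp_nat_mul, ← Complex.exp_add]
      congr 1
      push_cast
      ring
    rw [coeff_map, Complex.coe_algebraMap, ← e2]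
    ring
  have h3 := congrArg Complex.re h2
  rw [Complex.ofReal_re, Complex.re_sum] at h3
  rw [h3]
  refine Finset.sum_congr rfl fun j _ => ?_
  rw [Complex.re_ofReal_mul, Complex.exp_ofReal_mul_I_re]
  congr 1
  rcases le_total 0 ((j : ℝ) - q * J) with h4 | h4
  · rw [abs_of_nonneg h4]
  · rw [abs_of_nonpos h4, ← Real.cos_neg]
    congr 1
    ring

theorem coef_geo_sum (κ : ℝ) (h0 : 0 < κ) (h1 : κ ≤ 1 / 4) (N : ℕ) :
    ∑ m ∈ Finset.range N, (m : ℝ) * Real.exp (-κ) ^ m ≤ 64 / 49 * (1 / κ ^ 2) := by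
  set x := Real.exp (-κ) with hx
  have hx0 : 0 < x := Real.exp_pos _
  have hx1 : x < 1 := by rw [hx, Real.exp_lt_one_iff]; linarith
  have hs := hasSum_coe_mul_geometric_of_norm_lt_one (𝕜 := ℝ) (r := x)
    (by rw [Real.norm_of_nonneg hx0.le]; exact hx1)
  have h2 : ∑ m ∈ Finset.range N, (m : ℝ) * x ^ m ≤ x / (1 - x) ^ 2 :=
    sum_le_hasSum _ (fun i _ => by positivity) hs
  refine h2.trans ?_
  have h3 : κ * (7 / 8) ≤ 1 - x := by
    have h4 : x ≤ 1 - κ + κ ^ 2 / 2 := by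
      have h5 := Real.quadratic_le_exp_of_nonneg h0.le
      have h6 : x * Real.exp κ = 1 := by rw [hx, ← Real.exp_add]; simp
      have h7 : (1 - κ + κ ^ 2 / 2) * (1 + κ + κ ^ 2 / 2) ≥ 1 := by nlinarith [pow_pos h0 4]
      have h8 : 0 < 1 - κ + κ ^ 2 / 2 := by nlinarith
      by_contra hc
      rw [not_le] at hc
      have h9 : (1 - κ + κ ^ 2 / 2) * (1 + κ + κ ^ 2 / 2) < x * Real.exp κ := by
        calc (1 - κ + κ ^ 2 / 2) * (1 + κ + κ ^ 2 / 2) < x * (1 + κ + κ ^ 2 / 2) := by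
              gcongr
          _ ≤ x * Real.exp κ := by gcongr
      linarith
    nlinarith
  have h4 : 0 < κ * (7 / 8) := by positivity
  calc x / (1 - x) ^ 2 ≤ 1 / (κ * (7 / 8)) ^ 2 := by gcongr
    _ = 64 / 49 * (1 / κ ^ 2) := by field_simp; norm_num

theorem coef_exists' {J q L₀ : ℕ} (hJ : 1 ≤ J) (hq : 1 ≤ q) (hJq : J ^ 4 ≤ 2 ^ q)
    (hL : 1 ≤ L₀) :
    ∃ (n : ℕ) (c t : Fin n → ℝ), (∀ i, 0 ≤ t i) ∧
      (∀ y : ℝ, (1 - Real.sin (Real.pi / (2 * L₀) * y) ^ (2 * q)) ^ J =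
        ∑ i, c i * Real.cos (t i * y)) ∧
      ∀ K : ℝ, 0 ≤ K → 8 * q * K * (Real.pi / (2 * L₀)) ≤ 1 →
        ∑ i, |c i| * t i * Real.exp (K * t i) ≤ 400 * q ^ 2 * (Real.pi / (2 * L₀)) := by
  have hq' : (1 : ℝ) ≤ q := by exact_mod_cast hq
  have hL' : (1 : ℝ) ≤ L₀ := by exact_mod_cast hL
  set h : ℝ := Real.pi / (2 * L₀) with hh
  have hh0 : 0 < h := by have := Real.pi_pos; positivity
  refine ⟨q * J + (q * J + 1), fun i => (coef_sPoly q J).coeff i,
    fun i => 2 * h * |((i : ℕ) : ℝ) - q * J|, fun i => by positivity, fun y => ?_, fun K hK0 hK => ?_⟩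
  · rw [coef_cos_expand, Finset.sum_range]
  · set κ : ℝ := 1 / (4 * q) with hκ
    have hκ0 : 0 < κ := by positivity
    have hκ1 : κ ≤ 1 / 4 := by
      rw [hκ]; apply one_div_le_one_div_of_le (by norm_num); linarith
    have hKh : 2 * K * h ≤ κ := by
      rw [hκ, le_div_iff₀ (by positivity)]
      linarith
    -- bound of the terms
    have hterm : ∀ i : ℕ, |(coef_sPoly q J).coeff i| * (2 * h * |(i : ℝ) - q * J|) *
        Real.exp (K * (2 * h * |(i : ℝ) - q * J|)) ≤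
        2.72 * (2 * h) * (|(i : ℝ) - q * J| * Real.exp (-κ * |(i : ℝ) - q * J|)) := by
      intro i
      have hc : |(coef_sPoly q J).coeff i| ≤ 2.72 * Real.exp (-2 * κ * |(i : ℝ) - q * J|) := by
        have hp := coef_sPoly_coeff_bound hJ hq hJq κ (by rw [abs_of_pos hκ0]) i
        have hm := coef_sPoly_coeff_bound hJ hq hJq (-κ) (by rw [abs_neg, abs_of_pos hκ0]) i
        have key : |(coef_sPoly q J).coeff i| * Real.exp (2 * κ * |(i : ℝ) - q * J|) ≤ 2.72 := by
          rcases le_total 0 ((i : ℝ) - q * J) with h4 | h4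
          · rw [abs_of_nonneg h4]
            convert hm using 3
            ring
          · rw [abs_of_nonpos h4]
            convert hp using 3
            ring
        have e : Real.exp (-2 * κ * |(i : ℝ) - q * J|) =
            (Real.exp (2 * κ * |(i : ℝ) - q * J|))⁻¹ := by
          rw [← Real.exp_neg]; congr 1; ring
        rw [e, ← div_eq_mul_inv, le_div_iff₀ (Real.exp_pos _)]
        exact key
      set m : ℝ := |(i : ℝ) - q * J| with hm
      have hm0 : 0 ≤ m := abs_nonneg _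
      calc |(coef_sPoly q J).coeff i| * (2 * h * m) * Real.exp (K * (2 * h * m))
          ≤ (2.72 * Real.exp (-2 * κ * m)) * (2 * h * m) * Real.exp (κ * m) := by
            have : K * (2 * h * m) ≤ κ * m := by nlinarith
            gcongr
        _ = 2.72 * (2 * h) * (m * (Real.exp (-2 * κ * m) * Real.exp (κ * m))) := by ring
        _ = _ := by
            rw [← Real.exp_add]
            congr 4
            ring
    set g : ℕ → ℝ := fun m => (m : ℝ) * Real.exp (-κ) ^ m with hg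
    have hg' : ∀ m : ℕ, g m = (m : ℝ) * Real.exp (-κ * m) := by
      intro m
      rw [hg]
      simp only
      rw [← Real.exp_nat_mul]
      ring_nf
    have hsum : ∑ i ∈ Finset.range (q * J + (q * J + 1)),
        (|(i : ℝ) - q * J| * Real.exp (-κ * |(i : ℝ) - q * J|)) ≤ 2 * (64 / 49 * (1 / κ ^ 2)) := by
      rw [Finset.sum_range_add]
      have s1 : ∑ i ∈ Finset.range (q * J),
          (|(i : ℝ) - q * J| * Real.exp (-κ * |(i : ℝ) - q * J|)) ≤ 64 / 49 * (1 / κ ^ 2) := by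
        have e1 : ∑ i ∈ Finset.range (q * J),
            (|(i : ℝ) - q * J| * Real.exp (-κ * |(i : ℝ) - q * J|)) =
            ∑ i ∈ Finset.range (q * J), g (i + 1) := by
          rw [← Finset.sum_range_reflect (fun i => g (i + 1))]
          refine Finset.sum_congr rfl fun i hi => ?_
          rw [Finset.mem_range] at hi
          have e2 : q * J - 1 - i + 1 = q * J - i := by omega
          rw [e2, hg']
          have e3 : |(i : ℝ) - q * J| = ((q * J - i : ℕ) : ℝ) := by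
            rw [Nat.cast_sub hi.le]
            push_cast
            rw [abs_of_nonpos]
            · ring
            · have : (i : ℝ) < q * J := by exact_mod_cast hi
              linarith
          rw [e3]
        rw [e1]
        have e4 := Finset.sum_range_succ' g (q * J)
        have e5 : g 0 = 0 := by simp [hg]
        rw [e5, add_zero] at e4
        rw [← e4]
        exact coef_geo_sum κ hκ0 hκ1 _
      have s2 : ∑ i ∈ Finset.range (q * J + 1),
          (|((q * J + i : ℕ) : ℝ) - q * J| * Real.exp (-κ * |((q * J + i : ℕ) : ℝ) - q * J|)) ≤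
          64 / 49 * (1 / κ ^ 2) := by
        have e1 : ∑ i ∈ Finset.range (q * J + 1),
            (|((q * J + i : ℕ) : ℝ) - q * J| * Real.exp (-κ * |((q * J + i : ℕ) : ℝ) - q * J|)) =
            ∑ i ∈ Finset.range (q * J + 1), g i := by
          refine Finset.sum_congr rfl fun i hi => ?_
          rw [hg']
          have e3 : |((q * J + i : ℕ) : ℝ) - q * J| = (i : ℝ) := by
            push_cast
            rw [add_sub_cancel_left]
            exact abs_of_nonneg (by positivity)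
          rw [e3]
        rw [e1]
        exact coef_geo_sum κ hκ0 hκ1 _
      linarith
    calc ∑ i : Fin (q * J + (q * J + 1)), |(coef_sPoly q J).coeff i| *
          (2 * h * |((i : ℕ) : ℝ) - q * J|) * Real.exp (K * (2 * h * |((i : ℕ) : ℝ) - q * J|))
        = ∑ i ∈ Finset.range (q * J + (q * J + 1)), |(coef_sPoly q J).coeff i| *
          (2 * h * |(i : ℝ) - q * J|) * Real.exp (K * (2 * h * |(i : ℝ) - q * J|)) := by
          rw [Finset.sum_range]
      _ ≤ ∑ i ∈ Finset.range (q * J + (q * J + 1)), 2.72 * (2 * h) *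
          (|(i : ℝ) - q * J| * Real.exp (-κ * |(i : ℝ) - q * J|)) :=
          Finset.sum_le_sum fun i _ => hterm i
      _ = 2.72 * (2 * h) * ∑ i ∈ Finset.range (q * J + (q * J + 1)),
          (|(i : ℝ) - q * J| * Real.exp (-κ * |(i : ℝ) - q * J|)) := by rw [Finset.mul_sum]
      _ ≤ 2.72 * (2 * h) * (2 * (64 / 49 * (1 / κ ^ 2))) := by gcongr
      _ ≤ 400 * q ^ 2 * h := by
          rw [hκ]
          have : (1 : ℝ) / (1 / (4 * q)) ^ 2 = 16 * q ^ 2 := by field_simp; norm_num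
          rw [this]
          have h5 : 0 ≤ (q : ℝ) ^ 2 * h := by positivity
          norm_num
          nlinarith

end CoefAux

open MeasureTheory ProbabilityTheory MvPolynomial Pool.Agent.KWI

variable {ι : Type} [Fintype ι] [DecidableEq ι]

theorem coef_exists {J q L₀ : ℕ} (hJ : 1 ≤ J) (hq : 1 ≤ q) (hJq : J ^ 4 ≤ 2 ^ q)
    (hL : 1 ≤ L₀) :
    ∃ (n : ℕ) (c t : Fin n → ℝ), (∀ i, 0 ≤ t i) ∧
      (∀ y : ℝ, (1 - Real.sin (Real.pi / (2 * L₀) * y) ^ (2 * q)) ^ J =
        ∑ i, c i * Real.cos (t i * y)) ∧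
      ∀ K : ℝ, 0 ≤ K → 8 * q * K * (Real.pi / (2 * L₀)) ≤ 1 →
        ∑ i, |c i| * t i * Real.exp (K * t i) ≤ 400 * q ^ 2 * (Real.pi / (2 * L₀)) :=
  coef_exists' hJ hq hJq hL

end Pool.Agent.KWG
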