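import Pool.Agent.Lib.MP_68391b_lc.Gen.GDefs
import Pool.Agent.Lib.MP_68391b_lc.Gen.GFun

/-! The smooth upper bound for the indicator function, with resolvents. -/

set_option linter.unusedSectionVars false

namespace Pool.Agent.KWG

open MeasureTheory ProbabilityTheory MvPolynomial Pool.Agent.KWI

section sfunaux

variable {Ω : Type} [MeasurableSpace Ω]

/-- The kernel `1/(A + v²)` through `1/(1+u²)`. -/
theorem sfun_kernel {A : ℝ} (hA : 0 < A) (v : ℝ) :
    (A + v ^ 2)⁻¹ = A⁻¹ * (1 + ((√A)⁻¹ * v) ^ 2)⁻¹ := by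
  have h := Real.sq_sqrt hA.le
  have h2 := Real.sqrt_pos.2 hA
  rw [mul_pow, inv_pow, h]
  have : (1 : ℝ) + A⁻¹ * v ^ 2 = A⁻¹ * (A + v ^ 2) := by
    field_simp
  rw [this, mul_inv, inv_inv]
  field_simp

theorem sfun_integrable_kernel {A : ℝ} (hA : 0 < A) :
    Integrable (fun v : ℝ => (A + v ^ 2)⁻¹) := by
  have h1 : Integrable (fun v : ℝ => (1 + ((√A)⁻¹ * v) ^ 2)⁻¹) :=
    integrable_inv_one_add_sq.comp_mul_left' (inv_ne_zero (Real.sqrt_pos.2 hA).ne')
  refine (h1.const_mul A⁻¹).congr (Filter.Eventually.of_forall fun v => ?_)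
  exact (sfun_kernel hA v).symm

theorem sfun_integral_kernel {A : ℝ} (hA : 0 < A) :
    ∫ v in Set.Ioi (0 : ℝ), (A + v ^ 2)⁻¹ = Real.pi / 2 * (√A)⁻¹ := by
  have hs : 0 < √A := Real.sqrt_pos.2 hA
  have h1 : ∫ v in Set.Ioi (0 : ℝ), (A + v ^ 2)⁻¹ =
      ∫ v in Set.Ioi (0 : ℝ), A⁻¹ * (1 + ((√A)⁻¹ * v) ^ 2)⁻¹ := by
    congr 1
    funext v
    exact sfun_kernel hA v
  have h2 := integral_comp_mul_left_Ioi (fun u : ℝ => (1 + u ^ 2)⁻¹) 0 (inv_pos.2 hs)
  rw [mul_zero, integral_Ioi_inv_one_add_sq] at h2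
  rw [h1, integral_const_mul, h2]
  simp only [smul_eq_mul, inv_inv, Real.arctan_zero, sub_zero]
  have h3 : A = √A * √A := (Real.mul_self_sqrt hA.le).symm
  field_simp
  nlinarith [Real.sq_sqrt hA.le, Real.pi_pos]

theorem sfun_prod_integrable (ρ : Measure Ω) [IsProbabilityMeasure ρ] (q a : Ω → ℝ)
    (hq : Integrable q ρ) (ha : Measurable a) {w : ℝ} (hw : 0 < w)
    (haw : ∀ x, w ^ 2 ≤ a x) :
    Integrable (fun z : Ω × ℝ => q z.1 * (a z.1 + z.2 ^ 2)⁻¹)
      (ρ.prod (volume.restrict (Set.Ioi 0))) := by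
  have hk : Integrable (fun v : ℝ => (w ^ 2 + v ^ 2)⁻¹) (volume.restrict (Set.Ioi 0)) :=
    (sfun_integrable_kernel (by positivity)).restrict
  have h1 : Integrable (fun z : Ω × ℝ => q z.1 * (w ^ 2 + z.2 ^ 2)⁻¹)
      (ρ.prod (volume.restrict (Set.Ioi 0))) := hq.mul_prod hk
  refine h1.mono ?_ ?_
  · apply AEStronglyMeasurable.mul
    · exact hq.aestronglyMeasurable.comp_fst
    · apply Measurable.aestronglyMeasurable
      exact ((ha.comp measurable_fst).add (measurable_snd.pow_const 2)).inv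
  · refine Filter.Eventually.of_forall fun z => ?_
    have h2 := haw z.1
    have h3 : 0 < w ^ 2 + z.2 ^ 2 := by positivity
    rw [norm_mul, norm_mul]
    apply mul_le_mul_of_nonneg_left _ (norm_nonneg _)
    rw [norm_inv, norm_inv, Real.norm_of_nonneg h3.le, Real.norm_of_nonneg (by linarith)]
    exact inv_anti₀ h3 (by linarith)

theorem sfun_fubini (ρ : Measure Ω) [IsProbabilityMeasure ρ] (q a : Ω → ℝ)
    (hq : Integrable q ρ) (ha : Measurable a) {w : ℝ} (hw : 0 < w)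
    (haw : ∀ x, w ^ 2 ≤ a x) :
    Real.pi / 2 * ∫ x, q x / √(a x) ∂ρ =
      ∫ v in Set.Ioi (0 : ℝ), (∫ x, q x * (a x + v ^ 2)⁻¹ ∂ρ) := by
  have h := sfun_prod_integrable ρ q a hq ha hw haw
  have h1 := integral_integral_swap (f := fun x v => q x * (a x + v ^ 2)⁻¹) h
  rw [← h1, ← integral_const_mul]
  congr 1
  funext x
  have hax : 0 < a x := lt_of_lt_of_le (by positivity) (haw x)
  rw [integral_const_mul, sfun_integral_kernel hax]
  ring

theorem sfun_fubini_int (ρ : Measure Ω) [IsProbabilityMeasure ρ] (q a : Ω → ℝ)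
    (hq : Integrable q ρ) (ha : Measurable a) {w : ℝ} (hw : 0 < w)
    (haw : ∀ x, w ^ 2 ≤ a x) :
    IntegrableOn (fun v : ℝ => ∫ x, q x * (a x + v ^ 2)⁻¹ ∂ρ) (Set.Ioi 0) :=
  (sfun_prod_integrable ρ q a hq ha hw haw).integral_prod_right

theorem sfun_diff (μ ν : Measure Ω) [IsProbabilityMeasure μ] [IsProbabilityMeasure ν]
    (q a : Ω → ℝ) (hqμ : Integrable q μ) (hqν : Integrable q ν) (ha : Measurable a) {w : ℝ}
    (hw : 0 < w) (haw : ∀ x, q x ^ 2 + w ^ 2 ≤ a x)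
    (M : ℝ) (h1 : ∫ x, |q x| ∂μ ≤ M) (h2 : ∫ x, |q x| ∂ν ≤ M)
    (v₀ v₁ η : ℝ) (hv0 : 0 < v₀) (hv1 : v₀ ≤ v₁)
    (hd : ∀ v, v₀ ≤ v → v ≤ v₁ →
      |∫ x, q x * (a x + v ^ 2)⁻¹ ∂μ - ∫ x, q x * (a x + v ^ 2)⁻¹ ∂ν| ≤ η * v⁻¹) :
    Real.pi / 2 * |∫ x, q x / √(a x) ∂μ - ∫ x, q x / √(a x) ∂ν| ≤
      v₀ / w + η * Real.log (v₁ / v₀) + 2 * M / v₁ := by
  have haw' : ∀ x, w ^ 2 ≤ a x := fun x => by nlinarith [haw x, sq_nonneg (q x)]
  have hv1' : 0 < v₁ := by linarith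
  have hM0 : 0 ≤ M := le_trans (integral_nonneg fun x => abs_nonneg _) h1
  have iμ := sfun_fubini_int μ q a hqμ ha hw haw'
  have iν := sfun_fubini_int ν q a hqν ha hw haw'
  have e : Real.pi / 2 * |∫ x, q x / √(a x) ∂μ - ∫ x, q x / √(a x) ∂ν| =
      |Real.pi / 2 * ∫ x, q x / √(a x) ∂μ - Real.pi / 2 * ∫ x, q x / √(a x) ∂ν| := by
    rw [← mul_sub, abs_mul, abs_of_pos (show (0 : ℝ) < Real.pi / 2 by positivity)]
  rw [e, sfun_fubini μ q a hqμ ha hw haw', sfun_fubini ν q a hqν ha hw haw',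
    ← integral_sub iμ iν]
  set f : ℝ → ℝ := fun v => (∫ x, q x * (a x + v ^ 2)⁻¹ ∂μ) -
    (∫ x, q x * (a x + v ^ 2)⁻¹ ∂ν) with hf
  have hfi : IntegrableOn f (Set.Ioi 0) := iμ.sub iν
  have hun : Set.Ioi (0 : ℝ) = Set.Ioc 0 v₀ ∪ Set.Ioi v₀ :=
    (Set.Ioc_union_Ioi_eq_Ioi hv0.le).symm
  have hun2 : Set.Ioi v₀ = Set.Ioc v₀ v₁ ∪ Set.Ioi v₁ := (Set.Ioc_union_Ioi_eq_Ioi hv1).symm
  have hf1 : IntegrableOn f (Set.Ioc 0 v₀) := hfi.mono_set (by
    rw [hun]; exact Set.subset_union_left)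
  have hf2 : IntegrableOn f (Set.Ioi v₀) := hfi.mono_set (by
    rw [hun]; exact Set.subset_union_right)
  have hf3 : IntegrableOn f (Set.Ioc v₀ v₁) := hf2.mono_set (by
    rw [hun2]; exact Set.subset_union_left)
  have hf4 : IntegrableOn f (Set.Ioi v₁) := hf2.mono_set (by
    rw [hun2]; exact Set.subset_union_right)
  rw [hun, setIntegral_union (Set.Ioc_disjoint_Ioi le_rfl) measurableSet_Ioi hf1 hf2, hun2,
    setIntegral_union (Set.Ioc_disjoint_Ioi le_rfl) measurableSet_Ioi hf3 hf4]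
  -- the three bounds
  have b1 : |∫ v in Set.Ioc 0 v₀, f v| ≤ v₀ / w := by
    have hb : ∀ (ρ : Measure Ω) [IsProbabilityMeasure ρ], ∀ v : ℝ,
        |∫ x, q x * (a x + v ^ 2)⁻¹ ∂ρ| ≤ 1 / (2 * w) := by
      intro ρ _ v
      have h3 : ∀ x, ‖q x * (a x + v ^ 2)⁻¹‖ ≤ 1 / (2 * w) := by
        intro x
        have h4 : 0 < a x + v ^ 2 := by
          have h5 := haw' x
          have h6 : 0 < w ^ 2 := by positivity
          nlinarith [sq_nonneg v]
        rw [norm_mul, norm_inv, Real.norm_eq_abs, Real.norm_of_nonneg h4.le,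
          ← div_eq_mul_inv, div_le_div_iff₀ h4 (by positivity)]
        have h5 := haw x
        have h6 : |q x| ^ 2 = q x ^ 2 := sq_abs _
        nlinarith [sq_nonneg (|q x| - w), sq_nonneg v, abs_nonneg (q x)]
      have h7 := norm_integral_le_of_norm_le_const (μ := ρ)
        (Filter.Eventually.of_forall h3)
      rw [Real.norm_eq_abs] at h7
      simpa using h7
    have h3 : ∀ v ∈ Set.Ioc (0 : ℝ) v₀, ‖f v‖ ≤ 1 / w := by
      intro v _
      rw [Real.norm_eq_abs]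
      have h4 := hb μ v
      have h5 := hb ν v
      have h6 := abs_sub (∫ x, q x * (a x + v ^ 2)⁻¹ ∂μ) (∫ x, q x * (a x + v ^ 2)⁻¹ ∂ν)
      have h7 : 1 / w = 1 / (2 * w) + 1 / (2 * w) := by field_simp; ring
      rw [h7]
      exact h6.trans (add_le_add h4 h5)
    have h8 := norm_setIntegral_le_of_norm_le_const (μ := volume) (f := f)
      (s := Set.Ioc (0 : ℝ) v₀) (C := 1 / w) (by simp) h3
    rw [Real.norm_eq_abs, Real.volume_real_Ioc_of_le hv0.le] at h8
    calc _ ≤ 1 / w * (v₀ - 0) := h8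
      _ = v₀ / w := by ring
  have b2 : |∫ v in Set.Ioc v₀ v₁, f v| ≤ η * Real.log (v₁ / v₀) := by
    have hi : IntegrableOn (fun v : ℝ => v⁻¹) (Set.Ioc v₀ v₁) := by
      have h3 : IntervalIntegrable (fun v : ℝ => v⁻¹) volume v₀ v₁ := by
        apply intervalIntegral.intervalIntegrable_inv (fun x hx => ?_) continuousOn_id
        rw [Set.uIcc_of_le hv1] at hx
        exact (lt_of_lt_of_le hv0 hx.1).ne'
      exact (intervalIntegrable_iff_integrableOn_Ioc_of_le hv1).1 h3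
    have h3 : ∫ v in Set.Ioc v₀ v₁, v⁻¹ = Real.log (v₁ / v₀) := by
      rw [← intervalIntegral.integral_of_le hv1, integral_inv_of_pos hv0 hv1']
    rw [← h3, ← integral_const_mul, ← Real.norm_eq_abs]
    apply norm_integral_le_of_norm_le (hi.const_mul η)
    filter_upwards [ae_restrict_mem measurableSet_Ioc] with v hv
    rw [Real.norm_eq_abs]
    exact hd v hv.1.le hv.2
  have b3 : |∫ v in Set.Ioi v₁, f v| ≤ 2 * M / v₁ := by
    have hi : IntegrableOn (fun v : ℝ => v ^ (-2 : ℝ)) (Set.Ioi v₁) :=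
      integrableOn_Ioi_rpow_of_lt (by norm_num) hv1'
    have h3 : ∫ v in Set.Ioi v₁, v ^ (-2 : ℝ) = v₁⁻¹ := by
      rw [integral_Ioi_rpow_of_lt (by norm_num) hv1']
      norm_num
      rw [Real.rpow_neg_one]
    have h4 : 2 * M / v₁ = ∫ v in Set.Ioi v₁, 2 * M * v ^ (-2 : ℝ) := by
      rw [integral_const_mul, h3, div_eq_mul_inv]
    rw [h4, ← Real.norm_eq_abs]
    apply norm_integral_le_of_norm_le (hi.const_mul (2 * M))
    filter_upwards [ae_restrict_mem measurableSet_Ioi] with v hv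
    have hv' : 0 < v := lt_trans hv1' hv
    have hb : ∀ (ρ : Measure Ω) [IsProbabilityMeasure ρ], Integrable q ρ →
        ∫ x, |q x| ∂ρ ≤ M → |∫ x, q x * (a x + v ^ 2)⁻¹ ∂ρ| ≤ M * v ^ (-2 : ℝ) := by
      intro ρ _ hq hM
      have h5 : v ^ (-2 : ℝ) = (v ^ 2)⁻¹ := by
        rw [Real.rpow_neg hv'.le]
        norm_num
      rw [h5]
      calc |∫ x, q x * (a x + v ^ 2)⁻¹ ∂ρ| ≤ ∫ x, |q x| * (v ^ 2)⁻¹ ∂ρ := by
            rw [← Real.norm_eq_abs]
            apply norm_integral_le_of_norm_le (hq.abs.mul_const _)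
            refine Filter.Eventually.of_forall fun x => ?_
            have h6 := haw' x
            have h7 : 0 < v ^ 2 := by positivity
            have h8 : 0 < w ^ 2 := by positivity
            rw [norm_mul, Real.norm_eq_abs, norm_inv, Real.norm_of_nonneg (by linarith)]
            apply mul_le_mul_of_nonneg_left _ (abs_nonneg _)
            exact inv_anti₀ h7 (by linarith)
        _ ≤ M * (v ^ 2)⁻¹ := by
            rw [integral_mul_const]
            exact mul_le_mul_of_nonneg_right hM (by positivity)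
    have h5 := hb μ hqμ h1
    have h6 := hb ν hqν h2
    have h7 := abs_sub (∫ x, q x * (a x + v ^ 2)⁻¹ ∂μ) (∫ x, q x * (a x + v ^ 2)⁻¹ ∂ν)
    rw [Real.norm_eq_abs]
    calc |f v| ≤ _ := h7
      _ ≤ M * v ^ (-2 : ℝ) + M * v ^ (-2 : ℝ) := add_le_add h5 h6
      _ = 2 * M * v ^ (-2 : ℝ) := by ring
  calc _ ≤ |∫ v in Set.Ioc 0 v₀, f v| + |(∫ v in Set.Ioc v₀ v₁, f v) +
        ∫ v in Set.Ioi v₁, f v| := abs_add_le _ _
    _ ≤ |∫ v in Set.Ioc 0 v₀, f v| + (|∫ v in Set.Ioc v₀ v₁, f v| +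
        |∫ v in Set.Ioi v₁, f v|) := by gcongr; exact abs_add_le _ _
    _ ≤ _ := by linarith

end sfunaux

variable {ι : Type} [Fintype ι] [DecidableEq ι]

theorem sfun_bound (μ ν : Measure (ι → ℝ)) [IsProbabilityMeasure μ] [IsProbabilityMeasure ν]
    (p V A : MvPolynomial ι ℝ) (w : ℝ) (hw : 0 < w)
    (hV : ∀ x, 0 ≤ eval x V) (hA : A = p ^ 2 + V + C (w ^ 2))
    (hpμ : Integrable (fun x => eval x p) μ) (hpν : Integrable (fun x => eval x p) ν)
    (M : ℝ) (h1 : ∫ x, |eval x p| ∂μ ≤ M) (h2 : ∫ x, |eval x p| ∂ν ≤ M)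
    (v₀ v₁ η : ℝ) (hv0 : 0 < v₀) (hv1 : v₀ ≤ v₁) (hη : 0 ≤ η)
    (hp1 : ∀ v, v₀ ≤ v → v ≤ v₁ →
      |∫ x, eval x p / (eval x A + v ^ 2) ∂μ - ∫ x, eval x p / (eval x A + v ^ 2) ∂ν| ≤ η / v)
    (hV1 : |∫ x, eval x (V + C (w ^ 2)) / eval x A ∂μ -
        ∫ x, eval x (V + C (w ^ 2)) / eval x A ∂ν| ≤ 2 * η) :
    μ.real {x | 0 ≤ eval x p} ≤ ν.real {x | 0 ≤ eval x p} +
      ∫ x, eval x (V + C (w ^ 2)) / eval x A ∂ν +
      (v₀ / w + η * (1 + Real.log (v₁ / v₀)) + M / v₁) := by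
  have hw2 : 0 < w ^ 2 := by positivity
  -- the functions
  set P : (ι → ℝ) → ℝ := fun x => eval x p with hP
  set σ : (ι → ℝ) → ℝ := fun x => eval x (V + C (w ^ 2)) with hσ
  set a : (ι → ℝ) → ℝ := fun x => eval x A with ha
  have hσe : ∀ x, σ x = eval x V + w ^ 2 := by
    intro x
    simp only [hσ, map_add, eval_C]
  have hσw : ∀ x, w ^ 2 ≤ σ x := by
    intro x
    rw [hσe]
    linarith [hV x]
  have hσ0 : ∀ x, 0 < σ x := fun x => lt_of_lt_of_le hw2 (hσw x)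
  have hae : ∀ x, a x = P x ^ 2 + σ x := by
    intro x
    rw [hσe]
    simp only [ha, hA, hP, map_add, map_pow, eval_C]
    ring
  have haw : ∀ x, P x ^ 2 + w ^ 2 ≤ a x := by
    intro x
    rw [hae]
    linarith [hσw x]
  have ha0 : ∀ x, 0 < a x := fun x => by nlinarith [haw x, sq_nonneg (P x)]
  have mP : Measurable P := eval_measurable p
  have mσ : Measurable σ := eval_measurable _
  have ma : Measurable a := eval_measurable A
  have d1 := sfun_diff μ ν P a hpμ hpν ma hw haw M h1 h2 v₀ v₁ η hv0 hv1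
    (fun v h5 h6 => by simpa only [div_eq_mul_inv] using hp1 v h5 h6)
  -- integrability
  have i1 : ∀ (ρ : Measure (ι → ℝ)) [IsProbabilityMeasure ρ],
      Integrable (fun x => P x / √(a x)) ρ := by
    intro ρ _
    apply Integrable.of_bound (C := 1)
    · exact (mP.div ma.sqrt).aestronglyMeasurable
    · refine Filter.Eventually.of_forall fun x => ?_
      rw [norm_div, Real.norm_eq_abs, Real.norm_of_nonneg (Real.sqrt_nonneg _),
        div_le_one (Real.sqrt_pos.2 (ha0 x))]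
      apply Real.abs_le_sqrt
      rw [hae]
      linarith [hσ0 x]
  have i2 : ∀ (ρ : Measure (ι → ℝ)) [IsProbabilityMeasure ρ],
      Integrable (fun x => σ x / a x) ρ := by
    intro ρ _
    apply Integrable.of_bound (C := 1)
    · exact (mσ.div ma).aestronglyMeasurable
    · refine Filter.Eventually.of_forall fun x => ?_
      rw [norm_div, Real.norm_of_nonneg (hσ0 x).le, Real.norm_of_nonneg (ha0 x).le,
        div_le_one (ha0 x), hae]
      nlinarith [sq_nonneg (P x)]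
  set g : (ι → ℝ) → ℝ := fun x => 1 / 2 + 1 / 2 * (P x / √(a x)) + 1 / 2 * (σ x / a x) with hg
  have ig : ∀ (ρ : Measure (ι → ℝ)) [IsProbabilityMeasure ρ], Integrable g ρ := by
    intro ρ _
    exact ((integrable_const _).add ((i1 ρ).const_mul _)).add ((i2 ρ).const_mul _)
  have eg : ∀ (ρ : Measure (ι → ℝ)) [IsProbabilityMeasure ρ],
      ∫ x, g x ∂ρ = 1 / 2 + 1 / 2 * (∫ x, P x / √(a x) ∂ρ) + 1 / 2 * ∫ x, σ x / a x ∂ρ := by
    intro ρ _
    have j1 : Integrable (fun x => (1 / 2 : ℝ) + 1 / 2 * (P x / √(a x))) ρ :=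
      (integrable_const _).add ((i1 ρ).const_mul _)
    rw [hg, integral_add j1 ((i2 ρ).const_mul _),
      integral_add (integrable_const _) ((i1 ρ).const_mul _), integral_const_mul,
      integral_const_mul]
    simp
  -- the indicator function
  have hset : MeasurableSet {x : ι → ℝ | 0 ≤ eval x p} := measurableSet_le measurable_const mP
  have ind : ∀ (ρ : Measure (ι → ℝ)) [IsProbabilityMeasure ρ],
      ρ.real {x | 0 ≤ eval x p} = ∫ x, (if 0 ≤ P x then (1 : ℝ) else 0) ∂ρ := by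
    intro ρ _
    rw [← integral_indicator_one hset]
    congr 1
  have iind : ∀ (ρ : Measure (ι → ℝ)) [IsProbabilityMeasure ρ],
      Integrable (fun x => (if 0 ≤ P x then (1 : ℝ) else 0)) ρ := by
    intro ρ _
    apply Integrable.of_bound (C := 1)
    · apply Measurable.aestronglyMeasurable
      exact Measurable.ite hset measurable_const measurable_const
    · refine Filter.Eventually.of_forall fun x => ?_
      by_cases hx : 0 ≤ P x
      · rw [if_pos hx]; simp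
      · rw [if_neg hx]; simp
  have u1 : μ.real {x | 0 ≤ eval x p} ≤ ∫ x, g x ∂μ := by
    rw [ind μ]
    apply integral_mono (iind μ) (ig μ)
    intro x
    have := (gfun_pt (p := P x) (hσ0 x)).1
    rw [← hae] at this
    exact this
  have u2 : ∫ x, g x ∂ν ≤ ν.real {x | 0 ≤ eval x p} + ∫ x, σ x / a x ∂ν := by
    rw [ind ν, ← integral_add (iind ν) (i2 ν)]
    apply integral_mono (ig ν) ((iind ν).add (i2 ν))
    intro x
    have := (gfun_pt (p := P x) (hσ0 x)).2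
    rw [← hae] at this
    exact this
  rw [eg μ] at u1
  rw [eg ν] at u2
  -- constants
  have hM0 : 0 ≤ M := le_trans (integral_nonneg fun x => abs_nonneg _) h1
  have hv1' : 0 < v₁ := by linarith
  have hlog : 0 ≤ Real.log (v₁ / v₀) := Real.log_nonneg ((one_le_div hv0).2 hv1)
  set X1 := ∫ x, P x / √(a x) ∂μ
  set X2 := ∫ x, P x / √(a x) ∂ν
  set Y1 := ∫ x, σ x / a x ∂μ
  set Y2 := ∫ x, σ x / a x ∂ν
  have k1 : 0 ≤ v₀ / w := by positivity
  have k2 : 0 ≤ η * Real.log (v₁ / v₀) := by positivity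
  have k3 : 0 ≤ M / v₁ := by positivity
  have k4 : 2 * M / v₁ = 2 * (M / v₁) := by ring
  have hpi := Real.pi_gt_three
  have v1 : X1 - X2 ≤ 2 * (v₀ / w + η * Real.log (v₁ / v₀) + M / v₁) := by
    have h6 := le_abs_self (X1 - X2)
    have h7 : |X1 - X2| ≤ Real.pi / 2 * |X1 - X2| := by
      nlinarith [abs_nonneg (X1 - X2)]
    rw [k4] at d1
    linarith
  have v2 : Y1 - Y2 ≤ 2 * η := le_trans (le_abs_self _) hV1
  show μ.real {x | 0 ≤ eval x p} ≤ ν.real {x | 0 ≤ eval x p} + Y2 +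
    (v₀ / w + η * (1 + Real.log (v₁ / v₀)) + M / v₁)
  have k5 : η * (1 + Real.log (v₁ / v₀)) = η + η * Real.log (v₁ / v₀) := by ring
  rw [k5]
  linarith

end Pool.Agent.KWG
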