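import Pool.Agent.Lib.MP_68391b_lc.Sq.SWave

/-! The multiplier bound. -/

set_option linter.unusedSectionVars false

namespace Pool.Agent.KWG

open MeasureTheory ProbabilityTheory MvPolynomial Pool.Agent.KWI

variable {ι : Type} [Fintype ι] [DecidableEq ι]

/-- The weighted gradient form. -/
noncomputable def psiBl (B P Q : MvPolynomial ι ℝ) : ℝ :=
  ∑ j, ∫ x, (eval x (pderiv j P)) * (eval x (pderiv j Q)) / (eval x B) ^ 2 ∂(gam ι)

theorem psi_bl_self (B P : MvPolynomial ι ℝ) :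
    psiBl B P P = ∑ j, wn B (pderiv j P) := by
  unfold psiBl wn
  simp only [pow_two]

theorem psi_bl_nonneg (B P : MvPolynomial ι ℝ) : 0 ≤ psiBl B P P := by
  rw [psi_bl_self]
  exact Finset.sum_nonneg fun j _ => wn_nonneg _ _

theorem psi_bl_comm (B P Q : MvPolynomial ι ℝ) : psiBl B P Q = psiBl B Q P := by
  unfold psiBl
  refine Finset.sum_congr rfl fun j _ => ?_
  congr 1
  ext x
  rw [mul_comm (eval x (pderiv j P))]

theorem psi_int {B : MvPolynomial ι ℝ} {w₂ : ℝ} (hw : 0 < w₂) (hB : ∀ x, w₂ ≤ eval x B)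
    (P Q : MvPolynomial ι ℝ) :
    Integrable (fun x : ι → ℝ => eval x P * eval x Q / (eval x B) ^ 2) (gam ι) := by
  have := div_integrable hw hB (P * Q) 2
  simpa using this

theorem psi_bl_sum {B : MvPolynomial ι ℝ} {w₂ : ℝ} (hw : 0 < w₂) (hB : ∀ x, w₂ ≤ eval x B)
    (P : MvPolynomial ι ℝ) {κ : Type} (s : Finset κ) (c : κ → ℝ) (Q : κ → MvPolynomial ι ℝ) :
    psiBl B P (∑ k ∈ s, C (c k) * Q k) = ∑ k ∈ s, c k * psiBl B P (Q k) := by
  unfold psiBl
  simp only [Finset.mul_sum]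
  rw [Finset.sum_comm]
  refine Finset.sum_congr rfl fun j _ => ?_
  have h1 : ∀ x : ι → ℝ, eval x (pderiv j P) * eval x (pderiv j (∑ k ∈ s, C (c k) * Q k)) /
      (eval x B) ^ 2 = ∑ k ∈ s, c k * (eval x (pderiv j P) * eval x (pderiv j (Q k)) /
        (eval x B) ^ 2) := by
    intro x
    rw [map_sum, map_sum, Finset.mul_sum, Finset.sum_div]
    refine Finset.sum_congr rfl fun k _ => ?_
    rw [MvPolynomial.pderiv_C_mul, map_mul, eval_C]
    ring
  simp only [h1]
  rw [integral_finsetSum]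
  · refine Finset.sum_congr rfl fun k _ => ?_
    rw [integral_const_mul]
  · intro k _
    exact (psi_int hw hB _ _).const_mul _

theorem psi_cs {B : MvPolynomial ι ℝ} {w₂ : ℝ} (hw : 0 < w₂) (hB : ∀ x, w₂ ≤ eval x B)
    (P Q : MvPolynomial ι ℝ) :
    |psiBl B P Q| ≤ √(psiBl B P P) * √(psiBl B Q Q) := by
  have h2 : ∀ (S : MvPolynomial ι ℝ) (r : ℝ), psiBl B S (P + C r * Q) =
      psiBl B S P + r * psiBl B S Q := by
    intro S r
    have := psi_bl_sum hw hB S (Finset.univ : Finset (Fin 2)) ![1, r] ![P, Q]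
    simpa using this
  have h3 : ∀ r : ℝ, 0 ≤ psiBl B Q Q * (r * r) + 2 * psiBl B P Q * r + psiBl B P P := by
    intro r
    have h4 := psi_bl_nonneg B (P + C r * Q)
    rw [h2, psi_bl_comm B _ P, h2, psi_bl_comm B (P + C r * Q) Q, h2, psi_bl_comm B Q P] at h4
    linarith
  have h5 := discrim_le_zero h3
  unfold discrim at h5
  rw [← Real.sqrt_mul (psi_bl_nonneg B P)]
  apply Real.abs_le_sqrt
  nlinarith

/-- The level `k` part. -/
noncomputable def psiL (g : MvPolynomial ι ℝ) (k : ℕ) : MvPolynomial ι ℝ :=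
  ∑ α ∈ lev ι k, C (hc g α) * hp α

theorem psi_mu (N : ℕ) (φ : ℕ → ℝ) (g : MvPolynomial ι ℝ) :
    Mu N φ g = ∑ k ∈ Finset.range (N + 1), C (φ k) * psiL g k := by
  unfold Mu psiL
  refine Finset.sum_congr rfl fun k _ => ?_
  rw [Finset.mul_sum]
  refine Finset.sum_congr rfl fun α _ => ?_
  rw [C_mul, mul_assoc]

theorem psi_bl_zero (B P : MvPolynomial ι ℝ) (g : MvPolynomial ι ℝ) :
    psiBl B P (psiL g 0) = 0 := by
  have h1 : ∀ j : ι, pderiv j (psiL g 0) = 0 := by
    intro j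
    unfold psiL
    rw [map_sum]
    refine Finset.sum_eq_zero fun α hα => ?_
    rw [mem_lev] at hα
    have h2 : ∀ i, α i = 0 := by
      intro i
      exact (Finset.sum_eq_zero_iff.mp hα) i (Finset.mem_univ i)
    have h3 : hp α = (1 : MvPolynomial ι ℝ) := by
      unfold hp
      refine Finset.prod_eq_one fun i _ => ?_
      rw [h2 i]
      simp [he]
    rw [h3, mul_one, pderiv_C]
  unfold psiBl
  refine Finset.sum_eq_zero fun j _ => ?_
  simp [h1 j]

theorem psi_final {a b : ℝ} (ha : 0 ≤ a) (hb : 0 ≤ b) (h : a ≤ b * √a) : a ≤ b ^ 2 := by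
  have h1 : √a * √a = a := Real.mul_self_sqrt ha
  have h2 := Real.sqrt_nonneg a
  have h3 : √a ≤ b := by
    by_contra hc
    push Not at hc
    nlinarith
  nlinarith

theorem wave_cos {B : MvPolynomial ι ℝ} {w₂ : ℝ} (hw : 0 < w₂) (hB : ∀ x, w₂ ≤ eval x B)
    {K : ℝ} (hK : 0 ≤ K)
    (hgrad : ∀ x, ∑ j, (eval x (pderiv j B)) ^ 2 ≤ K ^ 2 * (eval x B) ^ 2)
    (N : ℕ) (g : MvPolynomial ι ℝ) (hg : g.totalDegree ≤ N) {t : ℝ} (ht : 0 ≤ t) :
    ∑ j, wn B (pderiv j (Mu N (fun k => (1 - Real.cos (t * √k)) / k) g)) ≤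
      t ^ 2 * Real.exp (2 * K * t) * wn B g := by
  set P := Mu N (fun k => (1 - Real.cos (t * √k)) / k) g with hP
  rw [← psi_bl_self]
  set G : ℝ → ℝ := fun s => ∑ k ∈ Finset.range (N + 1),
    ((1 - Real.cos (s * √k)) / k) * psiBl B P (psiL g k) with hG
  have hG0 : G 0 = 0 := by simp [hG]
  have hGt : G t = psiBl B P P := by
    conv_rhs => rw [show psiBl B P P = psiBl B P (Mu N (fun k => (1 - Real.cos (t * √k)) / k) g)
      from rfl]
    rw [psi_mu, psi_bl_sum hw hB]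
  have hder : ∀ s : ℝ, HasDerivAt G (psiBl B P (Mu N (Sv s) g)) s := by
    intro s
    rw [psi_mu, psi_bl_sum hw hB]
    refine HasDerivAt.fun_sum fun k _ => ?_
    rcases Nat.eq_zero_or_pos k with rfl | hk
    · rw [psi_bl_zero]
      simpa using hasDerivAt_const s (0 : ℝ)
    · refine HasDerivAt.mul_const ?_ _
      have hk0 : (0 : ℝ) < k := by exact_mod_cast hk
      have h1 : HasDerivAt (fun s : ℝ => s * √(k : ℝ)) (√(k : ℝ)) s := by
        simpa using (hasDerivAt_id s).mul_const (√(k : ℝ))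
      have h2 := ((h1.cos).const_sub 1).div_const (k : ℝ)
      refine h2.congr_deriv ?_
      unfold Sv
      rw [if_neg hk.ne']
      have h3 : √(k : ℝ) ≠ 0 := (Real.sqrt_pos.mpr hk0).ne'
      have h4 : (k : ℝ) = √(k : ℝ) * √(k : ℝ) := (Real.mul_self_sqrt hk0.le).symm
      rw [div_eq_div_iff hk0.ne' h3]
      nth_rewrite 5 [h4]
      ring
  have hbound : ∀ s ∈ Set.Icc 0 t, psiBl B P (Mu N (Sv s) g) ≤
      √(psiBl B P P) * (Real.exp (K * t) * √(wn B g)) := by
    intro s hs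
    refine (le_abs_self _).trans ((psi_cs hw hB _ _).trans ?_)
    refine mul_le_mul_of_nonneg_left ?_ (Real.sqrt_nonneg _)
    rw [psi_bl_self]
    have h1 := wave_energy hw hB hK hgrad N g hg hs.1
    have h2 : ∑ j, wn B (pderiv j (Mu N (Sv s) g)) ≤ (Real.exp (K * t)) ^ 2 * wn B g := by
      refine h1.trans (mul_le_mul_of_nonneg_right ?_ (wn_nonneg _ _))
      rw [← Real.exp_nat_mul]
      apply Real.exp_le_exp.mpr
      push_cast
      nlinarith [hs.2]
    refine (Real.sqrt_le_sqrt h2).trans ?_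
    rw [Real.sqrt_mul (by positivity), Real.sqrt_sq (Real.exp_pos _).le]
  have hfin : psiBl B P P ≤ (t * (Real.exp (K * t) * √(wn B g))) * √(psiBl B P P) := by
    have h1 : G t ≤ G 0 + (√(psiBl B P P) * (Real.exp (K * t) * √(wn B g))) * (t - 0) := by
      have := image_le_of_deriv_right_le_deriv_boundary (f := G)
        (f' := fun s => psiBl B P (Mu N (Sv s) g)) (a := 0) (b := t)
        (B := fun s => G 0 + (√(psiBl B P P) * (Real.exp (K * t) * √(wn B g))) * (s - 0))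
        (B' := fun _ => √(psiBl B P P) * (Real.exp (K * t) * √(wn B g)))
        (fun s _ => (hder s).continuousAt.continuousWithinAt)
        (fun s _ => (hder s).hasDerivWithinAt) (by simp)
        (by fun_prop)
        (fun s _ => by
          have h2 := (((hasDerivAt_id s).sub_const 0).const_mul
            (√(psiBl B P P) * (Real.exp (K * t) * √(wn B g)))).const_add (G 0)
          simpa using h2.hasDerivWithinAt)
        (fun s hs => hbound s ⟨hs.1, hs.2.le⟩)
      exact this (Set.right_mem_Icc.mpr ht)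
    rw [hG0, hGt] at h1
    linarith
  refine (psi_final (psi_bl_nonneg _ _) (by positivity) hfin).trans (le_of_eq ?_)
  rw [mul_pow, mul_pow, Real.sq_sqrt (wn_nonneg _ _), ← Real.exp_nat_mul]
  rw [← mul_assoc]
  congr 3
  push_cast
  ring

theorem wave_psi {B : MvPolynomial ι ℝ} {w₂ : ℝ} (hw : 0 < w₂) (hB : ∀ x, w₂ ≤ eval x B)
    {K : ℝ} (hK : 0 ≤ K)
    (hgrad : ∀ x, ∑ j, (eval x (pderiv j B)) ^ 2 ≤ K ^ 2 * (eval x B) ^ 2)
    {n : ℕ} (c t : Fin n → ℝ) (ht : ∀ i, 0 ≤ t i) (f : ℕ → ℝ)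
    (hf : ∀ k, f k = ∑ i, c i * Real.cos (t i * √k)) (hf0 : f 0 = 1)
    (N : ℕ) (g : MvPolynomial ι ℝ) (hg : g.totalDegree ≤ N) :
    ∑ j, wn B (pderiv j (Mu N (Psi f) g)) ≤
      (∑ i, |c i| * t i * Real.exp (K * t i)) ^ 2 * wn B g := by
  have hsum : ∑ i, c i = 1 := by
    have h := hf 0
    rw [hf0] at h
    simpa using h.symm
  have h1 : Psi f = fun k => ∑ i, c i * ((fun k : ℕ => (1 - Real.cos (t i * √k)) / k) k) := by
    ext k
    unfold Psi
    have h2 : 1 - f k = ∑ i, c i * (1 - Real.cos (t i * √k)) := by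
      simp only [mul_sub, mul_one, Finset.sum_sub_distrib]
      rw [hsum, hf k]
    rw [h2, Finset.sum_div]
    refine Finset.sum_congr rfl fun i _ => ?_
    rw [mul_div_assoc]
  set P : Fin n → MvPolynomial ι ℝ :=
    fun i => Mu N (fun k : ℕ => (1 - Real.cos (t i * √k)) / k) g with hP
  have h2 : Mu N (Psi f) g = ∑ i, C (c i) * P i := by
    rw [h1, mu_sum N c (fun i k => (1 - Real.cos (t i * √k)) / k) g]
  set S := Mu N (Psi f) g with hS
  rw [← psi_bl_self]
  have h3 : psiBl B S S = ∑ i, c i * psiBl B S (P i) := by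
    conv_lhs => rw [h2]
    rw [psi_bl_sum hw hB, ← h2]
  have h4 : psiBl B S S ≤ (∑ i, |c i| * t i * Real.exp (K * t i)) * √(wn B g) *
      √(psiBl B S S) := by
    conv_lhs => rw [h3]
    rw [Finset.sum_mul, Finset.sum_mul]
    refine Finset.sum_le_sum fun i _ => ?_
    refine (le_abs_self _).trans ?_
    rw [abs_mul, mul_assoc, mul_assoc, mul_assoc]
    refine mul_le_mul_of_nonneg_left ?_ (abs_nonneg _)
    refine (psi_cs hw hB _ _).trans ?_
    rw [mul_comm (√(psiBl B S S)), ← mul_assoc, ← mul_assoc]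
    refine mul_le_mul_of_nonneg_right ?_ (Real.sqrt_nonneg _)
    rw [psi_bl_self]
    have h5 := wave_cos hw hB hK hgrad N g hg (ht i)
    refine (Real.sqrt_le_sqrt h5).trans (le_of_eq ?_)
    have h6 : t i ^ 2 * Real.exp (2 * K * t i) * wn B g =
        (t i * Real.exp (K * t i)) ^ 2 * wn B g := by
      rw [mul_pow, ← Real.exp_nat_mul]
      congr 3
      push_cast
      ring
    have h7 : 0 ≤ t i * Real.exp (K * t i) := mul_nonneg (ht i) (Real.exp_pos _).le
    rw [h6, Real.sqrt_mul (by positivity), Real.sqrt_sq h7]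
  have h8 : 0 ≤ ∑ i, |c i| * t i * Real.exp (K * t i) :=
    Finset.sum_nonneg fun i _ => mul_nonneg (mul_nonneg (abs_nonneg _) (ht i)) (Real.exp_pos _).le
  refine (psi_final (psi_bl_nonneg _ _) (mul_nonneg h8 (Real.sqrt_nonneg _)) h4).trans
    (le_of_eq ?_)
  rw [mul_pow, Real.sq_sqrt (wn_nonneg _ _)]

end Pool.Agent.KWG
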