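import Pool.Agent.Lib.MP_68391b_lc.Sq.SDefs

/-! The cut-off function is small near the top level. -/

set_option linter.unusedSectionVars false

namespace Pool.Agent.KWG

open MeasureTheory ProbabilityTheory MvPolynomial Pool.Agent.KWI

variable {ι : Type} [Fintype ι] [DecidableEq ι]

theorem shell_small {J q L₀ X k : ℕ} (hL : 1 ≤ L₀) (hX : 40 * q * X ^ 2 ≤ L₀ ^ 4)
    (h1 : k ≤ L₀ ^ 2 + X) (h2 : L₀ ^ 2 ≤ k + X) :
    (1 - Real.sin (Real.pi / (2 * L₀) * √k) ^ (2 * q)) ^ J ≤ (1 / 16) ^ J := by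
  have hL0 : (0 : ℝ) < L₀ := by exact_mod_cast hL
  set y : ℝ := √(k : ℝ) / L₀ with hy
  have hy0 : 0 ≤ y := by positivity
  have hy2 : y ^ 2 = k / (L₀ : ℝ) ^ 2 := by
    rw [hy, div_pow, Real.sq_sqrt (Nat.cast_nonneg _)]
  have harg : Real.pi / (2 * L₀) * √(k : ℝ) = Real.pi / 2 + Real.pi * (y - 1) / 2 := by
    rw [hy]
    field_simp
    ring
  have hcos : Real.sin (Real.pi / (2 * L₀) * √(k : ℝ)) = Real.cos (Real.pi * (y - 1) / 2) := by
    rw [harg, add_comm, Real.sin_add_pi_div_two]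
  set δ : ℝ := X / (L₀ : ℝ) ^ 2 with hδ
  have hδ0 : 0 ≤ δ := by positivity
  have hqδ : 40 * q * δ ^ 2 ≤ 1 := by
    have e1 : (40 * q * X ^ 2 : ℝ) ≤ (L₀ : ℝ) ^ 4 := by exact_mod_cast hX
    have e2 : 40 * q * δ ^ 2 = (40 * q * X ^ 2 : ℝ) / (L₀ : ℝ) ^ 4 := by
      rw [hδ]
      field_simp
    rw [e2, div_le_one (by positivity)]
    exact e1
  have hyδ : (y - 1) ^ 2 ≤ δ ^ 2 := by
    have e1 : |y ^ 2 - 1| ≤ δ := by
      have e2 : y ^ 2 - 1 = (k - (L₀ : ℝ) ^ 2) / (L₀ : ℝ) ^ 2 := by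
        rw [hy2]
        field_simp
      rw [e2, hδ, abs_div, abs_of_pos (by positivity : (0 : ℝ) < (L₀ : ℝ) ^ 2)]
      apply div_le_div_of_nonneg_right _ (by positivity)
      have f1 : (k : ℝ) ≤ (L₀ : ℝ) ^ 2 + X := by exact_mod_cast h1
      have f2 : (L₀ : ℝ) ^ 2 ≤ k + X := by exact_mod_cast h2
      rw [abs_le]
      constructor <;> linarith
    have e3 : |y - 1| ≤ |y ^ 2 - 1| := by
      have e4 : y ^ 2 - 1 = (y - 1) * (y + 1) := by ring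
      rw [e4, abs_mul, abs_of_pos (by linarith : 0 < y + 1)]
      nlinarith [abs_nonneg (y - 1)]
    have e5 : |y - 1| ≤ δ := e3.trans e1
    rw [← sq_abs (y - 1)]
    exact pow_le_pow_left₀ (abs_nonneg _) e5 2
  have hpi : Real.pi ^ 2 ≤ 10 := by
    have e1 := Real.pi_lt_d2
    have e2 := Real.pi_pos
    nlinarith
  have hpi0 := Real.pi_pos
  have hlow : 1 - 10 * δ ^ 2 / 8 ≤ Real.cos (Real.pi * (y - 1) / 2) := by
    have e1 := Real.one_sub_sq_div_two_le_cos (x := Real.pi * (y - 1) / 2)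
    have e2 : (Real.pi * (y - 1) / 2) ^ 2 / 2 ≤ 10 * δ ^ 2 / 8 := by
      have e3 : (Real.pi * (y - 1) / 2) ^ 2 / 2 = Real.pi ^ 2 * (y - 1) ^ 2 / 8 := by ring
      rw [e3]
      have e4 : Real.pi ^ 2 * (y - 1) ^ 2 ≤ 10 * δ ^ 2 :=
        mul_le_mul hpi hyδ (sq_nonneg _) (by norm_num)
      linarith
    linarith
  have hmain : 1 - Real.sin (Real.pi / (2 * L₀) * √(k : ℝ)) ^ (2 * q) ≤ 1 / 16 := by
    rcases Nat.eq_zero_or_pos q with hq | hq
    · subst hq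
      norm_num
    · have hq1 : (1 : ℝ) ≤ q := by exact_mod_cast hq
      have hδ1 : δ ^ 2 ≤ 1 / 40 := by
        nlinarith [sq_nonneg δ]
      rw [hcos]
      have e1 : (1 - 10 * δ ^ 2 / 8) ^ (2 * q) ≤ Real.cos (Real.pi * (y - 1) / 2) ^ (2 * q) :=
        pow_le_pow_left₀ (by linarith) hlow _
      have e2 := one_add_mul_le_pow (a := -(10 * δ ^ 2 / 8)) (by linarith) (2 * q)
      push_cast at e2
      have e3 : (1 : ℝ) + -(10 * δ ^ 2 / 8) = 1 - 10 * δ ^ 2 / 8 := by ring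
      rw [e3] at e2
      nlinarith
  have hnn : 0 ≤ 1 - Real.sin (Real.pi / (2 * L₀) * √(k : ℝ)) ^ (2 * q) := by
    have e1 : Real.sin (Real.pi / (2 * L₀) * √(k : ℝ)) ^ (2 * q) ≤ 1 := by
      rw [pow_mul]
      apply pow_le_one₀ (sq_nonneg _)
      exact Real.sin_sq_le_one _
    linarith
  exact pow_le_pow_left₀ hnn hmain J

theorem shell_phi (f : ℕ → ℝ) (h0 : ∀ k, 0 ≤ f k) (h1 : ∀ k, f k ≤ 1) (a : ℕ) :
    ∀ k, 0 ≤ Phi f a k ∧ Phi f a k ≤ 1 ∧ 1 - Phi f a k ≤ ∑ i ∈ Finset.range a, f (k - i) := by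
  induction a with
  | zero =>
    intro k
    simp [Phi]
  | succ a ih =>
    intro k
    obtain ⟨i1, i2, i3⟩ := ih (k - 1)
    have e0 : Phi f (a + 1) k = (1 - f k) * Phi f a (k - 1) := rfl
    have e1 := h0 k
    have e2 := h1 k
    refine ⟨?_, ?_, ?_⟩
    · rw [e0]
      exact mul_nonneg (by linarith) i1
    · rw [e0]
      nlinarith
    · rw [e0, Finset.sum_range_succ']
      have e3 : ∀ i ∈ Finset.range a, f (k - (i + 1)) = f (k - 1 - i) := by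
        intro i _
        congr 1
        omega
      rw [Finset.sum_congr rfl e3]
      simp only [Nat.sub_zero]
      nlinarith

theorem phi_one_sub (f : ℕ → ℝ) (h0 : ∀ k, 0 ≤ f k) (h1 : ∀ k, f k ≤ 1) (a k : ℕ) :
    0 ≤ 1 - Phi f a k ∧ 1 - Phi f a k ≤ ∑ i ∈ Finset.range a, f (k - i) := by
  obtain ⟨e1, e2, e3⟩ := shell_phi f h0 h1 a k
  exact ⟨by linarith, e3⟩

end Pool.Agent.KWG
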