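import Pool.Agent.Lib.MP_68391b_lc.Gen.GDefs

/-! Transfer of quotients. -/

set_option linter.unusedSectionVars false

namespace Pool.Agent.KWG

open MeasureTheory ProbabilityTheory MvPolynomial Pool.Agent.KWI

variable {ι : Type} [Fintype ι] [DecidableEq ι]

theorem strans_mean {N : ℕ} (ν : Measure (ι → ℝ)) [IsProbabilityMeasure ν] (hν : MM N ν)
    (R : MvPolynomial ι ℝ) (hR : 2 * R.totalDegree ≤ N) :
    Integrable (fun x => |eval x R|) ν ∧ ∫ x, |eval x R| ∂ν ≤ n2 R := by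
  have h1 := hν (R ^ 2) ((MvPolynomial.totalDegree_pow _ _).trans hR)
  simp only [map_pow] at h1
  have h2 := (hν R (by omega)).1
  have h3 : Integrable (fun x => |eval x R|) ν := h2.abs
  refine ⟨h3, ?_⟩
  have h4 := cs_int ν (fun x => |eval x R|) (fun _ => 1)
    (by simpa only [sq_abs] using h1.1) (by simp) (by simpa using h3)
  simp only [sq_abs, mul_one, one_pow, integral_const, probReal_univ, smul_eq_mul,
    Real.sqrt_one] at h4
  rw [h1.2] at h4
  exact (le_abs_self _).trans h4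

theorem strans_one {N : ℕ} (ν : Measure (ι → ℝ)) [IsProbabilityMeasure ν] (hν : MM N ν)
    {B : MvPolynomial ι ℝ} {w₂ : ℝ} (hw : 0 < w₂) (hB : ∀ x, w₂ ≤ eval x B) {D : ℕ}
    (hD : B.totalDegree ≤ D) (N₀ : ℕ) (T : MvPolynomial ι ℝ) (hT : T.totalDegree ≤ N₀)
    (hN : 2 * (N₀ + D) ≤ N) (Q : MvPolynomial ι ℝ) (hQ : Q.totalDegree ≤ D) {c : ℝ}
    (hc : ∀ x, |eval x Q| ≤ c * eval x B) :
    |∫ x, eval x Q / eval x B ∂ν - ∫ x, eval x (Q * T) ∂(gam ι)| ≤ c * n2 (1 - B * T) := by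
  have hBp : ∀ x : ι → ℝ, 0 < eval x B := fun x => lt_of_lt_of_le hw (hB x)
  have hc0 : 0 ≤ c := by
    have h := (abs_nonneg _).trans (hc 0)
    by_contra hn
    have := mul_neg_of_neg_of_pos (not_le.1 hn) (hBp 0)
    linarith
  have hq : ∀ x : ι → ℝ, |eval x Q / eval x B| ≤ c := by
    intro x
    rw [abs_div, abs_of_pos (hBp x), div_le_iff₀ (hBp x)]
    exact hc x
  have hRd : 2 * (1 - B * T).totalDegree ≤ N := by
    have h1 := MvPolynomial.totalDegree_sub (1 : MvPolynomial ι ℝ) (B * T)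
    have h2 := MvPolynomial.totalDegree_mul B T
    rw [MvPolynomial.totalDegree_one] at h1
    have h3 : max 0 (B * T).totalDegree ≤ N₀ + D := max_le (Nat.zero_le _) (by omega)
    omega
  have hR := strans_mean ν hν (1 - B * T) hRd
  have hQT := hν (Q * T) ((MvPolynomial.totalDegree_mul Q T).trans (by omega))
  have hm : Measurable fun x : ι → ℝ => eval x Q / eval x B :=
    (eval_measurable Q).div (eval_measurable B)
  have i1 : Integrable (fun x : ι → ℝ => eval x Q / eval x B) ν := by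
    refine Integrable.of_bound hm.aestronglyMeasurable c
      (Filter.Eventually.of_forall fun x => ?_)
    rw [Real.norm_eq_abs]
    exact hq x
  rw [← hQT.2, ← integral_sub i1 hQT.1, ← Real.norm_eq_abs]
  refine (norm_integral_le_integral_norm _).trans ?_
  refine le_trans ?_ (mul_le_mul_of_nonneg_left hR.2 hc0)
  rw [← integral_const_mul]
  refine integral_mono (i1.sub hQT.1).norm (hR.1.const_mul c) fun x => ?_
  have e : eval x Q / eval x B - eval x (Q * T) = eval x Q / eval x B * eval x (1 - B * T) := by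
    have := (hBp x).ne'
    simp only [map_mul, map_sub, map_one]
    field_simp
  simp only [Real.norm_eq_abs]
  rw [e, abs_mul]
  exact mul_le_mul_of_nonneg_right (hq x) (abs_nonneg _)

theorem transfer_quot {N : ℕ} (μ : Measure (ι → ℝ)) [IsProbabilityMeasure μ] (hμ : MM N μ)
    {B : MvPolynomial ι ℝ} {w₂ : ℝ} (hw : 0 < w₂) (hB : ∀ x, w₂ ≤ eval x B) {D : ℕ}
    (hD : B.totalDegree ≤ D) (N₀ : ℕ) (T : MvPolynomial ι ℝ) (hT : T.totalDegree ≤ N₀)
    (hN : 2 * (N₀ + D) ≤ N) (Q : MvPolynomial ι ℝ) (hQ : Q.totalDegree ≤ D) {c : ℝ}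
    (hc : ∀ x, |eval x Q| ≤ c * eval x B) :
    |∫ x, eval x Q / eval x B ∂μ - ∫ x, eval x Q / eval x B ∂(gam ι)| ≤
      2 * c * n2 (1 - B * T) := by
  have h1 := strans_one μ hμ hw hB hD N₀ T hT hN Q hQ hc
  have h2 := strans_one (gam ι) (MM_gam N ι) hw hB hD N₀ T hT hN Q hQ hc
  rw [abs_le] at h1 h2 ⊢
  constructor <;> linarith [h1.1, h1.2, h2.1, h2.2]

end Pool.Agent.KWG
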