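import Pool.Agent.Lib.MP_68391b_lc.Gen.GAsm3
import Pool.Agent.Lib.MP_68391b_lc.Sq.SPsi
import Pool.Agent.Lib.MP_68391b_lc.Sq.SCoef
import Pool.Agent.Lib.MP_68391b_lc.Sq.SShell
import Pool.Agent.Lib.MP_68391b_lc.Sq.SApp
import Pool.Agent.Lib.MP_68391b_lc.Sq.STrans
import Pool.Agent.Lib.MP_68391b_lc.Sq.SFun

/-! Assembly, part 1: approximation of the resolvents. -/

set_option linter.unusedSectionVars false

namespace Pool.Agent.KWG

open MeasureTheory ProbabilityTheory MvPolynomial Pool.Agent.KWI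

variable {ι : Type} [Fintype ι] [DecidableEq ι]

theorem hs_one (B : MvPolynomial ι ℝ) (x : ι → ℝ) :
    eval x (HS 1 B) = ∑ j, (eval x (pderiv j B)) ^ 2 := by
  simp [HS]

/-- Approximation of the resolvent of `AP d ρ w p` by a polynomial of degree `L₀²`. -/
theorem resolvent_approx {d : ℕ} {ρ w : ℝ} (hρ : 0 < ρ) (hw : 0 < w) (p : MvPolynomial ι ℝ)
    (hp : p.totalDegree ≤ d) {J q L₀ a : ℕ} (hJ : 1 ≤ J) (hq : 1 ≤ q) (hJq : J ^ 4 ≤ 2 ^ q)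
    (hL : 1 ≤ L₀) (hK : 8 * q * (2 / ρ) * (Real.pi / (2 * L₀)) ≤ 1)
    (hX : 40 * q * (4 * d + a) ^ 2 ≤ L₀ ^ 4) (haL : a ≤ L₀ ^ 2) :
    ∃ T : MvPolynomial ι ℝ, T.totalDegree ≤ L₀ ^ 2 ∧
      n2 (1 - AP d ρ w p * T) ≤
        4 * (a.factorial : ℝ) * (16 / ρ) ^ a * (400 * q ^ 2 * (Real.pi / (2 * L₀))) ^ a +
        (4 * d + 1) * (a * (1 / 16) ^ J) * (1 / w ^ 2) *
          (1 + 2 * √((L₀ : ℝ) ^ 2 + 4 * d)) ^ (2 * d) * n2 (AP d ρ w p) := by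
  set B := AP d ρ w p with hBdef
  have hB : ∀ x, w ^ 2 ≤ eval x B := fun x => ap_ge d ρ w p x
  have hw2 : 0 < w ^ 2 := by positivity
  have hB0 : ∀ x, 0 ≤ eval x B := fun x => hw2.le.trans (hB x)
  have hjet : ∀ x k, 1 ≤ k → √(eval x (HS k B)) ≤ (2 / ρ) ^ k * eval x B :=
    fun x k hk => jet_bound hρ w p hp x k hk
  have hgrad : ∀ x, ∑ j, (eval x (pderiv j B)) ^ 2 ≤ (2 / ρ) ^ 2 * (eval x B) ^ 2 := by
    intro x
    have h1 := hjet x 1 le_rfl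
    rw [pow_one] at h1
    have h2 := pow_le_pow_left₀ (Real.sqrt_nonneg _) h1 2
    rw [Real.sq_sqrt (hs_nonneg 1 B x), hs_one, mul_pow] at h2
    exact h2
  obtain ⟨n, c, t, ht, hct, hsum⟩ := coef_exists hJ hq hJq hL
  set f : ℕ → ℝ := fun k => (1 - Real.sin (Real.pi / (2 * L₀) * √k) ^ (2 * q)) ^ J with hf
  have hfc : ∀ k, f k = ∑ i, c i * Real.cos (t i * √k) := fun k => hct _
  have hf0 : f 0 = 1 := by
    simp only [hf, Nat.cast_zero, Real.sqrt_zero, mul_zero, Real.sin_zero]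
    rw [zero_pow (by omega), sub_zero, one_pow]
  have hsin : ∀ k : ℕ, 0 ≤ 1 - Real.sin (Real.pi / (2 * L₀) * √k) ^ (2 * q) ∧
      1 - Real.sin (Real.pi / (2 * L₀) * √k) ^ (2 * q) ≤ 1 := by
    intro k
    have h1 : Real.sin (Real.pi / (2 * L₀) * √k) ^ 2 ≤ 1 := Real.sin_sq_le_one _
    have h2 : 0 ≤ Real.sin (Real.pi / (2 * L₀) * √k) ^ 2 := sq_nonneg _
    constructor
    · rw [pow_mul]
      have := pow_le_one₀ (n := q) h2 h1
      linarith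
    · rw [pow_mul]
      have := pow_nonneg h2 q
      linarith
  have h0 : ∀ k, 0 ≤ f k := fun k => pow_nonneg (hsin k).1 J
  have h1 : ∀ k, f k ≤ 1 := fun k => pow_le_one₀ (hsin k).1 (hsin k).2
  set θ₀ : ℝ := ∑ i, |c i| * t i * Real.exp (2 / ρ * t i) with hθ₀
  set θ : ℝ := 400 * q ^ 2 * (Real.pi / (2 * L₀)) with hθ
  have hθ₀θ : θ₀ ≤ θ := hsum (2 / ρ) (by positivity) hK
  have hθ₀0 : 0 ≤ θ₀ := Finset.sum_nonneg fun i _ =>
    mul_nonneg (mul_nonneg (abs_nonneg _) (ht i)) (Real.exp_pos _).le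
  have hθ0 : 0 ≤ θ := hθ₀0.trans hθ₀θ
  have hpsi : ∀ N : ℕ, ∀ g : MvPolynomial ι ℝ, g.totalDegree ≤ N →
      ∑ j, wn B (pderiv j (Mu N (Psi f) g)) ≤ θ ^ 2 * wn B g := by
    intro N g hg
    refine (wave_psi hw2 hB (by positivity) hgrad c t ht f hfc hf0 N g hg).trans ?_
    have := wn_nonneg B g
    gcongr
  have hres : ∀ g : MvPolynomial ι ℝ, g.totalDegree ≤ L₀ ^ 2 + 2 * (2 * d) →
      |∫ x, eval x (Mu (L₀ ^ 2 + 2 * (2 * d)) (Phi f a) g) / eval x B ∂(gam ι)| ≤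
        (4 * (a.factorial : ℝ) * (16 / ρ) ^ a * θ ^ a) * √(wn B g) := fun g hg =>
    res_one hw2 hB hρ hjet _ f hf0 hθ0 (hpsi _) a g hg
  have hφ0 : (0 : ℝ) ≤ a * (1 / 16) ^ J := by positivity
  have hshell : ∀ k, L₀ ^ 2 < k → k ≤ L₀ ^ 2 + 2 * (2 * d) →
      1 - Phi f a k ≤ a * (1 / 16) ^ J := by
    intro k hk1 hk2
    refine (phi_one_sub f h0 h1 a k).2.trans ?_
    calc ∑ i ∈ Finset.range a, f (k - i) ≤ ∑ _i ∈ Finset.range a, (1 / 16 : ℝ) ^ J := by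
          refine Finset.sum_le_sum fun i hi => ?_
          have hia := Finset.mem_range.1 hi
          exact shell_small (X := 4 * d + a) hL hX (by omega) (by omega)
      _ = a * (1 / 16) ^ J := by rw [Finset.sum_const, Finset.card_range, nsmul_eq_mul]
  obtain ⟨T, hT, hTn⟩ := app_exists hw2 hB (ap_degree d ρ w p hp) (L₀ ^ 2) f h0 h1
    (η := 4 * (a.factorial : ℝ) * (16 / ρ) ^ a * θ ^ a) (by positivity) a hφ0 hshell
    (fun k => (phi_one_sub f h0 h1 a k).1) hres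
  refine ⟨T, hT, hTn.trans (le_of_eq ?_)⟩
  push_cast
  ring_nf

end Pool.Agent.KWG
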