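import Pool.Agent.Lib.MP_68391b_lc.Sq.SAsm1

/-! Assembly, part 2: the error bound. -/

set_option linter.unusedSectionVars false

namespace Pool.Agent.KWG

open MeasureTheory ProbabilityTheory MvPolynomial Pool.Agent.KWI

variable {ι : Type} [Fintype ι] [DecidableEq ι]

theorem ap_shift (d : ℕ) (ρ w v : ℝ) (p : MvPolynomial ι ℝ) (x : ι → ℝ) :
    eval x (AP d ρ (√(w ^ 2 + v ^ 2)) p) = eval x (AP d ρ w p) + v ^ 2 := by
  simp only [AP, map_add, map_pow, eval_C]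
  rw [Real.sq_sqrt (by positivity)]
  ring

theorem final_err2 {d : ℕ} {ρ : ℝ} {w : ℝ} (hw : 0 < w)
    (p : MvPolynomial ι ℝ) (hp : p.totalDegree ≤ d) {N : ℕ} (μ : Measure (ι → ℝ))
    [IsProbabilityMeasure μ] (hμ : MM N μ) (N₀ : ℕ)
    (hN : 2 * (N₀ + 2 * d) ≤ N) (M v₀ v₁ η : ℝ) (hM : n2 p ≤ M) (hv0 : 0 < v₀)
    (hv1 : v₀ ≤ v₁) (hη : 0 ≤ η)
    (happ : ∀ w', w ≤ w' → w' ^ 2 ≤ w ^ 2 + v₁ ^ 2 →
      ∃ T : MvPolynomial ι ℝ, T.totalDegree ≤ N₀ ∧ n2 (1 - AP d ρ w' p * T) ≤ η) :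
    μ.real {x | 0 ≤ eval x p} ≤ (gam ι).real {x | 0 ≤ eval x p} +
      ∫ x, eval x (VP d ρ p + C (w ^ 2)) / eval x (AP d ρ w p) ∂(gam ι) +
      (v₀ / w + η * (1 + Real.log (v₁ / v₀)) + M / v₁) := by
  have hpN : 2 * p.totalDegree ≤ N := by omega
  have hpd : p.totalDegree ≤ 2 * d := by omega
  have hpt : ∀ x, (eval x p) ^ 2 ≤ eval x (AP d ρ w p) := by
    intro x
    have h1 := vp_nonneg d ρ p x
    simp only [AP, map_add, map_pow, eval_C]
    nlinarith [sq_nonneg w]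
  have hV0 : ∀ x, 0 ≤ eval x (VP d ρ p) := fun x => vp_nonneg d ρ p x
  refine sfun_bound μ (gam ι) p (VP d ρ p) (AP d ρ w p) w hw hV0 rfl
    (hμ p (by omega)).1 (poly_integrable p) M
    ((abs_int_le μ hμ p hpN).trans hM)
    ((abs_int_le (gam ι) (MM_gam N ι) p hpN).trans hM) v₀ v₁ η hv0 hv1 hη ?_ ?_
  · intro v hv hv'
    have hv_pos : 0 < v := hv0.trans_le hv
    set w' := √(w ^ 2 + v ^ 2) with hw'
    have hw'sq : w' ^ 2 = w ^ 2 + v ^ 2 := Real.sq_sqrt (by positivity)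
    have hw'w : w ≤ w' := by
      rw [hw']
      exact Real.le_sqrt_of_sq_le (by nlinarith [sq_nonneg v])
    have hw'0 : 0 < w' := hw.trans_le hw'w
    obtain ⟨T, hT, hTn⟩ := happ w' hw'w (by rw [hw'sq]; nlinarith)
    have hev : ∀ x : ι → ℝ, eval x (AP d ρ w' p) = eval x (AP d ρ w p) + v ^ 2 :=
      fun x => ap_shift d ρ w v p x
    have h1 := transfer_quot μ hμ (B := AP d ρ w' p) (w₂ := w' ^ 2) (by positivity)
      (fun x => ap_ge d ρ w' p x) (ap_degree d ρ w' p hp) N₀ T hT hN p hpd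
      (c := 1 / (2 * v)) (by
        intro x
        rw [hev x, one_div_mul_eq_div, le_div_iff₀ (by positivity)]
        have h2 := hpt x
        have h3 : |eval x p| ^ 2 = (eval x p) ^ 2 := sq_abs _
        nlinarith [sq_nonneg (|eval x p| - v)])
    simp only [hev] at h1
    refine h1.trans ?_
    have e : 2 * (1 / (2 * v)) * n2 (1 - AP d ρ w' p * T) =
        n2 (1 - AP d ρ w' p * T) / v := by field_simp
    rw [e]
    gcongr
  · obtain ⟨T, hT, hTn⟩ := happ w le_rfl (by nlinarith [sq_nonneg v₁])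
    have h1 := transfer_quot μ hμ (B := AP d ρ w p) (w₂ := w ^ 2) (by positivity)
      (fun x => ap_ge d ρ w p x) (ap_degree d ρ w p hp) N₀ T hT hN
      (VP d ρ p + C (w ^ 2)) (vpw_degree d ρ w p hp) (c := 1) (by
        intro x
        have h2 := hV0 x
        have e : eval x (VP d ρ p + C (w ^ 2)) = eval x (VP d ρ p) + w ^ 2 := by simp
        have e2 : eval x (AP d ρ w p) = (eval x p) ^ 2 + eval x (VP d ρ p) + w ^ 2 := by
          simp [AP]
        rw [e, e2, abs_of_nonneg (by positivity), one_mul]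
        nlinarith [sq_nonneg (eval x p)])
    refine h1.trans ?_
    linarith

/-- The norm of `AP` depends mildly on the parameter. -/
theorem n2_ap_le (d : ℕ) (ρ w w' : ℝ) (p : MvPolynomial ι ℝ) :
    n2 (AP d ρ w' p) ≤ n2 (AP d ρ w p) + |w' ^ 2 - w ^ 2| := by
  have e : AP d ρ w' p = AP d ρ w p + C (w' ^ 2 - w ^ 2) := by
    simp only [AP, C_sub]; ring
  rw [e]
  refine (n2_add_le _ _).trans ?_
  rw [n2_C]

end Pool.Agent.KWG
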