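import Pool.Agent.Lib.MP_68391b_lc.Sq.SMult
import Pool.Agent.Lib.MP_68391b_lc.Gen.GIbp

/-! The chain estimate. -/

set_option linter.unusedSectionVars false

namespace Pool.Agent.KWG

open MeasureTheory ProbabilityTheory MvPolynomial Pool.Agent.KWI

variable {ι : Type} [Fintype ι] [DecidableEq ι]

theorem chain_sqrt_integrable {B : MvPolynomial ι ℝ} (hB : ∀ x, 0 ≤ eval x B) {s : ℝ}
    (hs : 0 ≤ s) {P Q : MvPolynomial ι ℝ} (hP : ∀ x, 0 ≤ eval x P) (hQ : ∀ x, 0 ≤ eval x Q) :
    Integrable (fun x : ι → ℝ => √(eval x P) * Hx s B x * √(eval x Q)) (gam ι) := by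
  refine (poly_integrable (P + Q)).mono ?_ (Filter.Eventually.of_forall fun x => ?_)
  · have h1 := eval_continuous P
    have h2 := eval_continuous Q
    have h3 := Hx_continuous s B
    exact ((h1.sqrt.mul h3).mul h2.sqrt).aestronglyMeasurable
  · have h1 := hP x
    have h2 := hQ x
    have h3 := Hx_pos s B x
    have h4 := Hx_le_one hs (hB x)
    have h5 := Real.sqrt_nonneg (eval x P)
    have h6 := Real.sqrt_nonneg (eval x Q)
    have h7 := Real.mul_self_sqrt h1
    have h8 := Real.mul_self_sqrt h2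
    rw [map_add, Real.norm_of_nonneg (add_nonneg h1 h2), Real.norm_of_nonneg (by positivity)]
    have h9 : √(eval x P) * Hx s B x * √(eval x Q) ≤ √(eval x P) * 1 * √(eval x Q) := by
      gcongr
    nlinarith [mul_self_nonneg (√(eval x P) - √(eval x Q))]

theorem chain_ibp {B : MvPolynomial ι ℝ} (hB : ∀ x, 0 ≤ eval x B) {s : ℝ} (hs : 0 ≤ s)
    (q u : MvPolynomial ι ℝ) (j : ι) :
    ∫ x, eval x q * Hx s B x * eval x (X j * u - pderiv j u) ∂(gam ι) =
      ∫ x, eval x (TD s B j q) * Hx s B x * eval x u ∂(gam ι) := by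
  have h1 := ibp_exp hB hs j (q * u)
  have e1 : (fun x : ι → ℝ => eval x (TD s B j (q * u)) * Hx s B x) =
      fun x => eval x (TD s B j q) * Hx s B x * eval x u +
        eval x (q * pderiv j u) * Hx s B x := by
    funext x
    simp only [TD, map_sub, map_mul, Derivation.leibniz, smul_eq_mul, map_add, eval_C]
    ring
  have i1 : Integrable (fun x : ι → ℝ => eval x (TD s B j q) * Hx s B x * eval x u) (gam ι) := by
    refine (gam_Hx_integrable hs hB (TD s B j q * u)).congr
      (Filter.Eventually.of_forall fun x => ?_)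
    simp only [map_mul]
    ring
  have i2 := gam_Hx_integrable hs hB (q * pderiv j u)
  have i3 := gam_Hx_integrable hs hB (X j * (q * u))
  rw [e1, integral_add i1 i2] at h1
  have e2 : (fun x : ι → ℝ => eval x q * Hx s B x * eval x (X j * u - pderiv j u)) =
      fun x => eval x (X j * (q * u)) * Hx s B x - eval x (q * pderiv j u) * Hx s B x := by
    funext x
    simp only [map_sub, map_mul, eval_X]
    ring
  rw [e2, integral_sub i3 i2]
  have e3 : ∫ x, eval x (X j * (q * u)) * Hx s B x ∂(gam ι) =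
      ∫ x, x j * eval x (q * u) * Hx s B x ∂(gam ι) := by
    congr 1
    funext x
    simp only [map_mul, eval_X]
  rw [e3, ← h1]
  ring

theorem chain_psi (f : ℕ → ℝ) (hf0 : f 0 = 1) (a k : ℕ) :
    (k : ℝ) * (Phi f a (k - 1) * Psi f k) = Phi f (a + 1) k := by
  rw [show Phi f (a + 1) k = (1 - f k) * Phi f a (k - 1) from rfl, Psi]
  rcases Nat.eq_zero_or_pos k with rfl | hk
  · simp [hf0]
  · have : (k : ℝ) ≠ 0 := by positivity
    field_simp

theorem chain_bound {B : MvPolynomial ι ℝ} (hB : ∀ x, 0 ≤ eval x B) {s : ℝ} (hs : 0 ≤ s)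
    (N : ℕ) (f : ℕ → ℝ) (hf0 : f 0 = 1) (a : ℕ) (q g : MvPolynomial ι ℝ)
    (hg : g.totalDegree ≤ N) :
    |∫ x, eval x q * Hx s B x * eval x (Mu N (Phi f a) g) ∂(gam ι)| ≤
      ∫ x, √(eval x (TS s B a q)) * Hx s B x * √(eval x (GS N f a g)) ∂(gam ι) := by
  induction a generalizing q g with
  | zero =>
    have e0 : Mu N (Phi f 0) g = g := by
      have : Phi f 0 = fun _ => 1 := by
        funext k
        rfl
      rw [this]
      exact mu_one hg
    rw [e0]
    refine (abs_integral_le_integral_abs).trans (le_of_eq ?_)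
    congr 1
    funext x
    simp only [TS, GS, map_pow, Real.sqrt_sq_eq_abs]
    rw [abs_mul, abs_mul, abs_of_pos (Hx_pos s B x)]
  | succ a ih =>
    set G : MvPolynomial ι ℝ := Mu N (fun k => Phi f a (k - 1) * Psi f k) g with hG
    set g' : ι → MvPolynomial ι ℝ := fun j => pderiv j (Mu N (Psi f) g) with hg'
    have hgd : ∀ j, (g' j).totalDegree ≤ N := fun j =>
      (pderiv_deg' j _).trans (mu_degree N _ g)
    have e1 : Mu N (Phi f (a + 1)) g = ∑ j, (X j * pderiv j G - pderiv j (pderiv j G)) := by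
      rw [mu_number (mu_degree N _ g), mu_comp]
      exact mu_congr (fun k _ => (chain_psi f hf0 a k).symm) g
    have e2 : ∀ j, pderiv j G = Mu N (Phi f a) (g' j) := by
      intro j
      rw [hG, hg', mu_pderiv _ hg]
      simp only
      rw [mu_pderiv _ hg, mu_comp]
      exact mu_congr (fun k _ => by simp) _
    have i1 : ∀ j : ι, Integrable (fun x : ι → ℝ => eval x q * Hx s B x *
        eval x (X j * pderiv j G - pderiv j (pderiv j G))) (gam ι) := by
      intro j
      refine (gam_Hx_integrable hs hB (q * (X j * pderiv j G - pderiv j (pderiv j G)))).congr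
        (Filter.Eventually.of_forall fun x => ?_)
      simp only [map_mul]
      ring
    have e3 : ∫ x, eval x q * Hx s B x * eval x (Mu N (Phi f (a + 1)) g) ∂(gam ι) =
        ∑ j, ∫ x, eval x (TD s B j q) * Hx s B x * eval x (Mu N (Phi f a) (g' j)) ∂(gam ι) := by
      rw [e1]
      have : (fun x : ι → ℝ => eval x q * Hx s B x *
          eval x (∑ j, (X j * pderiv j G - pderiv j (pderiv j G)))) =
          fun x => ∑ j, eval x q * Hx s B x *
            eval x (X j * pderiv j G - pderiv j (pderiv j G)) := by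
        funext x
        rw [map_sum, Finset.mul_sum]
      rw [this, integral_finsetSum _ fun j _ => i1 j]
      refine Finset.sum_congr rfl fun j _ => ?_
      rw [chain_ibp hB hs q (pderiv j G) j, e2 j]
    rw [e3]
    refine (Finset.abs_sum_le_sum_abs _ _).trans ?_
    refine (Finset.sum_le_sum fun j _ => ih (TD s B j q) (g' j) (hgd j)).trans ?_
    have i2 : ∀ j : ι, Integrable (fun x : ι → ℝ => √(eval x (TS s B a (TD s B j q))) *
        Hx s B x * √(eval x (GS N f a (g' j)))) (gam ι) := fun j =>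
      chain_sqrt_integrable hB hs (fun x => ts_nonneg s B a _ x) fun x => gs_nonneg N f a _ x
    rw [← integral_finsetSum _ fun j _ => i2 j]
    refine integral_mono (integrable_finsetSum _ fun j _ => i2 j)
      (chain_sqrt_integrable hB hs (fun x => ts_nonneg s B (a + 1) _ x)
        fun x => gs_nonneg N f (a + 1) _ x) fun x => ?_
    have h1 := Real.sum_mul_le_sqrt_mul_sqrt Finset.univ
      (fun j => √(eval x (TS s B a (TD s B j q)))) (fun j => √(eval x (GS N f a (g' j))))
    have h2 : ∀ j, √(eval x (TS s B a (TD s B j q))) ^ 2 = eval x (TS s B a (TD s B j q)) :=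
      fun j => Real.sq_sqrt (ts_nonneg s B a _ x)
    have h3 : ∀ j, √(eval x (GS N f a (g' j))) ^ 2 = eval x (GS N f a (g' j)) :=
      fun j => Real.sq_sqrt (gs_nonneg N f a _ x)
    simp only [h2, h3] at h1
    have h4 : eval x (TS s B (a + 1) q) = ∑ j, eval x (TS s B a (TD s B j q)) := by
      simp only [TS, map_sum]
    have h5 : eval x (GS N f (a + 1) g) = ∑ j, eval x (GS N f a (g' j)) := by
      simp only [GS, map_sum, hg']
    have h6 := Hx_pos s B x
    simp only
    rw [h4, h5]
    calc ∑ j, √(eval x (TS s B a (TD s B j q))) * Hx s B x * √(eval x (GS N f a (g' j)))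
        = Hx s B x * ∑ j, √(eval x (TS s B a (TD s B j q))) * √(eval x (GS N f a (g' j))) := by
          rw [Finset.mul_sum]
          exact Finset.sum_congr rfl fun j _ => by ring
      _ ≤ Hx s B x * (√(∑ j, eval x (TS s B a (TD s B j q))) *
          √(∑ j, eval x (GS N f a (g' j)))) := mul_le_mul_of_nonneg_left h1 h6.le
      _ = _ := by ring

theorem gs_bound {B : MvPolynomial ι ℝ} {w₂ : ℝ} (hw : 0 < w₂) (hB : ∀ x, w₂ ≤ eval x B)
    (N : ℕ) (f : ℕ → ℝ) {θ : ℝ} (hθ0 : 0 ≤ θ)
    (hθ : ∀ g : MvPolynomial ι ℝ, g.totalDegree ≤ N →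
      ∑ j, wn B (pderiv j (Mu N (Psi f) g)) ≤ θ ^ 2 * wn B g)
    (a : ℕ) (g : MvPolynomial ι ℝ) (hg : g.totalDegree ≤ N) :
    ∫ x, eval x (GS N f a g) / (eval x B) ^ 2 ∂(gam ι) ≤ θ ^ (2 * a) * wn B g := by
  induction a generalizing g with
  | zero =>
    refine le_of_eq ?_
    simp only [GS, map_pow, mul_zero, pow_zero, one_mul, wn]
  | succ a ih =>
    have e1 : ∫ x, eval x (GS N f (a + 1) g) / (eval x B) ^ 2 ∂(gam ι) =
        ∑ j, ∫ x, eval x (GS N f a (pderiv j (Mu N (Psi f) g))) / (eval x B) ^ 2 ∂(gam ι) := by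
      rw [← integral_finsetSum _ fun j _ => div_integrable hw hB _ 2]
      congr 1
      funext x
      simp only [GS, map_sum, Finset.sum_div]
    rw [e1]
    calc ∑ j, ∫ x, eval x (GS N f a (pderiv j (Mu N (Psi f) g))) / (eval x B) ^ 2 ∂(gam ι)
        ≤ ∑ j, θ ^ (2 * a) * wn B (pderiv j (Mu N (Psi f) g)) :=
          Finset.sum_le_sum fun j _ => ih _ ((pderiv_deg' j _).trans (mu_degree N _ g))
      _ = θ ^ (2 * a) * ∑ j, wn B (pderiv j (Mu N (Psi f) g)) := by rw [Finset.mul_sum]
      _ ≤ θ ^ (2 * a) * (θ ^ 2 * wn B g) :=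
          mul_le_mul_of_nonneg_left (hθ g hg) (by positivity)
      _ = θ ^ (2 * (a + 1)) * wn B g := by ring

end Pool.Agent.KWG
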