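import Pool.Agent.Lib.MP_68391b_lc.Gen.GNum

/-! Numerical inequalities for the choice of the parameters. -/

namespace Pool.Agent.KWG

theorem snum_J {d Λ J q : ℕ} (hΛ : 1 ≤ Λ) (hdΛ : d ≤ 2 ^ Λ) (hJ : J = 256 * d * Λ)
    (hq : q = 40 * Λ) : J ^ 4 ≤ 2 ^ q := by
  have hΛ2 : Λ ≤ 2 ^ Λ := Nat.lt_two_pow_self.le
  have h1 : J ≤ 2 ^ (8 + Λ + Λ) := by
    rw [hJ, pow_add, pow_add]
    gcongr
    norm_num
  calc J ^ 4 ≤ (2 ^ (8 + Λ + Λ)) ^ 4 := by gcongr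
    _ = 2 ^ ((8 + Λ + Λ) * 4) := by rw [← pow_mul]
    _ ≤ 2 ^ q := Nat.pow_le_pow_right (by norm_num) (by omega)

theorem snum_L {Λ a q R L₀ : ℕ} (hΛ : 1 ≤ Λ) (ha : a = 64 * Λ) (hq : q = 40 * Λ)
    (hR : R ≤ 2 ^ (31 * Λ)) (hL : L₀ = 2 ^ 17 * a * q ^ 2 * R) : L₀ ≤ 2 ^ (69 * Λ) := by
  have hΛ2 : Λ ≤ 2 ^ Λ := Nat.lt_two_pow_self.le
  have h1 : a ≤ 2 ^ (6 + Λ) := by
    rw [ha, pow_add]; gcongr; norm_num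
  have h2 : q ≤ 2 ^ (6 + Λ) := by
    rw [hq, pow_add]; gcongr; norm_num
  calc L₀ = 2 ^ 17 * a * q ^ 2 * R := hL
    _ ≤ 2 ^ 17 * 2 ^ (6 + Λ) * (2 ^ (6 + Λ)) ^ 2 * 2 ^ (31 * Λ) := by gcongr
    _ = 2 ^ (17 + (6 + Λ) + (6 + Λ) * 2 + 31 * Λ) := by
        rw [← pow_mul, ← pow_add, ← pow_add, ← pow_add]
    _ ≤ 2 ^ (69 * Λ) := Nat.pow_le_pow_right (by norm_num) (by omega)

theorem snum_X {d a q R L₀ : ℕ} (hd : 1 ≤ d) (ha : 1 ≤ a) (hq : 1 ≤ q)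
    (hR : d ≤ R) (hL : L₀ = 2 ^ 17 * a * q ^ 2 * R) :
    40 * q * (4 * d + a) ^ 2 ≤ L₀ ^ 4 ∧ a ≤ L₀ ^ 2 ∧ 2 * d ≤ L₀ ^ 2 ∧ 1 ≤ L₀ := by
  have hR1 : 1 ≤ R := hd.trans hR
  have h1 : 4 * d + a ≤ 5 * (a * R) := by
    have h2 : d ≤ a * R := hR.trans (Nat.le_mul_of_pos_left _ ha)
    have h3 : a ≤ a * R := Nat.le_mul_of_pos_right _ hR1
    omega
  have hLpos : 1 ≤ L₀ := by
    have : 0 < 2 ^ 17 * a * q ^ 2 * R := by positivity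
    omega
  have hLa : a * R ≤ L₀ := by
    rw [hL]
    calc a * R = 1 * a * 1 * R := by ring
      _ ≤ 2 ^ 17 * a * q ^ 2 * R := by
          gcongr
          · norm_num
          · exact Nat.one_le_pow _ _ hq
  have hLL : L₀ ≤ L₀ ^ 2 := Nat.le_self_pow (by norm_num) _
  refine ⟨?_, ?_, ?_, hLpos⟩
  · calc 40 * q * (4 * d + a) ^ 2 ≤ 40 * q * (5 * (a * R)) ^ 2 := by gcongr
      _ = 1000 * q * (a * R) ^ 2 := by ring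
      _ ≤ (2 ^ 17 * q ^ 2 * (a * R)) ^ 2 := by
          have h4 : 1000 * q ≤ (2 ^ 17 * q ^ 2) ^ 2 := by
            calc 1000 * q ≤ 2 ^ 34 * q := by gcongr; norm_num
              _ ≤ 2 ^ 34 * q ^ 4 := by gcongr; exact Nat.le_self_pow (by norm_num) _
              _ = (2 ^ 17 * q ^ 2) ^ 2 := by ring
          calc 1000 * q * (a * R) ^ 2 ≤ (2 ^ 17 * q ^ 2) ^ 2 * (a * R) ^ 2 := by gcongr
            _ = (2 ^ 17 * q ^ 2 * (a * R)) ^ 2 := by ring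
      _ = L₀ ^ 2 := by rw [hL]; ring
      _ ≤ L₀ ^ 4 := Nat.pow_le_pow_right hLpos (by norm_num)
  · exact (Nat.le_mul_of_pos_right _ hR1).trans (hLa.trans hLL)
  · have h5 : 2 * d ≤ 2 ^ 17 * a * q ^ 2 * R := by
      calc 2 * d = 2 * 1 * 1 * d := by ring
        _ ≤ 2 ^ 17 * a * q ^ 2 * R := by
            gcongr
            · norm_num
            · exact Nat.one_le_pow _ _ hq
    rw [← hL] at h5
    exact h5.trans hLL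

theorem snum_total {d Λ Q a q R L₀ N : ℕ} (ha : a = 64 * Λ) (hq : q = 40 * Λ)
    (hR : R = 2 ^ (Q + 27) * (Nat.log 2 d + 2) * d) (hL : L₀ = 2 ^ 17 * a * q ^ 2 * R)
    (h2d : 2 * d ≤ L₀ ^ 2)
    (hNN : 2 ^ 124 * d ^ 2 * (Nat.log 2 d + 2) ^ 2 * Λ ^ 6 * 4 ^ Q ≤ N) :
    2 * (L₀ ^ 2 + 2 * d) ≤ N := by
  refine le_trans ?_ hNN
  have h1 : 2 * (L₀ ^ 2 + 2 * d) ≤ 4 * L₀ ^ 2 := by omega
  refine h1.trans ?_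
  have e4 : (4 : ℕ) ^ Q = (2 ^ Q) ^ 2 := by rw [← pow_mul, mul_comm, pow_mul]; norm_num
  rw [hL, ha, hq, hR, e4, pow_add]
  calc 4 * (2 ^ 17 * (64 * Λ) * (40 * Λ) ^ 2 * (2 ^ Q * 2 ^ 27 * (Nat.log 2 d + 2) * d)) ^ 2
      = 2 ^ 102 * 2560000 * (d ^ 2 * (Nat.log 2 d + 2) ^ 2 * Λ ^ 6 * (2 ^ Q) ^ 2) := by ring
    _ ≤ 2 ^ 102 * 2 ^ 22 * (d ^ 2 * (Nat.log 2 d + 2) ^ 2 * Λ ^ 6 * (2 ^ Q) ^ 2) := by
        gcongr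
        norm_num
    _ = 2 ^ 124 * d ^ 2 * (Nat.log 2 d + 2) ^ 2 * Λ ^ 6 * (2 ^ Q) ^ 2 := by ring

theorem snum_K {a q R L₀ : ℕ} (ha : 1 ≤ a) (hq : 1 ≤ q) (hR : 1 ≤ R)
    (hL : L₀ = 2 ^ 17 * a * q ^ 2 * R) :
    8 * (q : ℝ) * (2 / (1 / (R : ℝ))) * (Real.pi / (2 * L₀)) ≤ 1 := by
  have hR0 : (0 : ℝ) < R := by exact_mod_cast hR
  have ha1 : (1 : ℝ) ≤ a := by exact_mod_cast ha
  have hq1 : (1 : ℝ) ≤ q := by exact_mod_cast hq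
  have hL' : (L₀ : ℝ) = 2 ^ 17 * a * q ^ 2 * R := by rw [hL]; push_cast; ring
  have hL0 : (0 : ℝ) < L₀ := by rw [hL']; positivity
  have e : 8 * (q : ℝ) * (2 / (1 / (R : ℝ))) * (Real.pi / (2 * L₀)) =
      8 * Real.pi * (q * R) / L₀ := by field_simp
  rw [e, div_le_one hL0, hL']
  have h1 : Real.pi ≤ 4 := Real.pi_le_four
  have h2 : (q : ℝ) * R ≤ a * q ^ 2 * R := by
    have : (q : ℝ) ≤ a * q ^ 2 := by nlinarith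
    gcongr
  have h3 : 0 ≤ (q : ℝ) * R := by positivity
  calc 8 * Real.pi * (q * R) ≤ 8 * 4 * (q * R) := by gcongr
    _ ≤ 8 * 4 * (a * q ^ 2 * R) := by gcongr
    _ ≤ 2 ^ 17 * a * q ^ 2 * R := by nlinarith [mul_nonneg (mul_nonneg (by linarith : (0:ℝ) ≤ a) (sq_nonneg (q:ℝ))) hR0.le]

/-- The first error term. -/
theorem snum_first {a q R L₀ : ℕ} (ha : 1 ≤ a) (hq : 1 ≤ q) (hR : 1 ≤ R)
    (hL : L₀ = 2 ^ 17 * a * q ^ 2 * R) :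
    4 * (a.factorial : ℝ) * (16 / (1 / (R : ℝ))) ^ a *
      (400 * (q : ℝ) ^ 2 * (Real.pi / (2 * L₀))) ^ a ≤ 4 * (1 / 8) ^ a := by
  have hR0 : (0 : ℝ) < R := by exact_mod_cast hR
  have ha0 : (0 : ℝ) < a := by exact_mod_cast ha
  have hq0 : (0 : ℝ) < q := by exact_mod_cast hq
  have hL' : (L₀ : ℝ) = 2 ^ 17 * a * q ^ 2 * R := by rw [hL]; push_cast; ring
  have hL0 : (0 : ℝ) < L₀ := by rw [hL']; positivity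
  have h1 : (a.factorial : ℝ) ≤ (a : ℝ) ^ a := by exact_mod_cast Nat.factorial_le_pow a
  have hx : 16 / (1 / (R : ℝ)) * (400 * (q : ℝ) ^ 2 * (Real.pi / (2 * L₀))) * a ≤ 1 / 8 := by
    have e : 16 / (1 / (R : ℝ)) * (400 * (q : ℝ) ^ 2 * (Real.pi / (2 * L₀))) * a =
        3200 * Real.pi / 2 ^ 17 := by
      rw [hL']; field_simp; norm_num
    rw [e]
    have := Real.pi_le_four
    rw [div_le_iff₀ (by norm_num)]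
    norm_num
    linarith
  have hx0 : 0 ≤ 16 / (1 / (R : ℝ)) * (400 * (q : ℝ) ^ 2 * (Real.pi / (2 * L₀))) * a := by
    positivity
  calc 4 * (a.factorial : ℝ) * (16 / (1 / (R : ℝ))) ^ a *
        (400 * (q : ℝ) ^ 2 * (Real.pi / (2 * L₀))) ^ a
      ≤ 4 * (a : ℝ) ^ a * (16 / (1 / (R : ℝ))) ^ a *
        (400 * (q : ℝ) ^ 2 * (Real.pi / (2 * L₀))) ^ a := by gcongr
    _ = 4 * (16 / (1 / (R : ℝ)) * (400 * (q : ℝ) ^ 2 * (Real.pi / (2 * L₀))) * a) ^ a := by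
        generalize 400 * (q : ℝ) ^ 2 * (Real.pi / (2 * L₀)) = Y
        generalize 16 / (1 / (R : ℝ)) = Z
        rw [mul_pow, mul_pow]; ring
    _ ≤ 4 * (1 / 8) ^ a := by gcongr

/-- The width. -/
theorem snum_w {d Λ Q R : ℕ} (hd : 1 ≤ d) (hQ : 1 ≤ Q) (hQΛ : Q ≤ Λ)
    (hR : R ≤ 2 ^ (31 * Λ)) (hR1 : 1 ≤ R) {w : ℝ}
    (hw : w = (1 / (R : ℝ)) ^ (2 * d) * ((1 / 2) ^ (Q + 7)) ^ d / 8) :
    w⁻¹ ≤ 2 ^ (73 * (d * Λ)) := by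
  have hΛ : 1 ≤ Λ := hQ.trans hQΛ
  have hT : 1 ≤ d * Λ := Nat.one_le_iff_ne_zero.2 (by positivity)
  have hdT : d ≤ d * Λ := Nat.le_mul_of_pos_right _ hΛ
  have hQd : Q * d ≤ d * Λ := by rw [mul_comm]; exact Nat.mul_le_mul_left _ hQΛ
  have hR0 : (0 : ℝ) < R := by exact_mod_cast hR1
  have e : w⁻¹ = 8 * (R : ℝ) ^ (2 * d) * 2 ^ ((Q + 7) * d) := by
    rw [hw]
    rw [one_div_pow, one_div_pow, one_div_pow, ← pow_mul]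
    field_simp
  rw [e]
  have hRr : (R : ℝ) ≤ 2 ^ (31 * Λ) := by exact_mod_cast hR
  calc 8 * (R : ℝ) ^ (2 * d) * 2 ^ ((Q + 7) * d)
      ≤ 2 ^ 3 * ((2 : ℝ) ^ (31 * Λ)) ^ (2 * d) * 2 ^ ((Q + 7) * d) := by
        gcongr; norm_num
    _ = 2 ^ (3 + 31 * Λ * (2 * d) + (Q + 7) * d) := by
        rw [← pow_mul, ← pow_add, ← pow_add]
    _ ≤ 2 ^ (73 * (d * Λ)) := pow_le_pow_right₀ (by norm_num) (by nlinarith)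

theorem snum_log {d Λ Q R : ℕ} (hd : 1 ≤ d) (hQ : 1 ≤ Q) (hQΛ : Q ≤ Λ)
    (hR : R ≤ 2 ^ (31 * Λ)) (hR1 : 1 ≤ R) {w : ℝ} (hw0 : 0 < w)
    (hw : w = (1 / (R : ℝ)) ^ (2 * d) * ((1 / 2) ^ (Q + 7)) ^ d / 8) :
    1 + Real.log (2 ^ (2 * Q + 7) / (w * (1 / 2) ^ (Q + 6))) ≤ 90 * ((d * Λ : ℕ) : ℝ) := by
  have hΛ : 1 ≤ Λ := hQ.trans hQΛ
  have hT : 1 ≤ d * Λ := Nat.one_le_iff_ne_zero.2 (by positivity)
  have hΛT : Λ ≤ d * Λ := Nat.le_mul_of_pos_left _ hd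
  have hQT : Q ≤ d * Λ := hQΛ.trans hΛT
  have h1 := snum_w hd hQ hQΛ hR hR1 hw
  set T : ℕ := d * Λ with hTdef
  have e : 2 ^ (2 * Q + 7) / (w * (1 / 2) ^ (Q + 6)) = w⁻¹ * 2 ^ (3 * Q + 13) := by
    rw [one_div_pow, show 3 * Q + 13 = (2 * Q + 7) + (Q + 6) by ring, pow_add _ (2 * Q + 7)]
    field_simp
  have h2 : 2 ^ (2 * Q + 7) / (w * (1 / 2) ^ (Q + 6)) ≤ (2 : ℝ) ^ (89 * T) := by
    rw [e]
    calc w⁻¹ * 2 ^ (3 * Q + 13) ≤ 2 ^ (73 * T) * 2 ^ (3 * Q + 13) := by gcongr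
      _ = 2 ^ (73 * T + (3 * Q + 13)) := by rw [← pow_add]
      _ ≤ 2 ^ (89 * T) := pow_le_pow_right₀ (by norm_num) (by omega)
  have h3 : Real.log (2 ^ (2 * Q + 7) / (w * (1 / 2) ^ (Q + 6))) ≤ (89 * T : ℕ) * Real.log 2 := by
    rw [← Real.log_pow]
    exact Real.log_le_log (by positivity) h2
  have h4 := Real.log_two_lt_d9
  have h5 : (1 : ℝ) ≤ T := by exact_mod_cast hT
  push_cast at h3 ⊢
  nlinarith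

/-- The second error term. -/
theorem snum_second {d Λ Q a J R L₀ : ℕ} (hd : 1 ≤ d) (hQ : 1 ≤ Q) (hQΛ : Q ≤ Λ)
    (hdΛ : d ≤ 2 ^ Λ) (ha : a = 64 * Λ) (hJ : J = 256 * d * Λ) (hR : R ≤ 2 ^ (31 * Λ))
    (hR1 : 1 ≤ R) (hL : L₀ ≤ 2 ^ (69 * Λ)) (hL1 : 1 ≤ L₀) (h2d : 2 * d ≤ L₀ ^ 2) {w κ : ℝ}
    (hw0 : 0 < w) (hw : w = (1 / (R : ℝ)) ^ (2 * d) * ((1 / 2) ^ (Q + 7)) ^ d / 8)
    (hκ : κ = (1 + 2 * √(2 * (d : ℝ))) ^ d) :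
    (4 * d + 1) * (a * (1 / 16) ^ J) * (1 / w ^ 2) *
      (1 + 2 * √((L₀ : ℝ) ^ 2 + 4 * d)) ^ (2 * d) *
      ((4 ^ (Q + 1) + 2) * κ + (2 ^ (2 * Q + 7)) ^ 2) ≤ (1 / 2) ^ (700 * (d * Λ)) := by
  have hΛ : 1 ≤ Λ := hQ.trans hQΛ
  have hT : 1 ≤ d * Λ := Nat.one_le_iff_ne_zero.2 (by positivity)
  have hΛT : Λ ≤ d * Λ := Nat.le_mul_of_pos_left _ hd
  have hQT : Q ≤ d * Λ := hQΛ.trans hΛT
  have h1 := snum_w hd hQ hQΛ hR hR1 hw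
  have hJ4 : 4 * J = 1024 * (d * Λ) := by rw [hJ]; ring
  have hp2 : ∀ {a b : ℕ}, a ≤ b → (2 : ℝ) ^ a ≤ 2 ^ b := fun h =>
    pow_le_pow_right₀ (by norm_num) h
  have hTm : ∀ c : ℕ, c * Λ * (2 * d) = 2 * c * (d * Λ) := fun c => by ring
  set T : ℕ := d * Λ with hTdef
  have hd1 : (1 : ℝ) ≤ d := by exact_mod_cast hd
  have hdr : (d : ℝ) ≤ 2 ^ Λ := by exact_mod_cast hdΛ
  have hΛr : (Λ : ℝ) ≤ 2 ^ Λ := by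
    have : Λ ≤ 2 ^ Λ := Nat.lt_two_pow_self.le
    exact_mod_cast this
  have f1 : 4 * (d : ℝ) + 1 ≤ 2 ^ (3 + Λ) := by
    rw [pow_add]; norm_num; linarith
  have f2 : (a : ℝ) ≤ 2 ^ (6 + Λ) := by
    rw [ha, pow_add]; push_cast; norm_num; linarith
  have f3 : ((1 : ℝ) / 16) ^ J = 1 / 2 ^ (1024 * T) := by
    rw [← hJ4, one_div_pow, show (16 : ℝ) = 2 ^ 4 by norm_num, ← pow_mul]
  have f4 : 1 / w ^ 2 ≤ 2 ^ (146 * T) := by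
    rw [one_div, ← inv_pow]
    calc (w⁻¹) ^ 2 ≤ ((2 : ℝ) ^ (73 * T)) ^ 2 := by gcongr
      _ = 2 ^ (146 * T) := by rw [← pow_mul]; congr 1; ring
  have f5 : (1 + 2 * √((L₀ : ℝ) ^ 2 + 4 * d)) ^ (2 * d) ≤ 2 ^ (144 * T) := by
    have hLr : (L₀ : ℝ) ≤ 2 ^ (69 * Λ) := by exact_mod_cast hL
    have hL1r : (1 : ℝ) ≤ L₀ := by exact_mod_cast hL1
    have h2dr : 2 * (d : ℝ) ≤ (L₀ : ℝ) ^ 2 := by exact_mod_cast h2d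
    have h5 : √((L₀ : ℝ) ^ 2 + 4 * d) ≤ 2 * L₀ := by
      rw [Real.sqrt_le_iff]
      refine ⟨by positivity, ?_⟩
      nlinarith
    have h6 : 1 + 2 * √((L₀ : ℝ) ^ 2 + 4 * d) ≤ 2 ^ (72 * Λ) := by
      calc 1 + 2 * √((L₀ : ℝ) ^ 2 + 4 * d) ≤ 2 ^ 3 * L₀ := by linarith
        _ ≤ 2 ^ 3 * 2 ^ (69 * Λ) := by gcongr
        _ = 2 ^ (3 + 69 * Λ) := by rw [← pow_add]
        _ ≤ 2 ^ (72 * Λ) := hp2 (by omega)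
    calc (1 + 2 * √((L₀ : ℝ) ^ 2 + 4 * d)) ^ (2 * d) ≤ ((2 : ℝ) ^ (72 * Λ)) ^ (2 * d) := by
          gcongr
      _ = 2 ^ (144 * T) := by rw [← pow_mul, hTm]
  have f6 : κ ≤ 2 ^ (3 * T) := by
    rw [hκ]
    have h9 : √(2 * (d : ℝ)) ≤ 2 ^ Λ := by
      rw [Real.sqrt_le_iff]
      refine ⟨by positivity, ?_⟩
      calc 2 * (d : ℝ) ≤ 2 ^ 1 * 2 ^ Λ := by linarith
        _ = 2 ^ (1 + Λ) := by rw [← pow_add]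
        _ ≤ 2 ^ (Λ * 2) := hp2 (by omega)
        _ = (2 ^ Λ) ^ 2 := by rw [pow_mul]
    have h11 : 1 + 2 * √(2 * (d : ℝ)) ≤ 2 ^ (3 * Λ) := by
      have h7 : (1 : ℝ) ≤ 2 ^ Λ := one_le_pow₀ (by norm_num)
      calc 1 + 2 * √(2 * (d : ℝ)) ≤ 2 ^ 2 * 2 ^ Λ := by linarith
        _ = 2 ^ (2 + Λ) := by rw [← pow_add]
        _ ≤ 2 ^ (3 * Λ) := hp2 (by omega)
    calc (1 + 2 * √(2 * (d : ℝ))) ^ d ≤ ((2 : ℝ) ^ (3 * Λ)) ^ d := by gcongr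
      _ = 2 ^ (3 * T) := by rw [← pow_mul]; congr 1; rw [hTdef]; ring
  have hκ0 : 0 ≤ κ := by rw [hκ]; positivity
  have f7 : (4 ^ (Q + 1) + 2) * κ + ((2 : ℝ) ^ (2 * Q + 7)) ^ 2 ≤ 2 ^ (5 * T + 15) := by
    have h13 : (4 : ℝ) ^ (Q + 1) + 2 ≤ 2 ^ (2 * Q + 3) := by
      have e : (4 : ℝ) ^ (Q + 1) = 2 ^ (2 * Q + 2) := by
        rw [show (4 : ℝ) = 2 ^ 2 by norm_num, ← pow_mul]; congr 1
      have h14 : (2 : ℝ) ≤ 2 ^ (2 * Q + 2) := by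
        calc (2 : ℝ) = 2 ^ 1 := by norm_num
          _ ≤ 2 ^ (2 * Q + 2) := hp2 (by omega)
      rw [e]
      calc (2 : ℝ) ^ (2 * Q + 2) + 2 ≤ 2 ^ (2 * Q + 2) + 2 ^ (2 * Q + 2) := by linarith
        _ = 2 ^ (2 * Q + 3) := by rw [pow_succ]; ring
    calc (4 ^ (Q + 1) + 2) * κ + ((2 : ℝ) ^ (2 * Q + 7)) ^ 2
        ≤ 2 ^ (2 * Q + 3) * 2 ^ (3 * T) + ((2 : ℝ) ^ (2 * Q + 7)) ^ 2 := by gcongr
      _ = 2 ^ (2 * Q + 3 + 3 * T) + 2 ^ ((2 * Q + 7) * 2) := by rw [← pow_add, ← pow_mul]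
      _ ≤ 2 ^ (5 * T + 14) + 2 ^ (5 * T + 14) :=
          add_le_add (hp2 (by omega)) (hp2 (by omega))
      _ = 2 ^ (5 * T + 15) := by rw [pow_succ 2 (5 * T + 14)]; ring
  rw [f3]
  calc (4 * (d : ℝ) + 1) * (a * (1 / 2 ^ (1024 * T))) * (1 / w ^ 2) *
        (1 + 2 * √((L₀ : ℝ) ^ 2 + 4 * d)) ^ (2 * d) *
        ((4 ^ (Q + 1) + 2) * κ + (2 ^ (2 * Q + 7)) ^ 2)
      ≤ 2 ^ (3 + Λ) * (2 ^ (6 + Λ) * (1 / 2 ^ (1024 * T))) * 2 ^ (146 * T) * 2 ^ (144 * T) *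
        2 ^ (5 * T + 15) := by gcongr
    _ = 2 ^ (3 + Λ + (6 + Λ) + 146 * T + 144 * T + (5 * T + 15)) / 2 ^ (1024 * T) := by
        rw [pow_add, pow_add, pow_add, pow_add]; ring
    _ ≤ (1 / 2) ^ (700 * T) := by
        rw [div_le_iff₀ (by positivity), one_div_pow, one_div, inv_mul_eq_div,
          le_div_iff₀ (by positivity), ← pow_add]
        exact hp2 (by omega)

/-- The total error of the approximation. -/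
theorem snum_eta {d Λ Q a : ℕ} (hd : 1 ≤ d) (hQ : 1 ≤ Q) (hQΛ : Q ≤ Λ)
    (hdΛ : d ≤ 2 ^ Λ) (ha : a = 64 * Λ) {η l : ℝ} (hη0 : 0 ≤ η)
    (hη : η ≤ 4 * (1 / 8) ^ a + (1 / 2) ^ (700 * (d * Λ)))
    (hl : l ≤ 90 * ((d * Λ : ℕ) : ℝ)) : η * l ≤ (1 / 2) ^ (Q + 5) := by
  have hΛ : 1 ≤ Λ := hQ.trans hQΛ
  have hT : 1 ≤ d * Λ := Nat.one_le_iff_ne_zero.2 (by positivity)
  have hΛT : Λ ≤ d * Λ := Nat.le_mul_of_pos_left _ hd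
  have hdr : (d : ℝ) ≤ 2 ^ Λ := by exact_mod_cast hdΛ
  have hΛr : (Λ : ℝ) ≤ 2 ^ Λ := by
    have : Λ ≤ 2 ^ Λ := Nat.lt_two_pow_self.le
    exact_mod_cast this
  have hp2 : ∀ {a b : ℕ}, a ≤ b → ((1 : ℝ) / 2) ^ b ≤ (1 / 2) ^ a := fun h =>
    pow_le_pow_of_le_one (by norm_num) (by norm_num) h
  have g1 : (4 : ℝ) * (1 / 8) ^ a ≤ (1 / 2) ^ (190 * Λ) := by
    have e : ((1 : ℝ) / 8) ^ a = (1 / 2) ^ (192 * Λ) := by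
      rw [ha, show (1 : ℝ) / 8 = (1 / 2) ^ 3 by norm_num, ← pow_mul]
      congr 1; ring
    rw [e]
    calc (4 : ℝ) * (1 / 2) ^ (192 * Λ) ≤ 4 * (1 / 2) ^ (2 + 190 * Λ) := by
          have := hp2 (show 2 + 190 * Λ ≤ 192 * Λ by omega)
          gcongr
      _ = (1 / 2) ^ (190 * Λ) := by rw [pow_add]; ring
  have g2 : ((1 : ℝ) / 2) ^ (700 * (d * Λ)) ≤ (1 / 2) ^ (190 * Λ) := hp2 (by nlinarith)
  have g3 : η ≤ 2 * (1 / 2) ^ (190 * Λ) := by linarith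
  have g4 : l ≤ 2 ^ (7 + 2 * Λ) := by
    refine hl.trans ?_
    push_cast
    calc 90 * ((d : ℝ) * Λ) ≤ 2 ^ 7 * (2 ^ Λ * 2 ^ Λ) := by gcongr; norm_num
      _ = 2 ^ (7 + 2 * Λ) := by rw [← pow_add, ← pow_add]; congr 1; ring
  calc η * l ≤ η * 2 ^ (7 + 2 * Λ) := by gcongr
    _ ≤ 2 * (1 / 2) ^ (190 * Λ) * 2 ^ (7 + 2 * Λ) := by gcongr
    _ = 2 ^ (8 + 2 * Λ) / 2 ^ (190 * Λ) := by
        rw [one_div_pow, show 8 + 2 * Λ = 1 + (7 + 2 * Λ) by ring, pow_add 2 1, pow_one]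
        ring
    _ ≤ (1 / 2) ^ (Q + 5) := by
        rw [div_le_iff₀ (by positivity), one_div_pow, one_div, inv_mul_eq_div,
          le_div_iff₀ (by positivity), ← pow_add]
        exact pow_le_pow_right₀ (by norm_num) (by omega)

end Pool.Agent.KWG
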