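import Pool.Agent.Lib.MP_68391b_lc.Gen.GFinal
import Pool.Agent.Lib.MP_68391b_lc.Sq.SAsm2
import Pool.Agent.Lib.MP_68391b_lc.Sq.SNum

/-! The one sided bound for normalised polynomials, quadratic dependence on the degree. -/

set_option linter.unusedSectionVars false

namespace Pool.Agent.KWG

open MeasureTheory ProbabilityTheory MvPolynomial Pool.Agent.KWI

variable {ι : Type} [Fintype ι] [DecidableEq ι]

theorem core_norm2 {d Q Λ : ℕ} (hd : 1 ≤ d) (hQ : 1 ≤ Q) (hQΛ : Q ≤ Λ) (hdΛ : d ≤ 2 ^ Λ)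
    (p : MvPolynomial ι ℝ) (hp : p.totalDegree ≤ d)
    (hvar : ∫ x, (eval x p - ∫ y, eval y p ∂(gam ι)) ^ 2 ∂(gam ι) = 1)
    (hmean : |∫ y, eval y p ∂(gam ι)| ≤ 2 ^ Q) {N : ℕ}
    (hN : 2 ^ 124 * d ^ 2 * (Nat.log 2 d + 2) ^ 2 * Λ ^ 6 * 4 ^ Q ≤ N)
    (μ : Measure (ι → ℝ)) [IsProbabilityMeasure μ] (hμ : MM N μ) :
    μ.real {x | 0 ≤ eval x p} ≤ (gam ι).real {x | 0 ≤ eval x p} + (1 / 2) ^ Q := by
  obtain ⟨R, hR⟩ : ∃ R : ℕ, R = 2 ^ (Q + 27) * (Nat.log 2 d + 2) * d := ⟨_, rfl⟩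
  obtain ⟨a, ha⟩ : ∃ a : ℕ, a = 64 * Λ := ⟨_, rfl⟩
  obtain ⟨J, hJ⟩ : ∃ J : ℕ, J = 256 * d * Λ := ⟨_, rfl⟩
  obtain ⟨q, hq⟩ : ∃ q : ℕ, q = 40 * Λ := ⟨_, rfl⟩
  obtain ⟨L₀, hL⟩ : ∃ L₀ : ℕ, L₀ = 2 ^ 17 * a * q ^ 2 * R := ⟨_, rfl⟩
  have hΛ : 1 ≤ Λ := hQ.trans hQΛ
  have hR1 : 1 ≤ R := by
    have h0 : 0 < 2 ^ (Q + 27) * (Nat.log 2 d + 2) * d := by positivity
    rw [← hR] at h0
    exact h0
  have hdR : d ≤ R := by
    rw [hR]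
    refine Nat.le_mul_of_pos_left _ (by positivity)
  have hRle : R ≤ 2 ^ (31 * Λ) := by rw [hR]; exact num_R hQ hQΛ hdΛ
  have ha1 : 1 ≤ a := by omega
  have hq1 : 1 ≤ q := by omega
  have hJ1 : 1 ≤ J := by
    have : 0 < 256 * d * Λ := by positivity
    omega
  have hJq : J ^ 4 ≤ 2 ^ q := snum_J hΛ hdΛ hJ hq
  obtain ⟨hX, haL, h2dL, hL1⟩ := snum_X hd ha1 hq1 hdR hL
  have hLle : L₀ ≤ 2 ^ (69 * Λ) := snum_L hΛ ha hq hRle hL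
  have hR0 : (0 : ℝ) < R := by exact_mod_cast hR1
  have hd0 : (0 : ℝ) < d := by exact_mod_cast hd
  have hd1 : (1 : ℝ) ≤ d := by exact_mod_cast hd
  set ρ : ℝ := 1 / (R : ℝ) with hρdef
  have hρ : 0 < ρ := by positivity
  have hρ1 : ρ ≤ 1 := by
    rw [hρdef, div_le_one hR0]; exact_mod_cast hR1
  set β : ℝ := (1 / 2) ^ (Q + 7) with hβdef
  have hβ : 0 < β := by positivity
  have hβ1 : β ≤ 1 / 2 := by
    rw [hβdef]
    calc ((1 : ℝ) / 2) ^ (Q + 7) ≤ (1 / 2) ^ 1 :=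
          pow_le_pow_of_le_one (by norm_num) (by norm_num) (by omega)
      _ = 1 / 2 := by norm_num
  obtain ⟨w, hw⟩ : ∃ w : ℝ, w = ρ ^ (2 * d) * β ^ d / 8 := ⟨_, rfl⟩
  have hw0 : 0 < w := by rw [hw]; positivity
  -- size of rho
  have hRbig : (2 : ℝ) ^ (Q + 27) * d ≤ R := by
    have h1 : 2 ^ (Q + 27) * d ≤ R := by
      rw [hR]
      calc 2 ^ (Q + 27) * d = 2 ^ (Q + 27) * 1 * d := by ring
        _ ≤ _ := by gcongr; omega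
    exact_mod_cast h1
  have hρd : ρ * d ≤ (1 / 2) ^ (Q + 27) := by
    rw [hρdef, one_div_pow, one_div_mul_eq_div, div_le_div_iff₀ hR0 (by positivity)]
    linarith
  have hρs : ρ ≤ (1 / 2) ^ (Q + 27) := by
    refine le_trans ?_ hρd
    nlinarith
  have hwle : w ≤ (1 / 2) ^ (2 * Q + 37) := by
    have h1 : ρ ^ (2 * d) ≤ ρ := pow_le_of_le_one hρ.le hρ1 (by omega)
    have h2 : β ^ d ≤ β := pow_le_of_le_one hβ.le (by linarith) (by omega)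
    calc w = ρ ^ (2 * d) * β ^ d / 8 := hw
      _ ≤ (1 / 2) ^ (Q + 27) * (1 / 2) ^ (Q + 7) / 8 := by
          have := h1.trans hρs
          gcongr
      _ = (1 / 2) ^ (2 * Q + 37) := by
          rw [← pow_add]
          have : 2 * Q + 37 = Q + 27 + (Q + 7) + 3 := by ring
          rw [this, pow_add _ _ 3]
          norm_num
          ring
  have hw1 : w ≤ 1 := hwle.trans (pow_le_one₀ (by norm_num) (by norm_num))
  -- norms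
  set K : ℝ := 4 ^ (Q + 1) with hKdef
  have hK1 : 1 ≤ K := one_le_pow₀ (by norm_num)
  have hn : n2 p ^ 2 ≤ K := by
    rw [mean_var p, hvar, hKdef]
    have h1 : (∫ y, eval y p ∂(gam ι)) ^ 2 ≤ (2 ^ Q) ^ 2 := by
      rw [← sq_abs]
      exact pow_le_pow_left₀ (abs_nonneg _) hmean 2
    have h2 : ((2 : ℝ) ^ Q) ^ 2 = 4 ^ Q := by rw [← pow_mul, mul_comm, pow_mul]; norm_num
    have h3 : (1 : ℝ) ≤ 4 ^ Q := one_le_pow₀ (by norm_num)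
    rw [h2] at h1
    have h4 : (4 : ℝ) ^ (Q + 1) = 4 ^ Q * 4 := pow_succ _ _
    linarith
  have hn' : n2 p ≤ 2 ^ (Q + 1) := by
    have h1 : ((2 : ℝ) ^ (Q + 1)) ^ 2 = K := by
      rw [hKdef, ← pow_mul, mul_comm, pow_mul]; norm_num
    exact le_of_sq_le_sq (by rw [h1]; exact hn) (by positivity)
  have hρK : K * (ρ ^ 2 * (d : ℝ) ^ 2) ≤ 1 := by
    have e : ρ ^ 2 * (d : ℝ) ^ 2 = (ρ * d) ^ 2 := by ring
    rw [e]
    have h1 : (ρ * d) ^ 2 ≤ ((1 / 2) ^ (Q + 27)) ^ 2 := by gcongr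
    have h2 : (((1 : ℝ) / 2) ^ (Q + 27)) ^ 2 = (1 / 4) ^ (Q + 27) := by
      rw [← pow_mul, mul_comm, pow_mul]; norm_num
    calc K * (ρ * d) ^ 2 ≤ 4 ^ (Q + 1) * (1 / 4) ^ (Q + 27) := by
          rw [← h2]; gcongr
      _ = (4 * (1 / 4)) ^ (Q + 1) * (1 / 4) ^ 26 := by
          rw [mul_pow, show Q + 27 = (Q + 1) + 26 by ring, pow_add]; ring
      _ ≤ 1 := by norm_num
  obtain ⟨nb1, nb2, nb3⟩ := norm_bounds hd p hp hK1 hn hρ hρK hw0 hw1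
  set κ : ℝ := (1 + 2 * √(2 * (d : ℝ))) ^ d with hκ
  -- the approximation error
  set v₀ : ℝ := w * (1 / 2) ^ (Q + 6) with hv₀
  set v₁ : ℝ := 2 ^ (2 * Q + 7) with hv₁
  set G : ℝ := (4 ^ (Q + 1) + 2) * κ + v₁ ^ 2 with hG
  have hκ0 : 0 ≤ κ := by rw [hκ]; positivity
  have hG0 : 0 ≤ G := by rw [hG]; positivity
  set η : ℝ := 4 * (1 / 8) ^ a + (4 * d + 1) * (a * (1 / 16) ^ J) * (1 / w ^ 2) *
      (1 + 2 * √((L₀ : ℝ) ^ 2 + 4 * d)) ^ (2 * d) * G with hηdef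
  have hη0 : 0 ≤ η := by rw [hηdef]; positivity
  have hv00 : 0 < v₀ := by rw [hv₀]; positivity
  have hv01 : v₀ ≤ v₁ := by
    have h1 : v₀ ≤ 1 := by
      rw [hv₀]
      exact mul_le_one₀ hw1 (by positivity) (pow_le_one₀ (by norm_num) (by norm_num))
    have h2 : 1 ≤ v₁ := one_le_pow₀ (by norm_num)
    exact h1.trans h2
  have happ : ∀ w', w ≤ w' → w' ^ 2 ≤ w ^ 2 + v₁ ^ 2 →
      ∃ T : MvPolynomial ι ℝ, T.totalDegree ≤ L₀ ^ 2 ∧ n2 (1 - AP d ρ w' p * T) ≤ η := by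
    intro w' hw' hw'2
    have hw'0 : 0 < w' := hw0.trans_le hw'
    obtain ⟨T, hT, hTn⟩ := resolvent_approx hρ hw'0 p hp hJ1 hq1 hJq hL1
      (snum_K ha1 hq1 hR1 hL) hX haL
    refine ⟨T, hT, hTn.trans ?_⟩
    have h1 : n2 (AP d ρ w' p) ≤ G := by
      refine (n2_ap_le d ρ w w' p).trans ?_
      have h2 : |w' ^ 2 - w ^ 2| ≤ v₁ ^ 2 := by
        rw [abs_of_nonneg (by nlinarith)]
        linarith
      rw [hG]
      exact add_le_add nb3 h2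
    have h3 : 1 / w' ^ 2 ≤ 1 / w ^ 2 := by gcongr
    have h4 := snum_first ha1 hq1 hR1 hL
    rw [hηdef]
    refine add_le_add h4 ?_
    have h5 : 0 ≤ n2 (AP d ρ w' p) := n2_nonneg _
    gcongr
  have hη : η ≤ 4 * (1 / 8) ^ a + (1 / 2) ^ (700 * (d * Λ)) := by
    rw [hηdef]
    refine add_le_add le_rfl ?_
    rw [hG, hv₁]
    exact snum_second hd hQ hQΛ hdΛ ha hJ hRle hR1 hLle hL1 h2dL hw0 hw hκ
  have hlog : 1 + Real.log (v₁ / v₀) ≤ 90 * ((d * Λ : ℕ) : ℝ) :=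
    snum_log hd hQ hQΛ hRle hR1 hw0 hw
  have hηl := snum_eta hd hQ hQΛ hdΛ ha hη0 hη hlog
  have hfe := final_err2 hw0 p hp μ hμ (L₀ ^ 2)
    (snum_total ha hq hR hL h2dL hN) (2 ^ (Q + 1)) v₀ v₁ η hn' hv00 hv01 hη0 happ
  have hss := sigma_small hd p hp hvar.ge hρ hρ1 hβ hβ1 hw
  -- the terms
  have t1 : 2 ^ 24 * ((Nat.log 2 d : ℝ) + 2) * d * ρ = (1 / 2) ^ (Q + 3) := by
    rw [hρdef, hR]
    push_cast
    have hl : (0 : ℝ) < (Nat.log 2 d : ℝ) + 2 := by positivity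
    rw [one_div_pow]
    have e2 : (2 : ℝ) ^ (Q + 27) = 2 ^ 24 * 2 ^ (Q + 3) := by rw [← pow_add]; congr 1; ring
    rw [e2]
    field_simp
  have t2 : 8 * β = (1 / 2) ^ (Q + 4) := by
    rw [hβdef, show Q + 7 = (Q + 4) + 3 by ring, pow_add]; norm_num; ring
  have t3 : w ≤ (1 / 2) ^ (Q + 5) :=
    hwle.trans (pow_le_pow_of_le_one (by norm_num) (by norm_num) (by omega))
  have t4 : v₀ / w = (1 / 2) ^ (Q + 6) := by
    rw [hv₀, mul_div_cancel_left₀ _ hw0.ne']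
  have t5 : 2 ^ (Q + 1) / v₁ = (1 / 2) ^ (Q + 6) := by
    rw [hv₁, show 2 * Q + 7 = (Q + 1) + (Q + 6) by ring, pow_add _ (Q + 1) (Q + 6), one_div_pow]
    have h0 : (0 : ℝ) < 2 ^ (Q + 1) := by positivity
    have h1 : (0 : ℝ) < 2 ^ (Q + 6) := by positivity
    rw [div_eq_div_iff (by positivity) h1.ne', one_mul]
  have hh3 : ((1 : ℝ) / 2) ^ (Q + 3) = (1 / 2) ^ Q / 8 := by rw [pow_add]; norm_num; ring
  have hh4 : ((1 : ℝ) / 2) ^ (Q + 4) = (1 / 2) ^ Q / 16 := by rw [pow_add]; norm_num; ring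
  have hh5 : ((1 : ℝ) / 2) ^ (Q + 5) = (1 / 2) ^ Q / 32 := by rw [pow_add]; norm_num; ring
  have hh6 : ((1 : ℝ) / 2) ^ (Q + 6) = (1 / 2) ^ Q / 64 := by rw [pow_add]; norm_num; ring
  have hpos : (0 : ℝ) < (1 / 2) ^ Q := by positivity
  rw [t1, t2] at hss
  rw [t4, t5] at hfe
  rw [hh3, hh4] at hss
  rw [hh5] at t3 hηl
  rw [hh6] at hfe
  linarith

end Pool.Agent.KWG
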