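import Pool.Agent.Lib.MP_68391b_lc.Gen.GMul
import Pool.Agent.Lib.MP_68391b_lc.Gen.GHermE

/-!
Spectral multipliers of the number operator on polynomials: definitions.
-/

set_option linter.unusedSectionVars false

namespace Pool.Agent.KWG

open MeasureTheory ProbabilityTheory MvPolynomial Pool.Agent.KWI

variable {ι : Type} [Fintype ι] [DecidableEq ι]

/-- Hermite coefficient of a polynomial. -/
noncomputable def hc (g : MvPolynomial ι ℝ) (α : ι → ℕ) : ℝ :=
  ∫ x, eval x g * eval x (hp α) ∂(gam ι)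

/-- The multiplier `ψ(𝒩)`, where `𝒩` is the number operator, truncated at level `N`. -/
noncomputable def Mu (N : ℕ) (ψ : ℕ → ℝ) (g : MvPolynomial ι ℝ) : MvPolynomial ι ℝ :=
  ∑ k ∈ Finset.range (N + 1), ∑ α ∈ lev ι k, C (ψ k * hc g α) * hp α

/-- `Ψ(k) = (1 - f(k))/k` (and `0` for `k = 0`). -/
noncomputable def Psi (f : ℕ → ℝ) (k : ℕ) : ℝ := (1 - f k) / k

/-- `Φ_a(k) = ∏_{i<a} (1 - f(k-i))` with natural subtraction. -/
noncomputable def Phi (f : ℕ → ℝ) : ℕ → ℕ → ℝ
  | 0, _ => 1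
  | a + 1, k => (1 - f k) * Phi f a (k - 1)

/-- Sum of the squares of the components of the `a`-fold iterate of `∇ Ψ(𝒩)`. -/
noncomputable def GS (N : ℕ) (f : ℕ → ℝ) : ℕ → MvPolynomial ι ℝ → MvPolynomial ι ℝ
  | 0, g => g ^ 2
  | a + 1, g => ∑ j, GS N f a (pderiv j (Mu N (Psi f) g))

/-- `sin(t √k)/√k`. -/
noncomputable def Sv (t : ℝ) (k : ℕ) : ℝ := if k = 0 then t else Real.sin (t * √k) / √k

/-- The weighted square integral `∫ g² / B² dγ`. -/
noncomputable def wn (B g : MvPolynomial ι ℝ) : ℝ :=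
  ∫ x, (eval x g) ^ 2 / (eval x B) ^ 2 ∂(gam ι)

theorem wn_nonneg (B g : MvPolynomial ι ℝ) : 0 ≤ wn B g :=
  integral_nonneg fun x => by positivity

theorem gs_nonneg (N : ℕ) (f : ℕ → ℝ) (a : ℕ) (g : MvPolynomial ι ℝ) (x : ι → ℝ) :
    0 ≤ eval x (GS N f a g) := by
  induction a generalizing g with
  | zero => simp only [GS, map_pow]; positivity
  | succ a ih =>
    simp only [GS, map_sum]
    exact Finset.sum_nonneg fun j _ => ih _

/-- Polynomials divided by powers of `B` are integrable. -/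
theorem div_integrable {B : MvPolynomial ι ℝ} {w₂ : ℝ} (hw : 0 < w₂)
    (hB : ∀ x, w₂ ≤ eval x B) (q : MvPolynomial ι ℝ) (m : ℕ) :
    Integrable (fun x : ι → ℝ => eval x q / (eval x B) ^ m) (gam ι) := by
  have h1 : Integrable (fun x : ι → ℝ => |eval x q| * (1 / w₂ ^ m)) (gam ι) :=
    (poly_integrable q).abs.mul_const _
  refine h1.mono ?_ (Filter.Eventually.of_forall fun x => ?_)
  · have h2 := eval_measurable q
    have h3 := eval_measurable B
    exact (by fun_prop : Measurable fun x : ι → ℝ =>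
      eval x q / (eval x B) ^ m).aestronglyMeasurable
  · have hBx : 0 < eval x B := lt_of_lt_of_le hw (hB x)
    rw [Real.norm_eq_abs, Real.norm_eq_abs, abs_div, abs_mul, abs_abs,
      abs_of_pos (show 0 < (eval x B) ^ m by positivity),
      abs_of_pos (show (0 : ℝ) < 1 / w₂ ^ m by positivity), div_eq_mul_one_div]
    gcongr
    exact hB x

theorem wn_integrable {B : MvPolynomial ι ℝ} {w₂ : ℝ} (hw : 0 < w₂)
    (hB : ∀ x, w₂ ≤ eval x B) (g : MvPolynomial ι ℝ) :
    Integrable (fun x : ι → ℝ => (eval x g) ^ 2 / (eval x B) ^ 2) (gam ι) := by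
  have := div_integrable hw hB (g ^ 2) 2
  simpa using this

end Pool.Agent.KWG
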