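import Pool.Agent.Lib.MP_68391b_lc.Sq.SCore

/-! The theorem with quadratic dependence on the degree, dyadic accuracy. -/

set_option linter.unusedSectionVars false

namespace Pool.Agent.KWG

open MeasureTheory ProbabilityTheory MvPolynomial Pool.Agent.KWI

section Aux2

variable {ι : Type} [Fintype ι] [DecidableEq ι]

theorem one_sided2 {d Q Λ : ℕ} (hd : 1 ≤ d) (hQ : 1 ≤ Q) (hQΛ : Q ≤ Λ) (hdΛ : d ≤ 2 ^ Λ)
    (p : MvPolynomial ι ℝ) (hp : p.totalDegree ≤ d)
    (hvar : ∫ x, (eval x p - ∫ y, eval y p ∂(gam ι)) ^ 2 ∂(gam ι) = 1) {N : ℕ}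
    (hN : 2 ^ 124 * d ^ 2 * (Nat.log 2 d + 2) ^ 2 * Λ ^ 6 * 4 ^ Q ≤ N)
    (μ : Measure (ι → ℝ)) [IsProbabilityMeasure μ] (hμ : MM N μ) (hdN : 2 * d ≤ N) :
    μ.real {x | 0 ≤ eval x p} ≤ (gam ι).real {x | 0 ≤ eval x p} + (1 / 2) ^ Q := by
  set m := ∫ y, eval y p ∂(gam ι) with hm
  by_cases hmean : |m| ≤ 2 ^ Q
  · exact core_norm2 hd hQ hQΛ hdΛ p hp hvar hmean hN μ hμ
  have hmean' : 2 ^ Q < |m| := not_le.1 hmean
  have h2Q : (0 : ℝ) < 2 ^ Q := by positivity
  have hsmall : (1 : ℝ) / (2 ^ Q) ^ 2 ≤ (1 / 2) ^ Q := by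
    rw [one_div_pow]
    apply one_div_le_one_div_of_le h2Q
    have h1 : (1 : ℝ) ≤ 2 ^ Q := one_le_pow₀ (by norm_num)
    nlinarith
  have hpm : 2 * p.totalDegree ≤ N := by omega
  have hSm : MeasurableSet {x : ι → ℝ | 0 ≤ eval x p} :=
    measurableSet_le measurable_const (eval_measurable p)
  rcases lt_or_ge m 0 with hneg | hpos
  · -- the mean is very negative: mu is small
    rw [abs_of_neg hneg] at hmean'
    have h1 : {x : ι → ℝ | 0 ≤ eval x p} ⊆ {x | 2 ^ Q ≤ |eval x p - m|} := by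
      intro x hx
      have hx' : 0 ≤ eval x p := hx
      show 2 ^ Q ≤ |eval x p - m|
      exact le_trans (by linarith) (le_abs_self _)
    have h2 := (measureReal_mono h1 (measure_ne_top μ _)).trans (cheb μ hμ p hpm h2Q hvar)
    have h3 : 0 ≤ (gam ι).real {x | 0 ≤ eval x p} := measureReal_nonneg
    linarith
  · rw [abs_of_nonneg hpos] at hmean'
    have h1 : {x : ι → ℝ | 0 ≤ eval x p}ᶜ ⊆ {x | 2 ^ Q ≤ |eval x p - m|} := by
      intro x hx
      have hx' : ¬ (0 ≤ eval x p) := hx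
      show 2 ^ Q ≤ |eval x p - m|
      have : eval x p < 0 := not_le.1 hx'
      rw [abs_sub_comm]
      exact le_trans (by linarith) (le_abs_self _)
    have h2 := (measureReal_mono h1 (measure_ne_top (gam ι) _)).trans
      (cheb (gam ι) (MM_gam N ι) p hpm h2Q hvar)
    rw [probReal_compl_eq_one_sub hSm] at h2
    have h3 : μ.real {x | 0 ≤ eval x p} ≤ 1 := measureReal_le_one
    linarith

theorem two_sided_norm2 {d Q Λ : ℕ} (hd : 1 ≤ d) (hQ : 1 ≤ Q) (hQΛ : Q ≤ Λ) (hdΛ : d ≤ 2 ^ Λ)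
    (p : MvPolynomial ι ℝ) (hp : p.totalDegree ≤ d)
    (hvar : ∫ x, (eval x p - ∫ y, eval y p ∂(gam ι)) ^ 2 ∂(gam ι) = 1) {N : ℕ}
    (hN : 2 ^ 124 * d ^ 2 * (Nat.log 2 d + 2) ^ 2 * Λ ^ 6 * 4 ^ Q ≤ N)
    (μ : Measure (ι → ℝ)) [IsProbabilityMeasure μ] (hμ : MM N μ) (hdN : 2 * d ≤ N) :
    |μ.real {x | 0 ≤ eval x p} - (gam ι).real {x | 0 ≤ eval x p}| ≤ (1 / 2) ^ Q := by
  have h1 := one_sided2 hd hQ hQΛ hdΛ p hp hvar hN μ hμ hdN
  have hmn : ∫ y, eval y (-p) ∂(gam ι) = - ∫ y, eval y p ∂(gam ι) := by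
    simp only [map_neg]; exact integral_neg _
  have hvar' : ∫ x, (eval x (-p) - ∫ y, eval y (-p) ∂(gam ι)) ^ 2 ∂(gam ι) = 1 := by
    rw [hmn, ← hvar]
    congr 1
    funext x
    simp only [map_neg]
    ring
  have h2 := one_sided2 hd hQ hQΛ hdΛ (-p) (by rw [MvPolynomial.totalDegree_neg]; exact hp)
    hvar' hN μ hμ hdN
  have hz := zero_null hd p hp hvar
  have hm0 : MeasurableSet {x : ι → ℝ | 0 ≤ eval x p} :=
    measurableSet_le measurable_const (eval_measurable p)
  have e1 : μ.real {x | 0 ≤ eval x p}ᶜ ≤ μ.real {x | 0 ≤ eval x (-p)} := by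
    apply measureReal_mono _ (measure_ne_top _ _)
    intro x hx
    have hx' : ¬ (0 ≤ eval x p) := hx
    show 0 ≤ eval x (-p)
    rw [map_neg]
    linarith [not_le.1 hx']
  have e2 : (gam ι).real {x | 0 ≤ eval x (-p)} ≤ (gam ι).real {x | 0 ≤ eval x p}ᶜ := by
    have hsub : {x : ι → ℝ | 0 ≤ eval x (-p)} ⊆ {x | 0 ≤ eval x p}ᶜ ∪ {x | eval x p = 0} := by
      intro x hx
      have hx' : 0 ≤ eval x (-p) := hx
      rw [map_neg] at hx'
      by_cases h0 : eval x p = 0
      · right; exact h0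
      · left
        show ¬ (0 ≤ eval x p)
        intro h3
        exact h0 (le_antisymm (by linarith) h3)
    calc (gam ι).real {x | 0 ≤ eval x (-p)}
        ≤ (gam ι).real ({x | 0 ≤ eval x p}ᶜ ∪ {x | eval x p = 0}) :=
          measureReal_mono hsub (measure_ne_top _ _)
      _ ≤ (gam ι).real {x | 0 ≤ eval x p}ᶜ + (gam ι).real {x | eval x p = 0} :=
          measureReal_union_le _ _
      _ = _ := by rw [hz, add_zero]
  rw [probReal_compl_eq_one_sub hm0] at e1 e2
  rw [abs_le]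
  constructor
  · linarith
  · linarith

theorem two_sided_gen2 {d Q Λ : ℕ} (hd : 1 ≤ d) (hQ : 1 ≤ Q) (hQΛ : Q ≤ Λ) (hdΛ : d ≤ 2 ^ Λ)
    (p : MvPolynomial ι ℝ) (hp : p.totalDegree ≤ d) {N : ℕ}
    (hN : 2 ^ 124 * d ^ 2 * (Nat.log 2 d + 2) ^ 2 * Λ ^ 6 * 4 ^ Q ≤ N)
    (μ : Measure (ι → ℝ)) [IsProbabilityMeasure μ] (hμ : MM N μ) (hdN : 2 * d ≤ N) :
    |μ.real {x | 0 ≤ eval x p} - (gam ι).real {x | 0 ≤ eval x p}| ≤ (1 / 2) ^ Q := by
  set m := ∫ y, eval y p ∂(gam ι) with hm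
  set V := ∫ x, (eval x p - m) ^ 2 ∂(gam ι) with hV
  have hV0 : 0 ≤ V := integral_nonneg fun x => sq_nonneg _
  rcases hV0.eq_or_lt with h0 | hpos
  · -- the polynomial is almost surely constant
    set q : MvPolynomial ι ℝ := (p - C m) ^ 2 with hq
    have hqdeg : q.totalDegree ≤ N := by
      refine (MvPolynomial.totalDegree_pow _ _).trans (le_trans ?_ hdN)
      refine Nat.mul_le_mul_left _ ?_
      refine (MvPolynomial.totalDegree_sub _ _).trans ?_
      simpa using hp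
    have hqe : ∀ x : ι → ℝ, eval x q = (eval x p - m) ^ 2 := by intro x; simp [hq]
    have hconst : ∀ (ν : Measure (ι → ℝ)) [IsProbabilityMeasure ν], MM N ν →
        ∀ᵐ x ∂ν, eval x p = m := by
      intro ν _ hν
      have hint : Integrable (fun x => (eval x p - m) ^ 2) ν := by
        have := (hν q hqdeg).1
        simpa only [hqe] using this
      have heq : ∫ x, (eval x p - m) ^ 2 ∂ν = 0 := by
        rw [h0, hV]
        have := (hν q hqdeg).2
        simpa only [hqe] using this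
      have h1 := (integral_eq_zero_iff_of_nonneg (fun x => sq_nonneg _) hint).1 heq
      filter_upwards [h1] with x hx
      have hx' : (eval x p - m) ^ 2 = 0 := hx
      have := pow_eq_zero_iff (two_ne_zero) |>.1 hx'
      linarith
    have hval : ∀ (ν : Measure (ι → ℝ)) [IsProbabilityMeasure ν], MM N ν →
        ν.real {x | 0 ≤ eval x p} = if 0 ≤ m then 1 else 0 := by
      intro ν _ hν
      have h1 := hconst ν hν
      by_cases hm0 : 0 ≤ m
      · rw [if_pos hm0]
        have : ν.real {x | 0 ≤ eval x p} = ν.real Set.univ := by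
          apply measureReal_congr
          filter_upwards [h1] with x hx
          apply propext
          constructor
          · intro _; trivial
          · intro _
            show 0 ≤ eval x p
            rw [hx]; exact hm0
        rw [this, probReal_univ]
      · rw [if_neg hm0]
        have : ν.real {x | 0 ≤ eval x p} = ν.real ∅ := by
          apply measureReal_congr
          filter_upwards [h1] with x hx
          apply propext
          constructor
          · intro h2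
            have h3 : 0 ≤ eval x p := h2
            rw [hx] at h3
            exact hm0 h3
          · intro h2; exact absurd h2 (Set.notMem_empty x)
        rw [this, measureReal_empty]
    rw [hval μ hμ, hval (gam ι) (MM_gam N ι), sub_self, abs_zero]
    positivity
  · -- scale
    set c : ℝ := (√V)⁻¹ with hc
    have hsV : 0 < √V := Real.sqrt_pos.2 hpos
    have hc0 : 0 < c := by positivity
    have hmn : ∫ y, eval y (C c * p) ∂(gam ι) = c * m := by
      simp only [map_mul, eval_C]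
      rw [integral_const_mul]
    have hvar' : ∫ x, (eval x (C c * p) - ∫ y, eval y (C c * p) ∂(gam ι)) ^ 2 ∂(gam ι) = 1 := by
      rw [hmn]
      have e : (fun x : ι → ℝ => (eval x (C c * p) - c * m) ^ 2) =
          fun x => c ^ 2 * (eval x p - m) ^ 2 := by
        funext x
        simp only [map_mul, eval_C]
        ring
      rw [e, integral_const_mul, ← hV, hc, inv_pow, Real.sq_sqrt hV0]
      exact inv_mul_cancel₀ hpos.ne'
    have hdeg : (C c * p).totalDegree ≤ d := by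
      refine (MvPolynomial.totalDegree_mul _ _).trans ?_
      rw [MvPolynomial.totalDegree_C, zero_add]; exact hp
    have h1 := two_sided_norm2 hd hQ hQΛ hdΛ (C c * p) hdeg hvar' hN μ hμ hdN
    have e : {x : ι → ℝ | 0 ≤ eval x (C c * p)} = {x | 0 ≤ eval x p} := by
      ext x
      simp only [Set.mem_ofPred_eq, map_mul, eval_C]
      exact mul_nonneg_iff_of_pos_left hc0
    rw [e] at h1
    exact h1

end Aux2

/-- The theorem, with dyadic accuracy. -/
theorem gen_pow2 {d Q Λ : ℕ} (hd : 1 ≤ d) (hQ : 1 ≤ Q) (hQΛ : Q ≤ Λ) (hdΛ : d ≤ 2 ^ Λ) {k : ℕ}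
    (hk : 2 ^ 124 * d ^ 2 * (Nat.log 2 d + 2) ^ 2 * Λ ^ 6 * 4 ^ Q ≤ k)
    (n : ℕ) (p : MvPolynomial (Fin n) ℝ) (hp : p.totalDegree ≤ d)
    (Ω : Type) [MeasurableSpace Ω] (P : Measure Ω) [IsProbabilityMeasure P]
    (X : Fin n → Ω → ℝ) (hX : KWiseGaussian P k n X) :
    |P.real {ω | 0 ≤ eval (fun i => X i ω) p} - (gam (Fin n)).real {z | 0 ≤ eval z p}| ≤
      (1 / 2) ^ Q := by
  have hXm : AEMeasurable (fun ω i => X i ω) P :=
    aemeasurable_pi_iff.2 fun i => (hX.law i).aemeasurable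
  set μ : Measure (Fin n → ℝ) := P.map (fun ω i => X i ω) with hμ
  have : IsProbabilityMeasure μ := Measure.isProbabilityMeasure_map hXm
  have hMM : MM k μ := mm_of_kwise P k n X hX
  have hdk : 2 * d ≤ k := by
    refine le_trans ?_ hk
    have hΛ : 1 ≤ Λ := hQ.trans hQΛ
    calc 2 * d = 2 ^ 1 * d ^ 1 * 1 ^ 2 * 1 ^ 6 * 1 := by ring
      _ ≤ 2 ^ 124 * d ^ 2 * (Nat.log 2 d + 2) ^ 2 * Λ ^ 6 * 4 ^ Q := by
          have h4 : 1 ≤ 4 ^ Q := Nat.one_le_pow _ _ (by norm_num)
          gcongr <;> first | omega | norm_num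
  have h := two_sided_gen2 hd hQ hQΛ hdΛ p hp hk μ hMM hdk
  have hS : MeasurableSet {x : Fin n → ℝ | 0 ≤ eval x p} :=
    measurableSet_le measurable_const (eval_measurable p)
  have e1 : μ.real {x | 0 ≤ eval x p} = P.real {ω | 0 ≤ eval (fun i => X i ω) p} := by
    rw [hμ, measureReal_def, measureReal_def, Measure.map_apply_of_aemeasurable hXm hS]
    rfl
  rw [e1] at h
  exact h

end Pool.Agent.KWG
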