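import Pool.Agent.Lib.MP_68391b_lc.Gen.GEps
import Pool.Agent.Lib.MP_68391b_lc.Sq.SFinal

/-! The theorem with quadratic dependence on the degree, for real accuracy. -/

namespace Pool.Agent.KWG

open MeasureTheory ProbabilityTheory MvPolynomial Pool.Agent.KWI

theorem gen_half2 : ∀ (d : ℕ), 1 ≤ d → ∀ ε : ℝ, 0 < ε → ε ≤ 1 / 2 → ∀ k : ℕ,
    2 ^ 124 * 26244 * ((d : ℝ) ^ 2 * Real.log (2 * d) ^ 2 * Real.log (2 * d / ε) ^ 6 / ε ^ 2) ≤
      (k : ℝ) → Fools d ε k := by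
  intro d hd ε hε hε2 k hk
  have hd0 : (0 : ℝ) < d := by exact_mod_cast hd
  have hd1 : (1 : ℝ) ≤ d := by exact_mod_cast hd
  have hl2 : 0 < Real.log 2 := Real.log_pos (by norm_num)
  have hl2' : (2 : ℝ) / 3 ≤ Real.log 2 := by
    have := Real.log_two_gt_d9; linarith
  -- Q
  set ℓ : ℝ := Real.log (1 / ε) / Real.log 2 with hℓ
  have h2ε : 2 ≤ 1 / ε := by rw [le_div_iff₀ hε]; linarith
  have hℓ1 : 1 ≤ ℓ := by
    rw [hℓ, le_div_iff₀ hl2, one_mul]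
    exact Real.log_le_log (by norm_num) h2ε
  set Q : ℕ := ⌈ℓ⌉₊ with hQ
  have hQ1 : 1 ≤ Q := by
    rw [hQ]; exact Nat.one_le_ceil_iff.2 (by linarith)
  have hQl : ℓ ≤ Q := Nat.le_ceil ℓ
  have hQu : (Q : ℝ) ≤ ℓ + 1 := (Nat.ceil_lt_add_one (by linarith)).le
  have hpow : (2 : ℝ) ^ ℓ = 1 / ε := by
    rw [Real.rpow_def_of_pos (by norm_num), hℓ, mul_div_cancel₀ _ hl2.ne',
      Real.exp_log (by positivity)]
  have h2Q : (2 : ℝ) ^ Q ≤ 2 * (1 / ε) := by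
    have : (2 : ℝ) ^ (Q : ℝ) ≤ 2 ^ (ℓ + 1) := Real.rpow_le_rpow_of_exponent_le (by norm_num) hQu
    rw [Real.rpow_natCast, Real.rpow_add (by norm_num), hpow, Real.rpow_one] at this
    linarith
  have h2Q' : 1 / ε ≤ (2 : ℝ) ^ Q := by
    have : (2 : ℝ) ^ ℓ ≤ 2 ^ (Q : ℝ) := Real.rpow_le_rpow_of_exponent_le (by norm_num) hQl
    rw [Real.rpow_natCast, hpow] at this
    exact this
  have hεQ : ((1 : ℝ) / 2) ^ Q ≤ ε := by
    rw [one_div, inv_pow]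
    rw [inv_le_comm₀ (by positivity) hε]
    simpa using h2Q'
  have h4Q : (4 : ℝ) ^ Q ≤ 4 / ε ^ 2 := by
    have e : (4 : ℝ) ^ Q = (2 ^ Q) ^ 2 := by rw [← pow_mul, mul_comm, pow_mul]; norm_num
    rw [e]
    calc ((2 : ℝ) ^ Q) ^ 2 ≤ (2 * (1 / ε)) ^ 2 := by gcongr
      _ = 4 / ε ^ 2 := by field_simp; norm_num
  -- Λ
  set L : ℝ := Real.log (2 * d / ε) / Real.log 2 with hL
  have h4 : (4 : ℝ) ≤ 2 * d / ε := by
    rw [le_div_iff₀ hε]; nlinarith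
  have hL2 : 2 ≤ L := by
    rw [hL, le_div_iff₀ hl2]
    have : Real.log 4 ≤ Real.log (2 * d / ε) := Real.log_le_log (by norm_num) h4
    have e : Real.log 4 = 2 * Real.log 2 := by
      rw [show (4 : ℝ) = 2 ^ 2 by norm_num, Real.log_pow]; norm_num
    linarith
  set Λ : ℕ := ⌈L⌉₊ with hΛ
  have hΛl : L ≤ Λ := Nat.le_ceil L
  have hΛu : (Λ : ℝ) ≤ L + 1 := (Nat.ceil_lt_add_one (by linarith)).le
  have hLpow : (2 : ℝ) ^ L = 2 * d / ε := by
    rw [Real.rpow_def_of_pos (by norm_num), hL, mul_div_cancel₀ _ hl2.ne',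
      Real.exp_log (by positivity)]
  have hℓL : ℓ ≤ L := by
    rw [hℓ, hL]
    have : Real.log (1 / ε) ≤ Real.log (2 * d / ε) := by
      apply Real.log_le_log (by positivity)
      gcongr
      linarith
    gcongr
  have hQΛ : Q ≤ Λ := Nat.ceil_mono hℓL
  have hdΛ : d ≤ 2 ^ Λ := by
    have h5 : (2 : ℝ) ^ L ≤ 2 ^ (Λ : ℝ) := Real.rpow_le_rpow_of_exponent_le (by norm_num) hΛl
    rw [Real.rpow_natCast, hLpow] at h5
    have h6 : (d : ℝ) ≤ 2 * d / ε := by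
      rw [le_div_iff₀ hε]; nlinarith
    have h7 : (d : ℝ) ≤ 2 ^ Λ := h6.trans h5
    exact_mod_cast h7
  have hΛlog : (Λ : ℝ) ≤ 3 * Real.log (2 * d / ε) := by
    have h8 : (Λ : ℝ) ≤ 3 / 2 * L := by linarith
    have h9 : 0 ≤ Real.log (2 * d / ε) := Real.log_nonneg (by linarith)
    have h10 : L ≤ 3 / 2 * Real.log (2 * d / ε) := by
      rw [hL, div_le_iff₀ hl2]
      nlinarith
    linarith
  -- the logarithm of d
  have hlog : (Nat.log 2 d : ℝ) + 2 ≤ 3 * Real.log (2 * d) := by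
    have h11 : ((2 : ℝ)) ^ (Nat.log 2 d) ≤ d := by
      exact_mod_cast Nat.pow_log_le_self 2 (by omega)
    have h12 : (Nat.log 2 d : ℝ) * Real.log 2 ≤ Real.log d := by
      have := Real.log_le_log (by positivity) h11
      rwa [Real.log_pow] at this
    have h13 : Real.log (2 * d) = Real.log 2 + Real.log d := by
      rw [Real.log_mul (by norm_num) hd0.ne']
    have h14 : 0 ≤ Real.log d := Real.log_nonneg hd1
    have h15 : (0 : ℝ) ≤ Nat.log 2 d := Nat.cast_nonneg _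
    rw [h13]
    nlinarith
  have hfin : 2 ^ 124 * d ^ 2 * (Nat.log 2 d + 2) ^ 2 * Λ ^ 6 * 4 ^ Q ≤ k := by
    have h16 : ((2 ^ 124 * d ^ 2 * (Nat.log 2 d + 2) ^ 2 * Λ ^ 6 * 4 ^ Q : ℕ) : ℝ) ≤ k := by
      refine le_trans ?_ hk
      simp only [Nat.cast_mul, Nat.cast_pow, Nat.cast_add, Nat.cast_ofNat]
      calc (2 : ℝ) ^ 124 * d ^ 2 * ((Nat.log 2 d : ℝ) + 2) ^ 2 * (Λ : ℝ) ^ 6 * 4 ^ Q
          ≤ 2 ^ 124 * d ^ 2 * (3 * Real.log (2 * d)) ^ 2 * (3 * Real.log (2 * d / ε)) ^ 6 *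
            (4 / ε ^ 2) := by gcongr
        _ = 2 ^ 124 * 26244 * ((d : ℝ) ^ 2 * Real.log (2 * d) ^ 2 *
            Real.log (2 * d / ε) ^ 6 / ε ^ 2) := by ring
    exact_mod_cast h16
  intro n p hp Ω _ P _ X hX
  exact (gen_pow2 hd hQ1 hQΛ hdΛ hfin n p hp Ω P X hX).trans hεQ

theorem gen_eps2 : ∃ C : ℝ, 0 < C ∧ ∀ (d : ℕ), 1 ≤ d → ∀ ε : ℝ, 0 < ε → ε < 1 → ∀ k : ℕ,
    C * (d : ℝ) ^ 2 * Real.log (2 * d) ^ 2 * Real.log (2 * d / ε) ^ 6 / ε ^ 2 ≤ (k : ℝ) →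
      Fools d ε k := by
  refine ⟨2 ^ 124 * 26244 * 256, by norm_num, ?_⟩
  intro d hd ε hε hε1 k hk
  have hd0 : (0 : ℝ) < d := by exact_mod_cast hd
  have hd1 : (1 : ℝ) ≤ d := by exact_mod_cast hd
  have hl0 : 0 < Real.log (2 * d) := Real.log_pos (by linarith)
  have hle : Real.log (2 * d) ≤ Real.log (2 * d / ε) := by
    apply Real.log_le_log (by positivity)
    rw [le_div_iff₀ hε]; nlinarith
  rcases le_or_gt ε (1 / 2) with h | h
  · refine gen_half2 d hd ε hε h k (le_trans ?_ hk)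
    have h0 : 0 ≤ (d : ℝ) ^ 2 * Real.log (2 * d) ^ 2 * Real.log (2 * d / ε) ^ 6 / ε ^ 2 := by
      positivity
    calc 2 ^ 124 * 26244 * ((d : ℝ) ^ 2 * Real.log (2 * d) ^ 2 * Real.log (2 * d / ε) ^ 6 / ε ^ 2)
        ≤ 2 ^ 124 * 26244 * 256 *
          ((d : ℝ) ^ 2 * Real.log (2 * d) ^ 2 * Real.log (2 * d / ε) ^ 6 / ε ^ 2) := by
          nlinarith
      _ = _ := by ring
  · have h2 := gen_half2 d hd (1 / 2) (by norm_num) le_rfl k (le_trans ?_ hk)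
    · intro n p hp Ω mΩ P hP X hX
      exact (h2 n p hp Ω mΩ P hP X hX).trans h.le
    · have h4 : Real.log (2 * d / (1 / 2)) ≤ 2 * Real.log (2 * d / ε) := by
        have e : Real.log (2 * d / (1 / 2)) = Real.log 2 + Real.log (2 * d) := by
          rw [← Real.log_mul (by norm_num) (by positivity)]
          congr 1; ring
        have h5 : Real.log 2 ≤ Real.log (2 * d) := Real.log_le_log (by norm_num) (by linarith)
        rw [e]; linarith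
      have h6 : 0 ≤ Real.log (2 * d / (1 / 2)) := Real.log_nonneg (by
        rw [le_div_iff₀ (by norm_num)]; linarith)
      have h7 : 1 ≤ 1 / ε ^ 2 := by
        rw [le_div_iff₀ (by positivity)]; nlinarith
      calc 2 ^ 124 * 26244 * ((d : ℝ) ^ 2 * Real.log (2 * d) ^ 2 *
            Real.log (2 * d / (1 / 2)) ^ 6 / (1 / 2) ^ 2)
          ≤ 2 ^ 124 * 26244 * ((d : ℝ) ^ 2 * Real.log (2 * d) ^ 2 *
            (2 * Real.log (2 * d / ε)) ^ 6 / (1 / 2) ^ 2) := by gcongr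
        _ = (2 ^ 124 * 26244 * 256 * (d : ℝ) ^ 2 * Real.log (2 * d) ^ 2 *
            Real.log (2 * d / ε) ^ 6) * 1 := by ring
        _ ≤ (2 ^ 124 * 26244 * 256 * (d : ℝ) ^ 2 * Real.log (2 * d) ^ 2 *
            Real.log (2 * d / ε) ^ 6) * (1 / ε ^ 2) := by gcongr
        _ = _ := by ring

end Pool.Agent.KWG
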