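import Pool.Agent.Lib.MP_68391b_lc.Gen.GIbp
import Pool.Agent.Lib.MP_68391b_lc.Sq.SDefs

/-! Weighted integration by parts. -/

set_option linter.unusedSectionVars false

namespace Pool.Agent.KWG

open MeasureTheory ProbabilityTheory MvPolynomial Pool.Agent.KWI

variable {ι : Type} [Fintype ι] [DecidableEq ι]

theorem sibp_deriv {B : MvPolynomial ι ℝ} {w₂ : ℝ} (hw : 0 < w₂) (hB : ∀ x, w₂ ≤ eval x B)
    (j : ι) (q : MvPolynomial ι ℝ) (x : ι → ℝ) :
    HasLineDerivAt ℝ (fun x : ι → ℝ => eval x q / (eval x B) ^ 2)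
      (eval x (pderiv j q) / (eval x B) ^ 2 -
        2 * eval x q * eval x (pderiv j B) / (eval x B) ^ 3) x (Pi.single j 1) := by
  have h1 := ibp_poly_deriv j q x
  have h2 := ibp_poly_deriv j B x
  unfold HasLineDerivAt at h1 h2 ⊢
  have hBx : 0 < eval x B := lt_of_lt_of_le hw (hB x)
  have hne : (fun t : ℝ => (eval (x + t • (Pi.single j 1 : ι → ℝ)) B) ^ 2) 0 ≠ 0 := by
    simp only [zero_smul, add_zero]
    positivity
  have h3 := h1.div (h2.fun_pow 2) hne
  refine h3.congr_deriv ?_
  simp only [zero_smul, add_zero]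
  field_simp
  ring

theorem sibp_integrable {B : MvPolynomial ι ℝ} {w₂ : ℝ} (hw : 0 < w₂)
    (hB : ∀ x, w₂ ≤ eval x B) (j : ι) (q : MvPolynomial ι ℝ) :
    Integrable (fun x : ι → ℝ => eval x (pderiv j q) / (eval x B) ^ 2 -
        2 * eval x q * eval x (pderiv j B) / (eval x B) ^ 3) (gam ι) := by
  have h1 := div_integrable hw hB (pderiv j q) 2
  have h2 := div_integrable hw hB (C 2 * q * pderiv j B) 3
  refine (h1.sub h2).congr (Filter.Eventually.of_forall fun x => ?_)
  simp only [Pi.sub_apply, map_mul, eval_C]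

theorem ibp_weight {B : MvPolynomial ι ℝ} {w₂ : ℝ} (hw : 0 < w₂) (hB : ∀ x, w₂ ≤ eval x B)
    (j : ι) (q : MvPolynomial ι ℝ) :
    ∫ x, (eval x (pderiv j q) / (eval x B) ^ 2 -
        2 * eval x q * eval x (pderiv j B) / (eval x B) ^ 3) ∂(gam ι) =
      ∫ x, x j * eval x q / (eval x B) ^ 2 ∂(gam ι) := by
  have i1 := ibp_integrable (sibp_integrable hw hB j q)
  have i2 := ibp_integrable (div_integrable hw hB q 2)
  have i3 := ibp_integrable (div_integrable hw hB (X j * q) 2)
  have key := integral_bilinear_hasLineDerivAt_right_eq_neg_left_of_integrable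
    (μ := (volume : Measure (ι → ℝ))) (f := fun x : ι → ℝ => eval x q / (eval x B) ^ 2)
    (f' := fun x : ι → ℝ => eval x (pderiv j q) / (eval x B) ^ 2 -
        2 * eval x q * eval x (pderiv j B) / (eval x B) ^ 3)
    (g := (ibp_phi : (ι → ℝ) → ℝ)) (g' := fun x : ι → ℝ => -(x j * ibp_phi x))
    (v := Pi.single j 1) (B := ContinuousLinearMap.mul ℝ ℝ) ?_ ?_ ?_
    (fun x _ => sibp_deriv hw hB j q x) (fun x _ => ibp_phi_deriv j x)
  · simp only [ContinuousLinearMap.mul_apply'] at key
    rw [ibp_integral, ibp_integral, ← neg_neg (∫ x : ι → ℝ, _ * ibp_phi x), ← key,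
      ← integral_neg]
    congr 1
    funext x
    ring
  · simpa only [ContinuousLinearMap.mul_apply'] using i1
  · have := i3.neg
    refine this.congr (Filter.Eventually.of_forall fun x => ?_)
    simp only [ContinuousLinearMap.mul_apply', Pi.neg_apply, map_mul, eval_X]
    ring
  · simpa only [ContinuousLinearMap.mul_apply'] using i2

/-- The quadratic form of the number operator in the weighted space. -/
theorem weight_form {B : MvPolynomial ι ℝ} {w₂ : ℝ} (hw : 0 < w₂) (hB : ∀ x, w₂ ≤ eval x B)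
    (v u : MvPolynomial ι ℝ) :
    ∫ x, eval x v * eval x (∑ j, (X j * pderiv j u - pderiv j (pderiv j u))) /
        (eval x B) ^ 2 ∂(gam ι) =
      ∫ x, (∑ j, eval x (pderiv j v) * eval x (pderiv j u)) / (eval x B) ^ 2 ∂(gam ι) -
      2 * ∫ x, eval x v * (∑ j, eval x (pderiv j u) * eval x (pderiv j B)) /
        (eval x B) ^ 3 ∂(gam ι) := by
  have hi1 : ∀ j : ι, Integrable (fun x : ι → ℝ =>
      x j * eval x (v * pderiv j u) / (eval x B) ^ 2) (gam ι) := fun j =>
    (div_integrable hw hB (X j * (v * pderiv j u)) 2).congr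
      (Filter.Eventually.of_forall fun x => by simp only [map_mul, eval_X])
  have hi2 : ∀ j : ι, Integrable (fun x : ι → ℝ =>
      eval x v * eval x (pderiv j (pderiv j u)) / (eval x B) ^ 2) (gam ι) := fun j =>
    (div_integrable hw hB (v * pderiv j (pderiv j u)) 2).congr
      (Filter.Eventually.of_forall fun x => by simp only [map_mul])
  have hi3 : ∀ j : ι, Integrable (fun x : ι → ℝ =>
      eval x (pderiv j v) * eval x (pderiv j u) / (eval x B) ^ 2) (gam ι) := fun j =>
    (div_integrable hw hB (pderiv j v * pderiv j u) 2).congr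
      (Filter.Eventually.of_forall fun x => by simp only [map_mul])
  have hi4 : ∀ j : ι, Integrable (fun x : ι → ℝ =>
      eval x v * (eval x (pderiv j u) * eval x (pderiv j B)) / (eval x B) ^ 3) (gam ι) := fun j =>
    (div_integrable hw hB (v * (pderiv j u * pderiv j B)) 3).congr
      (Filter.Eventually.of_forall fun x => by simp only [map_mul])
  have hi12 : ∀ j : ι, Integrable (fun x : ι → ℝ =>
      x j * eval x (v * pderiv j u) / (eval x B) ^ 2 -
        eval x v * eval x (pderiv j (pderiv j u)) / (eval x B) ^ 2) (gam ι) := fun j =>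
    (hi1 j).sub (hi2 j)
  have hi32 : ∀ j : ι, Integrable (fun x : ι → ℝ =>
      eval x (pderiv j v) * eval x (pderiv j u) / (eval x B) ^ 2 +
        eval x v * eval x (pderiv j (pderiv j u)) / (eval x B) ^ 2) (gam ι) := fun j =>
    (hi3 j).add (hi2 j)
  have e1 : ∫ x, eval x v * eval x (∑ j, (X j * pderiv j u - pderiv j (pderiv j u))) /
        (eval x B) ^ 2 ∂(gam ι) =
      ∑ j, (∫ x, x j * eval x (v * pderiv j u) / (eval x B) ^ 2 ∂(gam ι) -
        ∫ x, eval x v * eval x (pderiv j (pderiv j u)) / (eval x B) ^ 2 ∂(gam ι)) := by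
    rw [Finset.sum_congr rfl fun j _ => (integral_sub (hi1 j) (hi2 j)).symm,
      ← integral_finsetSum _ fun j _ => hi12 j]
    congr 1
    funext x
    simp only [map_sum, map_sub, map_mul, eval_X]
    rw [Finset.mul_sum, Finset.sum_div]
    exact Finset.sum_congr rfl fun j _ => by ring
  have e2 : ∫ x, (∑ j, eval x (pderiv j v) * eval x (pderiv j u)) / (eval x B) ^ 2 ∂(gam ι) =
      ∑ j, ∫ x, eval x (pderiv j v) * eval x (pderiv j u) / (eval x B) ^ 2 ∂(gam ι) := by
    rw [← integral_finsetSum _ fun j _ => hi3 j]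
    congr 1
    funext x
    rw [Finset.sum_div]
  have e3 : ∫ x, eval x v * (∑ j, eval x (pderiv j u) * eval x (pderiv j B)) /
        (eval x B) ^ 3 ∂(gam ι) =
      ∑ j, ∫ x, eval x v * (eval x (pderiv j u) * eval x (pderiv j B)) /
        (eval x B) ^ 3 ∂(gam ι) := by
    rw [← integral_finsetSum _ fun j _ => hi4 j]
    congr 1
    funext x
    rw [Finset.mul_sum, Finset.sum_div]
  rw [e1, e2, e3, Finset.mul_sum, ← Finset.sum_sub_distrib]
  refine Finset.sum_congr rfl fun j _ => ?_
  rw [← ibp_weight hw hB j (v * pderiv j u)]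
  have e4 : (fun x : ι → ℝ => eval x (pderiv j (v * pderiv j u)) / (eval x B) ^ 2 -
        2 * eval x (v * pderiv j u) * eval x (pderiv j B) / (eval x B) ^ 3) =
      fun x => (eval x (pderiv j v) * eval x (pderiv j u) / (eval x B) ^ 2 +
        eval x v * eval x (pderiv j (pderiv j u)) / (eval x B) ^ 2) -
        2 * (eval x v * (eval x (pderiv j u) * eval x (pderiv j B)) / (eval x B) ^ 3) := by
    funext x
    simp only [Derivation.leibniz, smul_eq_mul, map_add, map_mul]
    ring
  rw [e4, integral_sub (hi32 j) ((hi4 j).const_mul 2),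
    integral_add (hi3 j) (hi2 j), integral_const_mul]
  ring

end Pool.Agent.KWG
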