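import Pool.Agent.Lib.MP_68391b_lc.Sq.SDefs

/-! Algebra of the multipliers. -/

set_option linter.unusedSectionVars false

namespace Pool.Agent.KWG

open MeasureTheory ProbabilityTheory MvPolynomial Pool.Agent.KWI

variable {ι : Type} [Fintype ι] [DecidableEq ι]

theorem mult_eq (N : ℕ) (ψ : ℕ → ℝ) (g : MvPolynomial ι ℝ) :
    Mu N ψ g = ∑ α ∈ herme_T ι N, C (ψ (∑ i, α i) * hc g α) * hp α := by
  rw [← herme_sum N (fun α => C (ψ (∑ i, α i) * hc g α) * hp α)]
  unfold Mu
  refine Finset.sum_congr rfl fun k _ => Finset.sum_congr rfl fun α hα => ?_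
  rw [mem_lev.1 hα]

theorem mult_coef (S : Finset (ι → ℕ)) (c : (ι → ℕ) → ℝ) (α : ι → ℕ) :
    hc (∑ β ∈ S, C (c β) * hp β) α = if α ∈ S then c α else 0 := by
  unfold hc
  have e : (fun x : ι → ℝ => eval x (∑ β ∈ S, C (c β) * hp β) * eval x (hp α)) =
      fun x => ∑ β ∈ S, c β * (eval x (hp β) * eval x (hp α)) := by
    funext x
    rw [map_sum, Finset.sum_mul]
    refine Finset.sum_congr rfl fun β _ => ?_
    rw [map_mul, eval_C]
    ring
  rw [e, integral_finsetSum _ fun β _ => (poly_integrable_mul _ _).const_mul _]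
  simp_rw [integral_const_mul, hp_orth]
  simp

theorem mult_sum_degree (N : ℕ) (c : (ι → ℕ) → ℝ) :
    (∑ α ∈ herme_T ι N, C (c α) * hp α : MvPolynomial ι ℝ).totalDegree ≤ N := by
  refine MvPolynomial.totalDegree_finsetSum_le fun α hα => ?_
  refine (MvPolynomial.totalDegree_mul _ _).trans ?_
  rw [totalDegree_C, zero_add]
  exact (hp_degree α).trans (herme_mem.1 hα)

theorem mult_expand (N : ℕ) (q : MvPolynomial ι ℝ) (hq : q.totalDegree ≤ N) :
    q = ∑ α ∈ herme_T ι N, C (hc q α) * hp α := herme_expand N q hq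

theorem mult_ext {N : ℕ} {p q : MvPolynomial ι ℝ} (hp' : p.totalDegree ≤ N)
    (hq : q.totalDegree ≤ N) (h : ∀ α : ι → ℕ, hc p α = hc q α) : p = q := by
  rw [mult_expand N p hp', mult_expand N q hq]
  exact Finset.sum_congr rfl fun α _ => by rw [h α]

theorem mult_high {N : ℕ} {q : MvPolynomial ι ℝ} (hq : q.totalDegree ≤ N) {α : ι → ℕ}
    (hα : N < ∑ i, α i) : hc q α = 0 := by
  rw [mult_expand N q hq, mult_coef, if_neg]
  rw [herme_mem]
  omega

theorem mult_add (p q : MvPolynomial ι ℝ) (α : ι → ℕ) : hc (p + q) α = hc p α + hc q α := by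
  unfold hc
  rw [← integral_add (poly_integrable_mul _ _) (poly_integrable_mul _ _)]
  congr 1
  funext x
  rw [map_add]
  ring

theorem mult_sum {κ : Type} (S : Finset κ) (p : κ → MvPolynomial ι ℝ) (α : ι → ℕ) :
    hc (∑ a ∈ S, p a) α = ∑ a ∈ S, hc (p a) α := by
  unfold hc
  rw [← integral_finsetSum _ fun a _ => poly_integrable_mul _ _]
  congr 1
  funext x
  rw [map_sum, Finset.sum_mul]

theorem mult_sum_update (α : ι → ℕ) (j : ι) (m : ℕ) :
    (∑ i, Function.update α j m i) + α j = (∑ i, α i) + m := by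
  rw [← Finset.add_sum_erase _ _ (Finset.mem_univ j), ← Finset.add_sum_erase _ α
    (Finset.mem_univ j), Function.update_self]
  have : ∑ i ∈ Finset.univ.erase j, Function.update α j m i =
      ∑ i ∈ Finset.univ.erase j, α i :=
    Finset.sum_congr rfl fun i hi => Function.update_of_ne (Finset.ne_of_mem_erase hi) _ _
  rw [this]
  omega

theorem mult_ibp (j : ι) (g w : MvPolynomial ι ℝ) :
    ∫ x, eval x (X j * g - pderiv j g) * eval x w ∂(gam ι) =
      ∫ x, eval x g * eval x (pderiv j w) ∂(gam ι) := by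
  have h := mul_step j g w 1
  simp only [mul_one, map_zero, Derivation.map_one_eq_zero, mul_zero, integral_zero,
    add_zero] at h
  simpa only [map_mul] using h

theorem mult_hc_pderiv (q : MvPolynomial ι ℝ) (j : ι) (α : ι → ℕ) :
    hc (pderiv j q) α = √((α j : ℝ) + 1) * hc q (Function.update α j (α j + 1)) := by
  unfold hc
  have h := mult_ibp j (hp α) q
  rw [raise_hp] at h
  have e1 : ∫ x, eval x (pderiv j q) * eval x (hp α) ∂(gam ι) =
      ∫ x, eval x (hp α) * eval x (pderiv j q) ∂(gam ι) := by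
    congr 1
    funext x
    ring
  rw [e1, ← h, ← integral_const_mul]
  congr 1
  funext x
  rw [map_mul, eval_C]
  ring

theorem mult_hc_raise (q : MvPolynomial ι ℝ) (j : ι) (α : ι → ℕ) :
    hc (X j * q - pderiv j q) α = √(α j : ℝ) * hc q (Function.update α j (α j - 1)) := by
  unfold hc
  rw [mult_ibp j q (hp α), pderiv_hp, ← integral_const_mul]
  congr 1
  funext x
  rw [map_mul, eval_C]
  ring

theorem mult_number_hc (q : MvPolynomial ι ℝ) (j : ι) (α : ι → ℕ) :
    hc (X j * pderiv j q - pderiv j (pderiv j q)) α = (α j : ℝ) * hc q α := by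
  rw [mult_hc_raise, mult_hc_pderiv]
  rcases Nat.eq_zero_or_pos (α j) with h | h
  · simp [h]
  · have e1 : Function.update (Function.update α j (α j - 1)) j
        (Function.update α j (α j - 1) j + 1) = α := by
      rw [Function.update_idem, Function.update_self, Nat.sub_add_cancel h,
        Function.update_eq_self]
    rw [e1, Function.update_self, ← mul_assoc]
    congr 1
    have e2 : ((α j - 1 : ℕ) : ℝ) + 1 = (α j : ℝ) := by
      rw [Nat.cast_sub h]
      push_cast
      ring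
    rw [e2, Real.mul_self_sqrt (Nat.cast_nonneg _)]

theorem mu_degree (N : ℕ) (ψ : ℕ → ℝ) (g : MvPolynomial ι ℝ) : (Mu N ψ g).totalDegree ≤ N := by
  rw [mult_eq]
  exact mult_sum_degree N _

theorem mu_hc (N : ℕ) (ψ : ℕ → ℝ) (g : MvPolynomial ι ℝ) (α : ι → ℕ) :
    hc (Mu N ψ g) α = if ∑ i, α i ≤ N then ψ (∑ i, α i) * hc g α else 0 := by
  rw [mult_eq, mult_coef]
  simp only [herme_mem]

theorem mu_congr {N : ℕ} {ψ φ : ℕ → ℝ} (h : ∀ k, k ≤ N → ψ k = φ k) (g : MvPolynomial ι ℝ) :
    Mu N ψ g = Mu N φ g := by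
  unfold Mu
  refine Finset.sum_congr rfl fun k hk => ?_
  rw [h k (by simpa [Nat.lt_succ_iff] using hk)]

theorem mu_one {N : ℕ} {g : MvPolynomial ι ℝ} (hg : g.totalDegree ≤ N) :
    Mu N (fun _ => 1) g = g := by
  rw [mult_eq]
  simp only [one_mul]
  exact (mult_expand N g hg).symm

theorem mu_comp (N : ℕ) (ψ φ : ℕ → ℝ) (g : MvPolynomial ι ℝ) :
    Mu N ψ (Mu N φ g) = Mu N (fun k => ψ k * φ k) g := by
  refine mult_ext (mu_degree N _ _) (mu_degree N _ _) fun α => ?_
  rw [mu_hc, mu_hc, mu_hc]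
  split_ifs
  · ring
  · rfl

theorem mu_pderiv {N : ℕ} (ψ : ℕ → ℝ) {g : MvPolynomial ι ℝ} (hg : g.totalDegree ≤ N) (j : ι) :
    pderiv j (Mu N ψ g) = Mu N (fun k => ψ (k + 1)) (pderiv j g) := by
  refine mult_ext (N := N) ((pderiv_deg' j _).trans (mu_degree N _ _)) (mu_degree N _ _)
    fun α => ?_
  have hs := mult_sum_update α j (α j + 1)
  rw [mult_hc_pderiv, mu_hc, mu_hc, mult_hc_pderiv]
  have hs' : ∑ i, Function.update α j (α j + 1) i = (∑ i, α i) + 1 := by omega
  rw [hs']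
  by_cases h1 : (∑ i, α i) + 1 ≤ N
  · rw [if_pos h1, if_pos (by omega)]
    ring
  · rw [if_neg h1]
    have h2 : hc g (Function.update α j (α j + 1)) = 0 := mult_high hg (by omega)
    rw [h2]
    simp

theorem mu_number {N : ℕ} {g : MvPolynomial ι ℝ} (hg : g.totalDegree ≤ N) :
    ∑ j, (X j * pderiv j g - pderiv j (pderiv j g)) = Mu N (fun k => (k : ℝ)) g := by
  have d1 : ∀ j : ι, (pderiv j g).totalDegree ≤ N := fun j => (pderiv_deg' j _).trans hg
  refine mult_ext (N := N + 1) ?_ ((mu_degree N _ _).trans (Nat.le_succ _)) fun α => ?_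
  · refine MvPolynomial.totalDegree_finsetSum_le fun j _ => ?_
    refine (MvPolynomial.totalDegree_sub _ _).trans (max_le ?_ ?_)
    · refine (MvPolynomial.totalDegree_mul _ _).trans ?_
      rw [totalDegree_X]
      have := d1 j
      omega
    · exact (pderiv_deg' j _).trans ((d1 j).trans (Nat.le_succ _))
  · rw [mult_sum, Finset.sum_congr rfl fun j _ => mult_number_hc g j α, ← Finset.sum_mul, mu_hc]
    split_ifs with h
    · push_cast
      rfl
    · rw [mult_high hg (not_le.1 h), mul_zero]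

theorem mu_sum {κ : Type} [Fintype κ] (N : ℕ) (c : κ → ℝ) (ψ : κ → ℕ → ℝ)
    (g : MvPolynomial ι ℝ) :
    Mu N (fun k => ∑ i, c i * ψ i k) g = ∑ i, C (c i) * Mu N (ψ i) g := by
  simp only [mult_eq, Finset.mul_sum]
  rw [Finset.sum_comm]
  refine Finset.sum_congr rfl fun α _ => ?_
  rw [Finset.sum_mul, map_sum, Finset.sum_mul]
  refine Finset.sum_congr rfl fun i _ => ?_
  rw [← mul_assoc, ← C_mul, mul_assoc]

theorem mu_integral (N : ℕ) (ψ : ℕ → ℝ) (g : MvPolynomial ι ℝ) (F : (ι → ℝ) → ℝ)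
    (hF : ∀ α : ι → ℕ, Integrable (fun x => F x * eval x (hp α)) (gam ι)) :
    ∫ x, F x * eval x (Mu N ψ g) ∂(gam ι) = ∑ k ∈ Finset.range (N + 1), ∑ α ∈ lev ι k,
      ψ k * hc g α * ∫ x, F x * eval x (hp α) ∂(gam ι) := by
  have e : (fun x : ι → ℝ => F x * eval x (Mu N ψ g)) =
      fun x => ∑ k ∈ Finset.range (N + 1), ∑ α ∈ lev ι k,
        ψ k * hc g α * (F x * eval x (hp α)) := by
    funext x
    unfold Mu
    simp only [map_sum, map_mul, eval_C, Finset.mul_sum]
    refine Finset.sum_congr rfl fun k _ => Finset.sum_congr rfl fun α _ => by ring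
  have i1 : ∀ (k : ℕ) (α : ι → ℕ),
      Integrable (fun x => ψ k * hc g α * (F x * eval x (hp α))) (gam ι) :=
    fun k α => (hF α).const_mul _
  rw [e, integral_finsetSum _ fun k _ => integrable_finsetSum _ fun α _ => i1 k α]
  refine Finset.sum_congr rfl fun k _ => ?_
  rw [integral_finsetSum _ fun α _ => i1 k α]
  exact Finset.sum_congr rfl fun α _ => integral_const_mul _ _

end Pool.Agent.KWG
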