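import Pool.Agent.Lib.MP_68391b_lc.Gen.GTwist

/-! Twisted derivatives with decay. -/

set_option linter.unusedSectionVars false

namespace Pool.Agent.KWG

open MeasureTheory ProbabilityTheory MvPolynomial Pool.Agent.KWI

variable {ι : Type} [Fintype ι] [DecidableEq ι]

theorem stwist_choose (m k : ℕ) : ((m + k).choose k : ℝ) / 8 ^ k ≤ (8 / 7) ^ m := by
  have h1 : ((1 : ℝ) / 8) ^ k * (7 / 8) ^ (m + k - k) * ((m + k).choose k : ℝ) ≤ 1 := by
    have h2 : ((1 : ℝ) / 8 + 7 / 8) ^ (m + k) = 1 := by norm_num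
    rw [add_pow] at h2
    refine le_trans ?_ h2.le
    exact Finset.single_le_sum
      (f := fun j => ((1 : ℝ) / 8) ^ j * (7 / 8) ^ (m + k - j) * ((m + k).choose j : ℝ))
      (fun j _ => by positivity) (Finset.mem_range.2 (show k < m + k + 1 by omega))
  rw [Nat.add_sub_cancel] at h1
  have h3 : ((m + k).choose k : ℝ) / 8 ^ k =
      (((1 : ℝ) / 8) ^ k * (7 / 8) ^ m * ((m + k).choose k : ℝ)) * (8 / 7) ^ m := by
    have h4 : ((7 : ℝ) / 8) ^ m * (8 / 7) ^ m = 1 := by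
      rw [← mul_pow]
      norm_num
    rw [one_div, inv_pow]
    calc ((m + k).choose k : ℝ) / 8 ^ k = ((m + k).choose k : ℝ) / 8 ^ k * 1 := (mul_one _).symm
      _ = ((m + k).choose k : ℝ) / 8 ^ k * ((7 / 8) ^ m * (8 / 7) ^ m) := by rw [h4]
      _ = _ := by ring
  rw [h3]
  exact mul_le_of_le_one_left (by positivity) h1

theorem twist_half (A : MvPolynomial ι ℝ) {δ : ℝ} (hδ : 0 < δ) (x : ι → ℝ)
    (hA : 0 ≤ eval x A)
    (hjet : ∀ k, 1 ≤ k → √(eval x (HS k A)) * δ ^ k ≤ (1 / 8) ^ k * eval x A)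
    {s : ℝ} (hs : 0 ≤ s) (k : ℕ) :
    √(eval x (TS s A k 1)) * Real.exp (-(s * eval x A) / 2) ≤
      2 * (k.factorial : ℝ) / δ ^ k := by
  have h1 := twist_main A (δ := 4 * δ) (by positivity) x hA (by
    intro k hk
    rw [mul_pow]
    calc √(eval x (HS k A)) * (4 ^ k * δ ^ k) = 4 ^ k * (√(eval x (HS k A)) * δ ^ k) := by ring
      _ ≤ 4 ^ k * ((1 / 8) ^ k * eval x A) := by
        have := hjet k hk
        gcongr
      _ = (1 / 2) ^ k * eval x A := by
        rw [← mul_assoc, ← mul_pow]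
        norm_num) hs k
  have hV0 : 0 ≤ s * eval x A := mul_nonneg hs hA
  set V := s * eval x A with hV
  have h2 := twist_R_le hV0 (Nat.lt_floor_add_one V).le k
  have h3 : twist_R V k / 4 ^ k ≤ Real.exp (V / 2) := by
    have h4 : twist_R V k / 4 ^ k ≤ ((⌊V⌋₊ + k).choose k : ℝ) / 8 ^ k := by
      calc twist_R V k / 4 ^ k ≤ (((⌊V⌋₊ + k).choose k : ℝ) / 2 ^ k) / 4 ^ k := by gcongr
        _ = ((⌊V⌋₊ + k).choose k : ℝ) / 8 ^ k := by
          rw [div_div, ← mul_pow]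
          norm_num
    have h5 := stwist_choose ⌊V⌋₊ k
    have h6 : ((8 : ℝ) / 7) ^ ⌊V⌋₊ ≤ Real.exp (1 / 2) ^ ⌊V⌋₊ := by
      have := Real.add_one_le_exp (1 / 2 : ℝ)
      exact pow_le_pow_left₀ (by norm_num) (by linarith) _
    have h7 : Real.exp (1 / 2) ^ ⌊V⌋₊ ≤ Real.exp (V / 2) := by
      rw [← Real.exp_nat_mul]
      refine Real.exp_le_exp.2 ?_
      have := Nat.floor_le hV0
      linarith
    linarith
  have h4 : twist_R V k / 4 ^ k * Real.exp (-V / 2) ≤ 1 := by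
    calc twist_R V k / 4 ^ k * Real.exp (-V / 2) ≤ Real.exp (V / 2) * Real.exp (-V / 2) := by
          gcongr
      _ = 1 := by
        rw [← Real.exp_add]
        have : V / 2 + -V / 2 = 0 := by ring
        rw [this, Real.exp_zero]
  calc √(eval x (TS s A k 1)) * Real.exp (-V / 2)
      ≤ twist_R V k * (k.factorial : ℝ) / (4 * δ) ^ k * Real.exp (-V / 2) := by gcongr
    _ = (twist_R V k / 4 ^ k * Real.exp (-V / 2)) * ((k.factorial : ℝ) / δ ^ k) := by
        rw [mul_pow]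
        field_simp
    _ ≤ 1 * ((k.factorial : ℝ) / δ ^ k) := by
        apply mul_le_mul_of_nonneg_right h4
        positivity
    _ ≤ 2 * ((k.factorial : ℝ) / δ ^ k) := by
        apply mul_le_mul_of_nonneg_right (by norm_num)
        positivity
    _ = 2 * (k.factorial : ℝ) / δ ^ k := by ring

end Pool.Agent.KWG
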