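import Pool.Agent.Lib.MP_68391b_lc.Sq.SChain
import Pool.Agent.Lib.MP_68391b_lc.Sq.STwist

/-! The resolvent tested against high levels. -/

set_option linter.unusedSectionVars false

namespace Pool.Agent.KWG

open MeasureTheory ProbabilityTheory MvPolynomial Pool.Agent.KWI

variable {ι : Type} [Fintype ι] [DecidableEq ι]

private theorem res_exp_int {b : ℝ} (hb : 0 < b) :
    ∫ s in Set.Ioi (0 : ℝ), Real.exp (-(s * b)) = 1 / b := by
  have h := integral_exp_mul_Ioi (a := -b) (by linarith) 0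
  have e : (fun s : ℝ => Real.exp (-(s * b))) = fun s => Real.exp (-b * s) := by
    funext s
    congr 1
    ring
  rw [e, h]
  simp

private theorem res_exp_integrable {b : ℝ} (hb : 0 < b) :
    Integrable (fun s : ℝ => Real.exp (-(s * b))) (volume.restrict (Set.Ioi 0)) := by
  have h := integrableOn_exp_mul_Ioi (a := -b) (by linarith) 0
  have e : (fun s : ℝ => Real.exp (-(s * b))) = fun s => Real.exp (-b * s) := by
    funext s
    congr 1
    ring
  rw [e]
  exact h

private theorem res_prod_integrable {B : MvPolynomial ι ℝ} {w₂ : ℝ} (hw : 0 < w₂)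
    (hB : ∀ x, w₂ ≤ eval x B) {c : ℝ} (hc : 0 < c) {u : (ι → ℝ) → ℝ} (hum : Measurable u)
    (hui : Integrable u (gam ι)) :
    Integrable (Function.uncurry fun (x : ι → ℝ) (s : ℝ) =>
      u x * Real.exp (-(s * (c * eval x B)))) ((gam ι).prod (volume.restrict (Set.Ioi (0 : ℝ)))) := by
  have h1 : Integrable (fun z : (ι → ℝ) × ℝ => |u z.1| * Real.exp (-(z.2 * (c * w₂))))
      ((gam ι).prod (volume.restrict (Set.Ioi (0 : ℝ)))) :=
    hui.abs.mul_prod (res_exp_integrable (mul_pos hc hw))
  refine h1.mono ?_ ?_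
  · have h2 : Measurable (fun z : (ι → ℝ) × ℝ => eval z.1 B) :=
      (eval_measurable B).comp measurable_fst
    have h3 : Measurable (fun z : (ι → ℝ) × ℝ => u z.1) := hum.comp measurable_fst
    have h4 : Measurable (Function.uncurry fun (x : ι → ℝ) (s : ℝ) =>
        u x * Real.exp (-(s * (c * eval x B)))) :=
      h3.mul (measurable_snd.mul (h2.const_mul c)).neg.exp
    exact h4.aestronglyMeasurable
  · have hae : ∀ᵐ z ∂((gam ι).prod (volume.restrict (Set.Ioi (0 : ℝ)))), z.2 ∈ Set.Ioi (0 : ℝ) := by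
      have h5 : ∀ᵐ s ∂(volume.restrict (Set.Ioi (0 : ℝ))), s ∈ Set.Ioi (0 : ℝ) :=
        ae_restrict_mem measurableSet_Ioi
      exact Measure.quasiMeasurePreserving_snd.ae h5
    filter_upwards [hae] with z hz
    have hz0 : 0 < z.2 := hz
    show ‖u z.1 * Real.exp (-(z.2 * (c * eval z.1 B)))‖ ≤ _
    rw [norm_mul, Real.norm_of_nonneg (Real.exp_pos _).le, Real.norm_eq_abs, Real.norm_eq_abs,
      abs_mul, abs_abs, abs_of_pos (Real.exp_pos _)]
    refine mul_le_mul_of_nonneg_left ?_ (abs_nonneg _)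
    refine Real.exp_le_exp.2 ?_
    have h6 : z.2 * (c * w₂) ≤ z.2 * (c * eval z.1 B) :=
      mul_le_mul_of_nonneg_left (mul_le_mul_of_nonneg_left (hB z.1) hc.le) hz0.le
    linarith

private theorem res_swap {B : MvPolynomial ι ℝ} {w₂ : ℝ} (hw : 0 < w₂)
    (hB : ∀ x, w₂ ≤ eval x B) {c : ℝ} (hc : 0 < c) {u : (ι → ℝ) → ℝ} (hum : Measurable u)
    (hui : Integrable u (gam ι)) :
    ∫ s in Set.Ioi (0 : ℝ), ∫ x, u x * Real.exp (-(s * (c * eval x B))) ∂(gam ι) =
      ∫ x, u x * (1 / (c * eval x B)) ∂(gam ι) := by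
  rw [← integral_integral_swap (res_prod_integrable hw hB hc hum hui)]
  refine integral_congr_ae (Filter.Eventually.of_forall fun x => ?_)
  show ∫ s in Set.Ioi (0 : ℝ), u x * Real.exp (-(s * (c * eval x B))) = _
  rw [integral_const_mul, res_exp_int (mul_pos hc (lt_of_lt_of_le hw (hB x)))]

private theorem res_sqrt_integrable (q : MvPolynomial ι ℝ) (hq : ∀ x, 0 ≤ eval x q) :
    Integrable (fun x : ι → ℝ => √(eval x q)) (gam ι) := by
  have h1 : Integrable (fun x : ι → ℝ => 1 + eval x q) (gam ι) :=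
    (integrable_const _).add (poly_integrable q)
  refine h1.mono (eval_measurable q).sqrt.aestronglyMeasurable
    (Filter.Eventually.of_forall fun x => ?_)
  have h2 := hq x
  rw [Real.norm_of_nonneg (Real.sqrt_nonneg _), Real.norm_of_nonneg (by linarith),
    Real.sqrt_le_left (by linarith)]
  nlinarith

theorem res_one {B : MvPolynomial ι ℝ} {w₂ : ℝ} (hw : 0 < w₂) (hB : ∀ x, w₂ ≤ eval x B)
    {ρ : ℝ} (hρ : 0 < ρ)
    (hjet : ∀ x k, 1 ≤ k → √(eval x (HS k B)) ≤ (2 / ρ) ^ k * eval x B)
    (N : ℕ) (f : ℕ → ℝ) (hf0 : f 0 = 1) {θ : ℝ} (hθ0 : 0 ≤ θ)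
    (hθ : ∀ g : MvPolynomial ι ℝ, g.totalDegree ≤ N →
      ∑ j, wn B (pderiv j (Mu N (Psi f) g)) ≤ θ ^ 2 * wn B g)
    (a : ℕ) (g : MvPolynomial ι ℝ) (hg : g.totalDegree ≤ N) :
    |∫ x, eval x (Mu N (Phi f a) g) / eval x B ∂(gam ι)| ≤
      4 * (a.factorial : ℝ) * (16 / ρ) ^ a * θ ^ a * √(wn B g) := by
  have hBpos : ∀ x, 0 < eval x B := fun x => lt_of_lt_of_le hw (hB x)
  set M : MvPolynomial ι ℝ := Mu N (Phi f a) g with hM
  set G : MvPolynomial ι ℝ := GS N f a g with hG
  have hG0 : ∀ x, 0 ≤ eval x G := fun x => gs_nonneg N f a g x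
  have hGi : Integrable (fun x : ι → ℝ => √(eval x G)) (gam ι) := res_sqrt_integrable G hG0
  have hGm : Measurable (fun x : ι → ℝ => √(eval x G)) := (eval_measurable G).sqrt
  set K : ℝ := 2 * (a.factorial : ℝ) / (ρ / 16) ^ a with hK
  have hK0 : 0 ≤ K := by positivity
  -- the twisted derivatives
  have htw : ∀ (s : ℝ) (x : ι → ℝ), 0 ≤ s →
      √(eval x (TS s B a 1)) * Real.exp (-(s * eval x B) / 2) ≤ K := by
    intro s x hs
    refine twist_half B (δ := ρ / 16) (by positivity) x (hBpos x).le ?_ hs a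
    intro j hj
    have h1 := hjet x j hj
    have h2 : (0 : ℝ) ≤ (ρ / 16) ^ j := by positivity
    calc √(eval x (HS j B)) * (ρ / 16) ^ j ≤ ((2 / ρ) ^ j * eval x B) * (ρ / 16) ^ j :=
          mul_le_mul_of_nonneg_right h1 h2
      _ = ((2 / ρ) * (ρ / 16)) ^ j * eval x B := by rw [mul_pow]; ring
      _ = (1 / 8) ^ j * eval x B := by
          congr 2
          field_simp
          norm_num
  -- step 1: write `1 / B` as an integral
  have e1 : ∫ x, eval x M / eval x B ∂(gam ι) =
      ∫ s in Set.Ioi (0 : ℝ), ∫ x, eval x M * Real.exp (-(s * (1 * eval x B))) ∂(gam ι) := by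
    rw [res_swap hw hB one_pos (eval_measurable M) (poly_integrable M)]
    refine integral_congr_ae (Filter.Eventually.of_forall fun x => ?_)
    simp only [one_mul]
    ring
  have e2 : ∫ s in Set.Ioi (0 : ℝ), ∫ x, (K * √(eval x G)) *
        Real.exp (-(s * (1 / 2 * eval x B))) ∂(gam ι) =
      ∫ x, (K * √(eval x G)) * (1 / (1 / 2 * eval x B)) ∂(gam ι) :=
    res_swap hw hB (by norm_num) (hGm.const_mul K) (hGi.const_mul K)
  -- step 2: the chain bound
  have h2 : ∀ s ∈ Set.Ioi (0 : ℝ),
      |∫ x, eval x M * Real.exp (-(s * (1 * eval x B))) ∂(gam ι)| ≤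
        ∫ x, (K * √(eval x G)) * Real.exp (-(s * (1 / 2 * eval x B))) ∂(gam ι) := by
    intro s hs
    have hs0 : 0 < s := hs
    have h3 := chain_bound (fun x => (hBpos x).le) hs0.le N f hf0 a 1 g hg
    have e3 : ∫ x, eval x (1 : MvPolynomial ι ℝ) * Hx s B x * eval x (Mu N (Phi f a) g) ∂(gam ι) =
        ∫ x, eval x M * Real.exp (-(s * (1 * eval x B))) ∂(gam ι) := by
      refine integral_congr_ae (Filter.Eventually.of_forall fun x => ?_)
      simp only [map_one, one_mul, Hx, hM]
      ring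
    rw [e3] at h3
    refine h3.trans ?_
    refine integral_mono_of_nonneg (Filter.Eventually.of_forall fun x => ?_) ?_
      (Filter.Eventually.of_forall fun x => ?_)
    · have := Hx_pos s B x
      positivity
    · have i1 : Integrable (fun x : ι → ℝ => K * √(eval x G)) (gam ι) := hGi.const_mul K
      refine i1.mono ?_ (Filter.Eventually.of_forall fun x => ?_)
      · exact ((hGm.const_mul K).mul
          (((eval_measurable B).const_mul (1 / 2)).const_mul s).neg.exp).aestronglyMeasurable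
      · rw [norm_mul, Real.norm_of_nonneg (Real.exp_pos _).le]
        refine mul_le_of_le_one_right (norm_nonneg _) ?_
        rw [Real.exp_le_one_iff]
        have := mul_nonneg hs0.le (hBpos x).le
        linarith
    · show √(eval x (TS s B a 1)) * Hx s B x * √(eval x G) ≤
        (K * √(eval x G)) * Real.exp (-(s * (1 / 2 * eval x B)))
      have h4 := htw s x hs0.le
      have e4 : Hx s B x = Real.exp (-(s * eval x B) / 2) * Real.exp (-(s * (1 / 2 * eval x B))) := by
        unfold Hx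
        rw [← Real.exp_add]
        congr 1
        ring
      calc √(eval x (TS s B a 1)) * Hx s B x * √(eval x G)
          = (√(eval x (TS s B a 1)) * Real.exp (-(s * eval x B) / 2)) *
            (√(eval x G) * Real.exp (-(s * (1 / 2 * eval x B)))) := by rw [e4]; ring
        _ ≤ K * (√(eval x G) * Real.exp (-(s * (1 / 2 * eval x B)))) :=
            mul_le_mul_of_nonneg_right h4 (by positivity)
        _ = (K * √(eval x G)) * Real.exp (-(s * (1 / 2 * eval x B))) := by ring
  have i3 : Integrable (fun s : ℝ => ∫ x, eval x M * Real.exp (-(s * (1 * eval x B))) ∂(gam ι))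
      (volume.restrict (Set.Ioi (0 : ℝ))) :=
    (res_prod_integrable hw hB one_pos (eval_measurable M) (poly_integrable M)).integral_prod_right
  have i4 : Integrable (fun s : ℝ => ∫ x, (K * √(eval x G)) *
      Real.exp (-(s * (1 / 2 * eval x B))) ∂(gam ι)) (volume.restrict (Set.Ioi (0 : ℝ))) :=
    (res_prod_integrable hw hB (by norm_num : (0 : ℝ) < 1 / 2) (hGm.const_mul K)
      (hGi.const_mul K)).integral_prod_right
  have h5 : |∫ x, eval x M / eval x B ∂(gam ι)| ≤
      ∫ x, (K * √(eval x G)) * (1 / (1 / 2 * eval x B)) ∂(gam ι) := by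
    rw [e1, ← e2]
    refine (abs_integral_le_integral_abs).trans ?_
    refine integral_mono_ae i3.abs i4 ?_
    filter_upwards [ae_restrict_mem measurableSet_Ioi] with s hs
    exact h2 s hs
  -- step 3: Cauchy-Schwarz
  have e5 : ∫ x, (K * √(eval x G)) * (1 / (1 / 2 * eval x B)) ∂(gam ι) =
      2 * K * ∫ x, (√(eval x G) / eval x B) * 1 ∂(gam ι) := by
    rw [← integral_const_mul]
    refine integral_congr_ae (Filter.Eventually.of_forall fun x => ?_)
    have := (hBpos x).ne'
    simp only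
    field_simp
  have hsq : ∀ x : ι → ℝ, (√(eval x G) / eval x B) ^ 2 = eval x G / (eval x B) ^ 2 := by
    intro x
    rw [div_pow, Real.sq_sqrt (hG0 x)]
  have i5 : Integrable (fun x : ι → ℝ => (√(eval x G) / eval x B) ^ 2) (gam ι) := by
    simp only [hsq]
    exact div_integrable hw hB G 2
  have i6 : Integrable (fun x : ι → ℝ => √(eval x G) / eval x B * 1) (gam ι) := by
    have i7 : Integrable (fun x : ι → ℝ => √(eval x G) * (1 / w₂)) (gam ι) := hGi.mul_const _
    refine i7.mono ?_ (Filter.Eventually.of_forall fun x => ?_)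
    · exact ((hGm.div (eval_measurable B)).mul_const 1).aestronglyMeasurable
    · rw [mul_one, Real.norm_of_nonneg (div_nonneg (Real.sqrt_nonneg _) (hBpos x).le),
        Real.norm_of_nonneg (by positivity), div_eq_mul_one_div]
      refine mul_le_mul_of_nonneg_left ?_ (Real.sqrt_nonneg _)
      exact one_div_le_one_div_of_le hw (hB x)
  have h6 := cs_int (gam ι) (fun x => √(eval x G) / eval x B) (fun _ => (1 : ℝ)) i5
    (by simp) i6
  have h7 := gs_bound hw hB N f hθ0 hθ a g hg
  have h8 : ∫ x, (√(eval x G) / eval x B) * 1 ∂(gam ι) ≤ θ ^ a * √(wn B g) := by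
    refine (le_abs_self _).trans (h6.trans ?_)
    simp only [hsq, one_pow]
    have e8 : √(∫ _x : ι → ℝ, (1 : ℝ) ∂(gam ι)) = 1 := by simp
    rw [e8, mul_one]
    have e9 : θ ^ a * √(wn B g) = √(θ ^ (2 * a) * wn B g) := by
      rw [Real.sqrt_mul (by positivity), mul_comm 2 a, pow_mul, Real.sqrt_sq (by positivity)]
    rw [e9]
    exact Real.sqrt_le_sqrt h7
  refine h5.trans ?_
  rw [e5]
  calc 2 * K * ∫ x, (√(eval x G) / eval x B) * 1 ∂(gam ι) ≤ 2 * K * (θ ^ a * √(wn B g)) :=
        mul_le_mul_of_nonneg_left h8 (by positivity)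
    _ = 4 * (a.factorial : ℝ) * (16 / ρ) ^ a * θ ^ a * √(wn B g) := by
        rw [hK, div_pow, div_pow]
        field_simp
        ring

end Pool.Agent.KWG
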